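import Pool.Agent.Work.Circle.AlmostAll

/-!
The lower bound for the truncated singular series.
-/

set_option autoImplicit false

namespace Pool.Agent.Circle

open Finset ArithmeticFunction Pool.Agent.SW
open scoped ArithmeticFunction.Moebius

/-- `d ↦ d [d ∣ m]`. -/
def gm (m : ℕ) : ArithmeticFunction ℤ := ⟨fun d => if d ∣ m then (d : ℤ) else 0, by simp⟩

theorem gm_apply (m d : ℕ) : gm m d = if d ∣ m then (d : ℤ) else 0 := rfl

theorem gm_mult (m : ℕ) : (gm m).IsMultiplicative := by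
  rw [IsMultiplicative.iff_ne_zero]
  refine ⟨by simp [gm_apply], fun {a b} _ _ hab => ?_⟩
  rw [gm_apply, gm_apply, gm_apply]
  by_cases h : a * b ∣ m
  · rw [if_pos h, if_pos ((dvd_mul_right a b).trans h), if_pos ((dvd_mul_left b a).trans h)]
    push_cast
    ring
  · rw [if_neg h]
    by_cases h1 : a ∣ m
    · have h2 : ¬ b ∣ m := fun h2 => h (hab.mul_dvd_of_dvd_of_dvd h1 h2)
      rw [if_neg h2, mul_zero]
    · rw [if_neg h1, zero_mul]

theorem rsum_eq (m r : ℕ) : rsum m r = (gm m * μ) r := by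
  rw [mul_apply, Nat.sum_divisorsAntidiagonal (f := fun a b => gm m a * μ b)]
  unfold rsum
  refine sum_congr rfl fun d _ => ?_
  rw [gm_apply]
  split_ifs <;> simp

theorem rsum_mul (m a b : ℕ) (hab : a.Coprime b) : rsum m (a * b) = rsum m a * rsum m b := by
  rw [rsum_eq, rsum_eq, rsum_eq]
  exact ((gm_mult m).mul isMultiplicative_moebius).map_mul_of_coprime hab

theorem rsum_one (m : ℕ) : rsum m 1 = 1 := by
  rw [rsum_eq]
  exact ((gm_mult m).mul isMultiplicative_moebius).map_one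

theorem rsum_prime (m p : ℕ) (hp : p.Prime) : rsum m p = if p ∣ m then (p : ℤ) - 1 else -1 := by
  unfold rsum
  rw [hp.divisors, sum_insert (by simp [hp.one_lt.ne]), sum_singleton]
  rw [if_pos (one_dvd m), Nat.div_one, moebius_apply_prime hp, Nat.div_self hp.pos,
    moebius_apply_one]
  split_ifs
  · push_cast
    ring
  · norm_num

/-- The terms of the singular series. -/
noncomputable def Fs (m : ℕ) : ArithmeticFunction ℝ :=
  ⟨fun r => ((μ r : ℝ) ^ 2 / (r.totient : ℝ) ^ 2) * (rsum m r : ℝ), by simp⟩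

theorem Fs_apply (m r : ℕ) : Fs m r = ((μ r : ℝ) ^ 2 / (r.totient : ℝ) ^ 2) * (rsum m r : ℝ) := rfl

theorem Fs_mul (m a b : ℕ) (hab : a.Coprime b) : Fs m (a * b) = Fs m a * Fs m b := by
  rw [Fs_apply, Fs_apply, Fs_apply, rsum_mul m a b hab, Nat.totient_mul hab,
    isMultiplicative_moebius.map_mul_of_coprime hab]
  push_cast
  rw [mul_pow, mul_pow, mul_div_mul_comm]
  ring

theorem Fs_one (m : ℕ) : Fs m 1 = 1 := by
  rw [Fs_apply, rsum_one]
  simp

theorem Fs_mult (m : ℕ) : (Fs m).IsMultiplicative := by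
  rw [IsMultiplicative.iff_ne_zero]
  exact ⟨Fs_one m, fun {a b} _ _ hab => Fs_mul m a b hab⟩

theorem Fs_prime (m p : ℕ) (hp : p.Prime) :
    Fs m p = if p ∣ m then 1 / ((p : ℝ) - 1) else -1 / ((p : ℝ) - 1) ^ 2 := by
  have hp1 : (0 : ℝ) < (p : ℝ) - 1 := by
    have : (2 : ℝ) ≤ p := by exact_mod_cast hp.two_le
    linarith
  rw [Fs_apply, rsum_prime m p hp, moebius_apply_prime hp, Nat.totient_prime hp,
    Nat.cast_sub hp.one_le, Nat.cast_one]
  split_ifs
  · push_cast
    field_simp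
  · push_cast
    field_simp

/-- `√d |F(d)|`. -/
noncomputable def Gs (m : ℕ) : ArithmeticFunction ℝ := ⟨fun d => √(d : ℝ) * |Fs m d|, by simp⟩

theorem Gs_apply (m d : ℕ) : Gs m d = √(d : ℝ) * |Fs m d| := rfl

theorem Gs_mult (m : ℕ) : (Gs m).IsMultiplicative := by
  rw [IsMultiplicative.iff_ne_zero]
  refine ⟨by rw [Gs_apply, Fs_one]; simp, fun {a b} _ _ hab => ?_⟩
  rw [Gs_apply, Gs_apply, Gs_apply, Fs_mul m a b hab, abs_mul, Nat.cast_mul,
    Real.sqrt_mul (Nat.cast_nonneg a)]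
  ring

/-- The Euler product as a product over an interval. -/
theorem prod_eq (f : ArithmeticFunction ℝ) (hf : f.IsMultiplicative) (Q : ℕ) :
    ∑ d ∈ (primorial Q).divisors, f d = ∏ k ∈ range (Q + 1), if k.Prime then 1 + f k else 1 := by
  rw [← hf.prodPrimeFactors_one_add_of_squarefree (squarefree_primorial Q),
    primeFactors_primorial, ← prod_filter]
  rfl

theorem prod_ge (m Q : ℕ) (hm : Even m) (hQ : 2 ≤ Q) :
    (Q : ℝ) / (Q - 1) ≤ ∏ k ∈ range (Q + 1), if k.Prime then 1 + Fs m k else 1 := by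
  induction Q, hQ using Nat.le_induction with
  | base =>
    rw [prod_range_succ, prod_range_succ, prod_range_succ, prod_range_zero, if_neg Nat.not_prime_zero,
      if_neg Nat.not_prime_one, if_pos Nat.prime_two, Fs_prime m 2 Nat.prime_two,
      if_pos hm.two_dvd]
    norm_num
  | succ Q hQ ih =>
    rw [prod_range_succ]
    have hQr : (2 : ℝ) ≤ Q := by exact_mod_cast hQ
    have h1 : (0 : ℝ) < (Q : ℝ) - 1 := by linarith
    have h2 : (0 : ℝ) < (Q : ℝ) := by linarith
    have h3 : 1 - 1 / (Q : ℝ) ^ 2 ≤ if (Q + 1).Prime then 1 + Fs m (Q + 1) else 1 := by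
      split_ifs with hp
      · rw [Fs_prime m (Q + 1) hp]
        push_cast
        rw [add_sub_cancel_right]
        split_ifs
        · have : 0 ≤ 1 / (Q : ℝ) := by positivity
          have : 0 ≤ 1 / (Q : ℝ) ^ 2 := by positivity
          linarith
        · rw [neg_div]
          linarith
      · have : 0 ≤ 1 / (Q : ℝ) ^ 2 := by positivity
        linarith
    have h4 : 0 ≤ 1 - 1 / (Q : ℝ) ^ 2 := by
      rw [sub_nonneg, div_le_one (by positivity)]
      nlinarith
    have h5 : ((Q + 1 : ℕ) : ℝ) / ((Q + 1 : ℕ) - 1) = (Q : ℝ) / (Q - 1) * (1 - 1 / (Q : ℝ) ^ 2) := by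
      push_cast
      rw [add_sub_cancel_right]
      field_simp
      ring
    rw [h5]
    exact mul_le_mul ih h3 h4 (le_trans (by positivity) ih)

theorem full_ge (m Q : ℕ) (hm : Even m) :
    1 ≤ ∑ d ∈ (primorial Q).divisors, Fs m d := by
  rw [prod_eq (Fs m) (Fs_mult m)]
  rcases Nat.lt_or_ge Q 2 with h | h
  · have h1 : ∀ k ∈ range (Q + 1), (if k.Prime then 1 + Fs m k else 1) = 1 := by
      intro k hk
      rw [mem_range] at hk
      rw [if_neg]
      intro hp
      have := hp.two_le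
      omega
    rw [prod_congr rfl h1, prod_const_one]
  · refine le_trans ?_ (prod_ge m Q hm h)
    have hQr : (2 : ℝ) ≤ Q := by exact_mod_cast h
    rw [le_div_iff₀ (by linarith)]
    linarith

theorem sqrt_div_le (k : ℕ) (hk : 2 ≤ k) : √(k : ℝ) / ((k : ℝ) - 1) ^ 2 ≤ 4 * (√(k : ℝ) * ((k : ℝ) ^ 2)⁻¹) := by
  have hkr : (2 : ℝ) ≤ k := by exact_mod_cast hk
  have h1 : (k : ℝ) ^ 2 ≤ 4 * ((k : ℝ) - 1) ^ 2 := by nlinarith
  have h2 : 0 < ((k : ℝ) - 1) ^ 2 := by
    have : (0 : ℝ) < (k : ℝ) - 1 := by linarith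
    positivity
  have h3 : 4 * (√(k : ℝ) * ((k : ℝ) ^ 2)⁻¹) = (4 * √(k : ℝ)) / (k : ℝ) ^ 2 := by ring
  rw [h3, div_le_div_iff₀ h2 (by positivity)]
  have h4 := Real.sqrt_nonneg (k : ℝ)
  nlinarith

theorem euler_bound (m Q : ℕ) (hm : 0 < m) :
    ∑ d ∈ (primorial Q).divisors, Gs m d ≤ 5 / 4 * Real.exp 8 * (m.divisors.card : ℝ) := by
  rw [prod_eq (Gs m) (Gs_mult m)]
  -- termwise
  have h1 : ∀ k ∈ range (Q + 1), (if k.Prime then 1 + Gs m k else 1)
      ≤ ((if k.Prime ∧ k ∣ m then (if k = 2 then 5 / 2 else 2) else 1 : ℝ))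
        * Real.exp (if 2 ≤ k then 4 * (√(k : ℝ) * ((k : ℝ) ^ 2)⁻¹) else 0) := by
    intro k _
    by_cases hp : k.Prime
    · have hk2 := hp.two_le
      have hkr : (2 : ℝ) ≤ k := by exact_mod_cast hk2
      have hk1 : (0 : ℝ) < (k : ℝ) - 1 := by linarith
      rw [if_pos hp, if_pos hk2, Gs_apply, Fs_prime m k hp]
      have he : 1 + √(k : ℝ) / ((k : ℝ) - 1) ^ 2 ≤ Real.exp (4 * (√(k : ℝ) * ((k : ℝ) ^ 2)⁻¹)) := by
        have h2 := Real.add_one_le_exp (4 * (√(k : ℝ) * ((k : ℝ) ^ 2)⁻¹))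
        have h3 := sqrt_div_le k hk2
        linarith
      have he1 : 1 ≤ Real.exp (4 * (√(k : ℝ) * ((k : ℝ) ^ 2)⁻¹)) := Real.one_le_exp (by positivity)
      by_cases hd : k ∣ m
      · rw [if_pos hd, if_pos ⟨hp, hd⟩, abs_of_pos (by positivity), mul_one_div]
        have h4 : 1 + √(k : ℝ) / ((k : ℝ) - 1) ≤ (if k = 2 then 5 / 2 else 2 : ℝ) := by
          split_ifs with h2
          · subst h2
            have h5 : √((2 : ℕ) : ℝ) ≤ 3 / 2 := by
              rw [Real.sqrt_le_left (by norm_num)]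
              norm_num
            norm_num at h5 ⊢
            linarith
          · have h3 : (3 : ℝ) ≤ k := by exact_mod_cast (by omega : 3 ≤ k)
            have h5 : √(k : ℝ) ≤ k - 1 := by
              rw [Real.sqrt_le_left (by linarith)]
              nlinarith
            have h6 : √(k : ℝ) / ((k : ℝ) - 1) ≤ 1 := by rwa [div_le_one hk1]
            linarith
        calc 1 + √(k : ℝ) / ((k : ℝ) - 1) ≤ (if k = 2 then 5 / 2 else 2 : ℝ) := h4
          _ = (if k = 2 then 5 / 2 else 2 : ℝ) * 1 := (mul_one _).symm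
          _ ≤ _ := by
              have : (0 : ℝ) ≤ (if k = 2 then 5 / 2 else 2 : ℝ) := by split_ifs <;> norm_num
              gcongr
      · rw [if_neg hd, if_neg (fun h => hd h.2), one_mul, abs_div, abs_neg, abs_one,
          abs_of_pos (by positivity), mul_one_div]
        exact he
    · rw [if_neg hp, if_neg (fun h => hp h.1), one_mul]
      apply Real.one_le_exp
      split_ifs <;> positivity
  have h2 : ∏ k ∈ range (Q + 1), (if k.Prime then 1 + Gs m k else 1)
      ≤ ∏ k ∈ range (Q + 1), (((if k.Prime ∧ k ∣ m then (if k = 2 then 5 / 2 else 2) else 1 : ℝ))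
        * Real.exp (if 2 ≤ k then 4 * (√(k : ℝ) * ((k : ℝ) ^ 2)⁻¹) else 0)) := by
    apply prod_le_prod
    · intro k _
      have : 0 ≤ Gs m k := by rw [Gs_apply]; positivity
      split_ifs <;> linarith
    · exact h1
  refine h2.trans ?_
  rw [prod_mul_distrib, ← Real.exp_sum]
  have h3 : ∑ k ∈ range (Q + 1), (if 2 ≤ k then 4 * (√(k : ℝ) * ((k : ℝ) ^ 2)⁻¹) else 0) ≤ 8 := by
    rw [← sum_filter, ← mul_sum]
    have h4 : (range (Q + 1)).filter (fun k => 2 ≤ k) = Ico (1 + 1) (Q + 1) := by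
      ext k
      rw [mem_filter, mem_range, mem_Ico]
      omega
    rw [h4]
    have h5 := sum_inv_three_half 1 (Q + 1) one_pos
    rw [Nat.cast_one, Real.sqrt_one] at h5
    linarith
  have h4 : ∏ k ∈ range (Q + 1), (if k.Prime ∧ k ∣ m then (if k = 2 then 5 / 2 else 2) else 1 : ℝ)
      ≤ 5 / 4 * (m.divisors.card : ℝ) := by
    have h5 : ∏ k ∈ range (Q + 1), (if k.Prime ∧ k ∣ m then (if k = 2 then 5 / 2 else 2) else 1 : ℝ)
        ≤ ∏ k ∈ range (Q + 1), ((if k = 2 then 5 / 4 else 1 : ℝ) * (if k.Prime ∧ k ∣ m then 2 else 1)) := by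
      apply prod_le_prod
      · intro k _
        split_ifs <;> norm_num
      · intro k _
        split_ifs <;> norm_num
    refine h5.trans ?_
    rw [prod_mul_distrib]
    have h6 : ∏ k ∈ range (Q + 1), (if k = 2 then 5 / 4 else 1 : ℝ) ≤ 5 / 4 := by
      rw [prod_ite_eq']
      split_ifs <;> norm_num
    have h7 : ∏ k ∈ range (Q + 1), (if k.Prime ∧ k ∣ m then 2 else 1 : ℝ) ≤ (m.divisors.card : ℝ) := by
      rw [← prod_filter, prod_const]
      have h8 : ((range (Q + 1)).filter (fun k => k.Prime ∧ k ∣ m)).card ≤ m.primeFactors.card := by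
        apply card_le_card
        intro k hk
        rw [mem_filter] at hk
        exact Nat.mem_primeFactors.mpr ⟨hk.2.1, hk.2.2, hm.ne'⟩
      have h9 : 2 ^ m.primeFactors.card ≤ m.divisors.card := by
        rw [Nat.card_divisors hm.ne', ← prod_const]
        apply prod_le_prod
        · intro _ _; norm_num
        · intro p hp
          have hp1 := Nat.prime_of_mem_primeFactors hp
          have : 1 ≤ m.factorization p :=
            (hp1.dvd_iff_one_le_factorization hm.ne').mp (Nat.dvd_of_mem_primeFactors hp)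
          omega
      calc (2 : ℝ) ^ ((range (Q + 1)).filter (fun k => k.Prime ∧ k ∣ m)).card
          ≤ 2 ^ m.primeFactors.card := pow_le_pow_right₀ (by norm_num) h8
        _ ≤ _ := by exact_mod_cast h9
    have h8 : 0 ≤ ∏ k ∈ range (Q + 1), (if k.Prime ∧ k ∣ m then 2 else 1 : ℝ) :=
      prod_nonneg fun k _ => by split_ifs <;> norm_num
    exact mul_le_mul h6 h7 h8 (by norm_num)
  have h5 : Real.exp (∑ k ∈ range (Q + 1), (if 2 ≤ k then 4 * (√(k : ℝ) * ((k : ℝ) ^ 2)⁻¹) else 0))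
      ≤ Real.exp 8 := Real.exp_le_exp.mpr h3
  calc _ ≤ (5 / 4 * (m.divisors.card : ℝ)) * Real.exp 8 := by
        apply mul_le_mul h4 h5 (Real.exp_pos _).le (by positivity)
    _ = _ := by ring

theorem sing_lower : SingLower := by
  refine ⟨5 / 4 * Real.exp 8, by positivity, ?_⟩
  intro Q hQ m hm hev
  have hQr : (1 : ℝ) ≤ Q := by exact_mod_cast hQ
  have hsQ : 0 < √(Q : ℝ) := Real.sqrt_pos.mpr (by linarith)
  have hsplit := sum_filter_add_sum_filter_not (primorial Q).divisors (fun d => d ≤ Q)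
    (fun d => Fs m d)
  have h1 : ∑ d ∈ (primorial Q).divisors.filter (fun d => d ≤ Q), Fs m d = sing Q m := by
    unfold sing
    have h2 : ∑ r ∈ Ioc 0 Q, ((μ r : ℝ) ^ 2 / (r.totient : ℝ) ^ 2) * (rsum m r : ℝ)
        = ∑ r ∈ Ioc 0 Q, Fs m r := rfl
    rw [h2]
    apply sum_subset
    · intro d hd
      rw [mem_filter] at hd
      rw [mem_Ioc]
      exact ⟨Nat.pos_of_mem_divisors hd.1, hd.2⟩
    · intro d hd hnot
      rw [mem_Ioc] at hd
      rw [Fs_apply, moebius_eq_zero_of_not_squarefree]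
      · simp
      · intro hsq
        apply hnot
        rw [mem_filter, Nat.mem_divisors]
        exact ⟨⟨(hsq.dvd_primorial).trans (primorial_dvd_primorial hd.2), primorial_ne_zero Q⟩, hd.2⟩
  have h2 : |∑ d ∈ (primorial Q).divisors.filter (fun d => ¬ d ≤ Q), Fs m d|
      ≤ 5 / 4 * Real.exp 8 * (m.divisors.card : ℝ) / √Q := by
    rw [le_div_iff₀ hsQ]
    calc |∑ d ∈ (primorial Q).divisors.filter (fun d => ¬ d ≤ Q), Fs m d| * √Q
        ≤ (∑ d ∈ (primorial Q).divisors.filter (fun d => ¬ d ≤ Q), |Fs m d|) * √Q := by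
          gcongr
          exact abs_sum_le_sum_abs _ _
      _ = ∑ d ∈ (primorial Q).divisors.filter (fun d => ¬ d ≤ Q), |Fs m d| * √Q := by rw [sum_mul]
      _ ≤ ∑ d ∈ (primorial Q).divisors.filter (fun d => ¬ d ≤ Q), Gs m d := by
          refine sum_le_sum fun d hd => ?_
          rw [mem_filter] at hd
          rw [Gs_apply, mul_comm]
          have : (Q : ℝ) ≤ d := by exact_mod_cast (not_le.mp hd.2).le
          gcongr
      _ ≤ ∑ d ∈ (primorial Q).divisors, Gs m d :=
          sum_le_sum_of_subset_of_nonneg (filter_subset _ _) fun d _ _ => by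
            rw [Gs_apply]; positivity
      _ ≤ _ := euler_bound m Q hm
  have h3 := full_ge m Q hev
  rw [← hsplit, h1] at h3
  have h4 := abs_le.mp h2
  linarith [h4.2]

end Pool.Agent.Circle
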