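import Pool.Agent.Work.Circle.Minor

/-!
The type II sum in Vaughan's identity and Vinogradov's bound.
-/

set_option autoImplicit false

namespace Pool.Agent.Circle

open Finset ArithmeticFunction
open scoped ArithmeticFunction.Moebius ArithmeticFunction.zeta

section
variable {α : ℝ} {q : ℕ} {a : ℤ}

/-- One dyadic block of the type II sum. -/
theorem typeII_block (hq : 0 < q) (hco : IsCoprime a (q : ℤ))
    (hα : |α - a / q| ≤ 1 / (q : ℝ) ^ 2) (N U V M : ℕ) (hqN : q ≤ N) (hM : 0 < M)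
    (hMN : M * V ≤ N) :
    ‖∑ m ∈ Ioc M (2 * M), (va U m : ℂ) * ∑ n ∈ Ioc V (N / m), (Λ n : ℂ) * e ((m * n : ℕ) * α)‖ ^ 2
      ≤ 96 * N * ((N : ℝ) / q + (N : ℝ) / M + M + q) * (1 + Real.log N) ^ 6 := by
  have hN1 : 1 ≤ N := by omega
  have hN1' : (1 : ℝ) ≤ N := by exact_mod_cast hN1
  have hlog : 0 ≤ Real.log N := Real.log_nonneg hN1'
  set L := 1 + Real.log N with hL
  have hL1 : 1 ≤ L := by linarith
  have hq1 : (1 : ℝ) ≤ q := by exact_mod_cast hq
  have hq0 : (0 : ℝ) < q := by linarith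
  have hM1 : (1 : ℝ) ≤ M := by exact_mod_cast hM
  have hM0 : (0 : ℝ) < M := by linarith
  have hqN' : (q : ℝ) ≤ N := by exact_mod_cast hqN
  set R := N / M with hR
  by_cases hR0 : R = 0
  · -- then all inner sums are empty
    have : ∑ m ∈ Ioc M (2 * M), (va U m : ℂ) *
        ∑ n ∈ Ioc V (N / m), (Λ n : ℂ) * e ((m * n : ℕ) * α) = 0 := by
      refine sum_eq_zero fun m hm => ?_
      rw [mem_Ioc] at hm
      have h1 : N / m ≤ N / M := Nat.div_le_div_left hm.1.le hM
      rw [Ioc_eq_empty (by omega), sum_empty, mul_zero]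
    rw [this]
    simp only [norm_zero, ne_eq, OfNat.ofNat_ne_zero, not_false_eq_true, zero_pow]
    positivity
  have hR1 : 1 ≤ R := Nat.pos_of_ne_zero hR0
  have hMleN : M ≤ N := by
    by_contra h
    exact hR0 (Nat.div_eq_of_lt (by omega))
  have hMleN' : (M : ℝ) ≤ N := by exact_mod_cast hMleN
  -- rewrite the inner sums
  have h1 : ∀ m ∈ Ioc M (2 * M), ∑ n ∈ Ioc V (N / m), (Λ n : ℂ) * e ((m * n : ℕ) * α)
      = ∑ n ∈ (Ioc V R).filter (fun n => m ≤ N / n), (Λ n : ℂ) * e ((m * n : ℕ) * α) := by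
    intro m hm
    rw [mem_Ioc] at hm
    refine sum_congr ?_ fun _ _ => rfl
    ext n
    simp only [mem_Ioc, mem_filter]
    constructor
    · rintro ⟨h2, h3⟩
      have hn : 0 < n := by omega
      have h4 : n * m ≤ N := (Nat.le_div_iff_mul_le (by omega)).mp h3
      refine ⟨⟨h2, h3.trans (Nat.div_le_div_left hm.1.le hM)⟩, ?_⟩
      rw [Nat.le_div_iff_mul_le hn]
      nlinarith
    · rintro ⟨⟨h2, h3⟩, h4⟩
      have hn : 0 < n := by omega
      refine ⟨h2, ?_⟩
      rw [Nat.le_div_iff_mul_le (by omega)]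
      have := (Nat.le_div_iff_mul_le hn).mp h4
      nlinarith
  rw [sum_congr rfl fun m hm => by rw [h1 m hm]]
  -- Cauchy-Schwarz
  have hCS : ‖∑ m ∈ Ioc M (2 * M), (va U m : ℂ) *
      ∑ n ∈ (Ioc V R).filter (fun n => m ≤ N / n), (Λ n : ℂ) * e ((m * n : ℕ) * α)‖ ^ 2
      ≤ (∑ m ∈ Ioc M (2 * M), |va U m| ^ 2) * ∑ m ∈ Ioc M (2 * M),
        ‖∑ n ∈ (Ioc V R).filter (fun n => m ≤ N / n), (Λ n : ℂ) * e ((m * n : ℕ) * α)‖ ^ 2 := by
    refine le_trans ?_ (sum_mul_sq_le_sq_mul_sq _ _ _)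
    gcongr
    refine (norm_sum_le _ _).trans (sum_le_sum fun m _ => ?_)
    rw [norm_mul, Complex.norm_real, Real.norm_eq_abs]
  refine hCS.trans ?_
  have hA : ∑ m ∈ Ioc M (2 * M), |va U m| ^ 2 ≤ 2 * M * (8 * L ^ 3) := by
    calc _ ≤ ∑ m ∈ Ioc 0 (2 * M), (m.divisors.card : ℝ) ^ 2 := by
          refine le_trans (sum_le_sum fun m _ => ?_) (sum_le_sum_of_subset_of_nonneg
            (Ioc_subset_Ioc_left (Nat.zero_le M)) fun m _ _ => sq_nonneg _)
          exact pow_le_pow_left₀ (abs_nonneg _) (abs_va_le U m) 2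
      _ ≤ ((2 * M : ℕ) : ℝ) * (1 + Real.log ((2 * M : ℕ) : ℝ)) ^ 3 := sum_divisors_sq_le _
      _ ≤ 2 * M * (2 * L) ^ 3 := by
          push_cast
          have h2 : 0 ≤ Real.log (2 * (M : ℝ)) := Real.log_nonneg (by linarith)
          have : Real.log (2 * (M : ℝ)) ≤ 1 + Real.log N := by
            rw [Real.log_mul (by norm_num) hM0.ne']
            have := Real.log_le_log hM0 hMleN'
            linarith [Real.log_two_lt_d9]
          have h3 : 1 + Real.log (2 * (M : ℝ)) ≤ 2 * L := by linarith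
          have h4 : 0 ≤ 1 + Real.log (2 * (M : ℝ)) := by linarith
          exact mul_le_mul_of_nonneg_left (pow_le_pow_left₀ h4 h3 3) (by positivity)
      _ = _ := by ring
  have hB := bilinear_sq hq hco hα (fun n => Λ n) L (fun n => N / n) V R M (by
    intro n hn
    rw [mem_Ioc] at hn
    rw [abs_of_nonneg vonMangoldt_nonneg]
    refine vonMangoldt_le_log.trans ?_
    have hn0 : (0 : ℝ) < n := by
      have : 0 < n := by omega
      exact_mod_cast this
    have : Real.log n ≤ Real.log N := by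
      apply Real.log_le_log hn0
      exact_mod_cast hn.2.trans (Nat.div_le_self _ _)
    linarith)
  have hlogq : Real.log q ≤ Real.log N := Real.log_le_log hq0 hqN'
  have hlogq0 : 0 ≤ Real.log q := Real.log_nonneg hq1
  have hRM : (R : ℝ) * M ≤ N := by
    have := Nat.div_mul_le_self N M
    exact_mod_cast this
  have hRM' : (R : ℝ) ≤ (N : ℝ) / M := by
    rw [le_div_iff₀ hM0]; exact hRM
  have hR0' : (0 : ℝ) ≤ R := Nat.cast_nonneg R
  have hR1' : (1 : ℝ) ≤ R := by exact_mod_cast hR1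
  calc _ ≤ (2 * M * (8 * L ^ 3)) * (L ^ 2 * R * ((R : ℝ) / q + 1)
        * (6 * M + 3 * q * (1 + Real.log q))) := by
        apply mul_le_mul hA hB (sum_nonneg fun _ _ => sq_nonneg _) (by positivity)
    _ ≤ (2 * M * (8 * L ^ 3)) * (L ^ 2 * R * ((R : ℝ) / q + 1) * (6 * M * L + 3 * q * L)) := by
        have g1 : 6 * (M : ℝ) ≤ 6 * M * L := le_mul_of_one_le_right (by positivity) hL1
        have g2 : 3 * (q : ℝ) * (1 + Real.log q) ≤ 3 * q * L := by
          apply mul_le_mul_of_nonneg_left _ (by positivity)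
          linarith
        apply mul_le_mul_of_nonneg_left _ (by positivity)
        apply mul_le_mul_of_nonneg_left _ (by positivity)
        linarith
    _ = 16 * L ^ 6 * ((M * R) * (6 * (R * M) / q + 3 * R + 6 * M + 3 * q)) := by
        field_simp
        ring
    _ ≤ 16 * L ^ 6 * (N * (6 * N / q + 3 * (N / M) + 6 * M + 3 * q)) := by
        have : (M : ℝ) * R ≤ N := by linarith
        gcongr
    _ ≤ _ := by
        have h5 : 0 ≤ (N : ℝ) / q := by positivity
        have h6 : 0 ≤ (N : ℝ) / M := by positivity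
        have h7 : 6 * (N : ℝ) / q = 6 * ((N : ℝ) / q) := by ring
        rw [h7]
        have : N * (6 * ((N : ℝ) / q) + 3 * (N / M) + 6 * M + 3 * q)
            ≤ N * (6 * ((N : ℝ) / q + N / M + M + q)) := by
          gcongr
          linarith
        calc _ ≤ 16 * L ^ 6 * (N * (6 * ((N : ℝ) / q + N / M + M + q))) := by gcongr
          _ = _ := by ring

theorem sum_Ioc_dyadic (f : ℕ → ℂ) (U J : ℕ) :
    ∑ m ∈ Ioc U (U * 2 ^ J), f m
      = ∑ j ∈ range J, ∑ m ∈ Ioc (U * 2 ^ j) (2 * (U * 2 ^ j)), f m := by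
  induction J with
  | zero => simp
  | succ J ih =>
    have h1 : Ioc U (U * 2 ^ (J + 1)) = Ioc U (U * 2 ^ J)
        ∪ Ioc (U * 2 ^ J) (2 * (U * 2 ^ J)) := by
      rw [Ioc_union_Ioc_eq_Ioc (Nat.le_mul_of_pos_right _ (by positivity)) (by omega)]
      congr 1
      ring
    rw [h1, sum_union (Ioc_disjoint_Ioc_of_le le_rfl), ih, sum_range_succ]

theorem sqrt_add_le4 (x y z w : ℝ) (hx : 0 ≤ x) (hy : 0 ≤ y) (hz : 0 ≤ z) (hw : 0 ≤ w) :
    √(x + y + z + w) ≤ √x + √y + √z + √w := by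
  refine (Real.sqrt_le_left (by positivity)).mpr ?_
  have h1 := Real.sq_sqrt hx
  have h2 := Real.sq_sqrt hy
  have h3 := Real.sq_sqrt hz
  have h4 := Real.sq_sqrt hw
  have := Real.sqrt_nonneg x
  have := Real.sqrt_nonneg y
  have := Real.sqrt_nonneg z
  have := Real.sqrt_nonneg w
  nlinarith [mul_nonneg (Real.sqrt_nonneg x) (Real.sqrt_nonneg y),
    mul_nonneg (Real.sqrt_nonneg x) (Real.sqrt_nonneg z),
    mul_nonneg (Real.sqrt_nonneg x) (Real.sqrt_nonneg w),
    mul_nonneg (Real.sqrt_nonneg y) (Real.sqrt_nonneg z),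
    mul_nonneg (Real.sqrt_nonneg y) (Real.sqrt_nonneg w),
    mul_nonneg (Real.sqrt_nonneg z) (Real.sqrt_nonneg w)]

theorem typeII (hq : 0 < q) (hco : IsCoprime a (q : ℤ))
    (hα : |α - a / q| ≤ 1 / (q : ℝ) ^ 2) (N U V : ℕ) (hqN : q ≤ N) (hU : 0 < U) (hV : 0 < V)
    (hVN : V ≤ N) :
    ‖∑ m ∈ Ioc U N, (va U m : ℂ) * ∑ n ∈ Ioc V (N / m), (Λ n : ℂ) * e ((m * n : ℕ) * α)‖
      ≤ 20 * ((N : ℝ) / √q + N / √U + N / √V + √(N * q)) * (1 + Real.log N) ^ 4 := by
  have hN1 : 1 ≤ N := by omega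
  have hN1' : (1 : ℝ) ≤ N := by exact_mod_cast hN1
  have hN0 : (0 : ℝ) < N := by linarith
  have hlog : 0 ≤ Real.log N := Real.log_nonneg hN1'
  set L := 1 + Real.log N with hL
  have hL1 : 1 ≤ L := by linarith
  have hq1 : (1 : ℝ) ≤ q := by exact_mod_cast hq
  have hq0 : (0 : ℝ) < q := by linarith
  have hU0 : (0 : ℝ) < U := by exact_mod_cast hU
  have hV0 : (0 : ℝ) < V := by exact_mod_cast hV
  set f : ℕ → ℂ := fun m => (va U m : ℂ) *
    ∑ n ∈ Ioc V (N / m), (Λ n : ℂ) * e ((m * n : ℕ) * α) with hf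
  set J := Nat.log 2 N + 1 with hJ
  have hNJ : N < 2 ^ J := Nat.lt_pow_succ_log_self (by norm_num) N
  -- terms with m * V ≥ N vanish
  have hvan : ∀ m, N ≤ m * V → 0 < m → f m = 0 := by
    intro m hm hm0
    simp only [hf]
    rw [Ioc_eq_empty, sum_empty, mul_zero]
    intro h
    have : N / m ≤ V := by
      apply Nat.div_le_of_le_mul
      exact hm
    omega
  have hcov : ∑ m ∈ Ioc U N, f m = ∑ m ∈ Ioc U (U * 2 ^ J), f m := by
    apply sum_subset
    · apply Ioc_subset_Ioc_right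
      nlinarith
    · intro m hm hm'
      simp only [mem_Ioc, not_and, not_le] at hm hm'
      apply hvan m
      · have := hm' hm.1
        nlinarith
      · omega
  rw [hcov, sum_Ioc_dyadic]
  set B := (N : ℝ) / √q + N / √U + N / √V + √(N * q) with hB
  have hB0 : 0 ≤ B := by positivity
  have hblock : ∀ j ∈ range J, ‖∑ m ∈ Ioc (U * 2 ^ j) (2 * (U * 2 ^ j)), f m‖ ≤ 10 * B * L ^ 3 := by
    intro j _
    set M := U * 2 ^ j with hM
    have hMpos : 0 < M := by positivity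
    have hMU : U ≤ M := Nat.le_mul_of_pos_right _ (by positivity)
    by_cases hMV : M * V ≤ N
    · have h1 := typeII_block hq hco hα N U V M hqN hMpos hMV
      have hM0 : (0 : ℝ) < M := by exact_mod_cast hMpos
      have h2 : ‖∑ m ∈ Ioc M (2 * M), f m‖ ≤ √(96 * N * ((N : ℝ) / q + (N : ℝ) / M + M + q)
          * L ^ 6) := Real.le_sqrt_of_sq_le h1
      refine h2.trans ?_
      have h3 : 96 * N * ((N : ℝ) / q + (N : ℝ) / M + M + q) * L ^ 6
          = (96 * (L ^ 3) ^ 2) * (N * ((N : ℝ) / q + (N : ℝ) / M + M + q)) := by ring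
      rw [h3, Real.sqrt_mul (by positivity), Real.sqrt_mul (by norm_num : (0:ℝ) ≤ 96),
        Real.sqrt_sq (by positivity)]
      have h4 : √(96 : ℝ) ≤ 10 := by
        rw [Real.sqrt_le_left (by norm_num)]
        norm_num
      have h5 : √(N * ((N : ℝ) / q + (N : ℝ) / M + M + q)) ≤ B := by
        have e1 : N * ((N : ℝ) / q + (N : ℝ) / M + M + q)
            = (N : ℝ) ^ 2 / q + (N : ℝ) ^ 2 / M + N * M + N * q := by
          field_simp
        rw [e1]
        refine (sqrt_add_le4 _ _ _ _ (by positivity) (by positivity) (by positivity)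
          (by positivity)).trans ?_
        have e2 : √((N : ℝ) ^ 2 / q) = N / √q := by
          rw [Real.sqrt_div (by positivity), Real.sqrt_sq hN0.le]
        have e3 : √((N : ℝ) ^ 2 / M) ≤ N / √U := by
          rw [Real.sqrt_div (by positivity), Real.sqrt_sq hN0.le]
          gcongr
        have e4 : √((N : ℝ) * M) ≤ N / √V := by
          rw [← Real.sqrt_sq hN0.le, ← Real.sqrt_div (by positivity)]
          apply Real.sqrt_le_sqrt
          rw [Real.sqrt_sq hN0.le, le_div_iff₀ hV0]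
          have : (M : ℝ) * V ≤ N := by exact_mod_cast hMV
          nlinarith
        rw [e2, hB]
        linarith
      calc _ ≤ 10 * L ^ 3 * B := by gcongr
        _ = _ := by ring
    · have : ∑ m ∈ Ioc M (2 * M), f m = 0 := by
        refine sum_eq_zero fun m hm => ?_
        rw [mem_Ioc] at hm
        apply hvan m _ (by omega)
        have : M * V ≤ m * V := Nat.mul_le_mul_right _ hm.1.le
        omega
      rw [this, norm_zero]
      positivity
  refine (norm_sum_le _ _).trans ((sum_le_sum hblock).trans ?_)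
  rw [sum_const, card_range, nsmul_eq_mul]
  have hJL : (J : ℝ) ≤ 2 * L := by
    have h1 : (Nat.log 2 N : ℝ) ≤ Real.log N / Real.log 2 := by
      have h2 : 2 ^ Nat.log 2 N ≤ N := Nat.pow_log_le_self 2 (by omega)
      have h3 : ((2 : ℝ) ^ Nat.log 2 N) ≤ N := by exact_mod_cast h2
      have h4 := Real.log_le_log (by positivity) h3
      rw [Real.log_pow] at h4
      rw [le_div_iff₀ (Real.log_pos (by norm_num))]
      exact h4
    have h2 : Real.log N / Real.log 2 ≤ 2 * Real.log N := by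
      rw [div_le_iff₀ (Real.log_pos (by norm_num))]
      nlinarith [Real.log_two_gt_d9]
    rw [hJ]
    push_cast
    linarith
  calc (J : ℝ) * (10 * B * L ^ 3) ≤ (2 * L) * (10 * B * L ^ 3) := by gcongr
    _ = _ := by ring

/-- Vinogradov's bound, with free parameters `U`, `V`. -/
theorem vinogradov_UV (hq : 0 < q) (hco : IsCoprime a (q : ℤ))
    (hα : |α - a / q| ≤ 1 / (q : ℝ) ^ 2) (N U V : ℕ) (hqN : q ≤ N) (hU : 0 < U) (hV : 0 < V)
    (hUV : U * V ≤ N) :
    ‖∑ n ∈ Ioc 0 N, (Λ n : ℂ) * e (n * α)‖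
      ≤ 120 * ((N : ℝ) / √q + N / √U + N / √V + (U * V : ℕ) + √(N * q)) * (1 + Real.log N) ^ 4 := by
  have hVN : V ≤ N := (Nat.le_mul_of_pos_left V hU).trans hUV
  have hUN : U ≤ N := (Nat.le_mul_of_pos_right U hV).trans hUV
  have hN1 : 1 ≤ N := by omega
  have hN1' : (1 : ℝ) ≤ N := by exact_mod_cast hN1
  have hN0 : (0 : ℝ) < N := by linarith
  have hlog : 0 ≤ Real.log N := Real.log_nonneg hN1'
  have hq1 : (1 : ℝ) ≤ q := by exact_mod_cast hq
  have hq0 : (0 : ℝ) < q := by linarith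
  have hU1 : (1 : ℝ) ≤ U := by exact_mod_cast hU
  have hV1 : (1 : ℝ) ≤ V := by exact_mod_cast hV
  have hqN' : (q : ℝ) ≤ N := by exact_mod_cast hqN
  have h0 := vaughan_sum (fun n => e (n * α)) U V N hVN hUV hUN
  rw [h0]
  have h1 := typeI_log hq hco hα N U hqN hUN
  have h2 := typeI_vc hq hco hα N U V hqN hUV
  have h3 := typeII hq hco hα N U V hqN hU hV hVN
  have h4 : ‖∑ n ∈ Ioc 0 V, (Λ n : ℂ) * e (n * α)‖ ≤ V * (1 + Real.log N) := by
    refine (norm_sum_le _ _).trans ?_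
    have : ∀ n ∈ Ioc 0 V, ‖(Λ n : ℂ) * e (n * α)‖ ≤ 1 + Real.log N := by
      intro n hn
      rw [mem_Ioc] at hn
      rw [norm_mul, norm_e, mul_one, Complex.norm_real, Real.norm_eq_abs,
        abs_of_nonneg vonMangoldt_nonneg]
      refine vonMangoldt_le_log.trans ?_
      have hn0 : (0 : ℝ) < n := by exact_mod_cast hn.1
      have : Real.log n ≤ Real.log N := by
        apply Real.log_le_log hn0
        exact_mod_cast hn.2.trans hVN
      linarith
    refine (sum_le_sum this).trans (le_of_eq ?_)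
    rw [sum_const, Nat.card_Ioc, nsmul_eq_mul, Nat.sub_zero]
  set L := 1 + Real.log N with hL
  have hL1 : 1 ≤ L := by linarith
  have hL2 : L ^ 2 ≤ L ^ 4 := pow_le_pow_right₀ hL1 (by norm_num)
  have hL3 : L ≤ L ^ 4 := by
    calc L = L ^ 1 := (pow_one L).symm
      _ ≤ L ^ 4 := pow_le_pow_right₀ hL1 (by norm_num)
  have e1 : (N : ℝ) / q ≤ N / √q := by
    have : √(q : ℝ) ≤ q := by
      rw [Real.sqrt_le_left hq0.le]
      nlinarith
    gcongr
  have e2 : (q : ℝ) ≤ √(N * q) := by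
    apply Real.le_sqrt_of_sq_le
    nlinarith
  have e3 : (U : ℝ) ≤ (U * V : ℕ) := by push_cast; nlinarith
  have e4 : (V : ℝ) ≤ (U * V : ℕ) := by push_cast; nlinarith
  have p1 : 0 ≤ (N : ℝ) / √q := by positivity
  have p2 : 0 ≤ (N : ℝ) / √U := by positivity
  have p3 : 0 ≤ (N : ℝ) / √V := by positivity
  have p4 : 0 ≤ √((N : ℝ) * q) := by positivity
  have p5 : 0 ≤ ((U * V : ℕ) : ℝ) := by positivity
  have f1 : 24 * ((N : ℝ) / q + U + q) * L ^ 2
      ≤ 24 * ((N : ℝ) / √q + (U * V : ℕ) + √(N * q)) * L ^ 4 := by gcongr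
  have f2 : 24 * ((N : ℝ) / q + (U * V : ℕ) + q) * L ^ 2
      ≤ 24 * ((N : ℝ) / √q + (U * V : ℕ) + √(N * q)) * L ^ 4 := by gcongr
  have f4 : (V : ℝ) * L ≤ (U * V : ℕ) * L ^ 4 := by gcongr
  have hL4 : 0 ≤ L ^ 4 := by positivity
  refine (norm_add_le _ _).trans ?_
  refine (add_le_add_left (norm_sub_le _ _) _).trans ?_
  refine (add_le_add_left (add_le_add_left (norm_add_le _ _) _) _).trans ?_
  calc _ ≤ V * L + 24 * ((N : ℝ) / q + U + q) * L ^ 2
        + 24 * ((N : ℝ) / q + (U * V : ℕ) + q) * L ^ 2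
        + 20 * ((N : ℝ) / √q + N / √U + N / √V + √(N * q)) * L ^ 4 := by
        gcongr
    _ ≤ (U * V : ℕ) * L ^ 4 + 24 * ((N : ℝ) / √q + (U * V : ℕ) + √(N * q)) * L ^ 4
        + 24 * ((N : ℝ) / √q + (U * V : ℕ) + √(N * q)) * L ^ 4
        + 20 * ((N : ℝ) / √q + N / √U + N / √V + √(N * q)) * L ^ 4 := by
        gcongr
    _ = (68 * ((N : ℝ) / √q) + 20 * (N / √U) + 20 * (N / √V) + 49 * (U * V : ℕ)
        + 68 * √(N * q)) * L ^ 4 := by ring
    _ ≤ (120 * ((N : ℝ) / √q + N / √U + N / √V + (U * V : ℕ) + √(N * q))) * L ^ 4 := by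
        apply mul_le_mul_of_nonneg_right _ hL4
        linarith

end

end Pool.Agent.Circle
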