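import Pool.Agent.Work.Circle.LamQ
import Pool.Agent.Work.Circle.TypeII

/-!
Parseval's identity for sampled exponential sums, the mean square bound for convolutions, and the
bounds on minor and major arcs.
-/

set_option autoImplicit false

namespace Pool.Agent.Circle

open Finset ArithmeticFunction Pool.Agent.SW
open scoped ArithmeticFunction.Moebius

theorem parseval (R : ℕ) (hR : 0 < R) (S : Finset ℕ) (hS : ∀ a ∈ S, a < R) (f : ℕ → ℂ) :
    ∑ k ∈ range R, ‖∑ a ∈ S, f a * e (a * ((k : ℝ) / R))‖ ^ 2 = R * ∑ a ∈ S, ‖f a‖ ^ 2 := by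
  have hR0 : (R : ℝ) ≠ 0 := by exact_mod_cast hR.ne'
  have h1 : ((∑ k ∈ range R, ‖∑ a ∈ S, f a * e (a * ((k : ℝ) / R))‖ ^ 2 : ℝ) : ℂ)
      = ((R * ∑ a ∈ S, ‖f a‖ ^ 2 : ℝ) : ℂ) := by
    push_cast
    have h2 : ∀ k ∈ range R, ((‖∑ a ∈ S, f a * e (a * ((k : ℝ) / R))‖ : ℂ)) ^ 2
        = ∑ a ∈ S, ∑ b ∈ S, f a * (starRingEnd ℂ) (f b)
          * e (k * ((((a : ℤ) - b : ℤ) : ℝ) / R)) := by
      intro k _
      rw [← Complex.mul_conj', map_sum, sum_mul_sum]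
      refine sum_congr rfl fun a _ => sum_congr rfl fun b _ => ?_
      have h3 : (k : ℝ) * ((((a : ℤ) - b : ℤ) : ℝ) / R) = a * ((k : ℝ) / R) + -(b * ((k : ℝ) / R)) := by
        push_cast
        ring
      rw [map_mul, conj_e, h3, e_add]
      ring
    rw [sum_congr rfl h2, sum_comm, mul_sum]
    refine sum_congr rfl fun a ha => ?_
    rw [sum_comm]
    have h3 : ∀ b ∈ S, ∑ k ∈ range R, f a * (starRingEnd ℂ) (f b)
          * e (k * ((((a : ℤ) - b : ℤ) : ℝ) / R)) = if a = b then (R : ℂ) * (‖f a‖ : ℂ) ^ 2 else 0 := by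
      intro b hb
      rw [← mul_sum, full_sum R hR]
      by_cases hab : a = b
      · subst hab
        rw [if_pos (by simp), if_pos rfl, ← Complex.mul_conj']
        ring
      · rw [if_neg hab, if_neg, mul_zero]
        intro hdvd
        apply hab
        have h4 : ((a : ℤ) - b) = 0 := by
          apply Int.eq_zero_of_abs_lt_dvd hdvd
          rw [abs_lt]
          have := hS a ha
          have := hS b hb
          constructor <;> omega
        omega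
    rw [sum_congr rfl h3, sum_ite_eq, if_pos ha]
  exact_mod_cast h1

/-- Mean square of a convolution. -/
theorem circle_ineq (R : ℕ) (hR : 0 < R) (S T : Finset ℕ) (hS : ∀ a ∈ S, a < R)
    (hT : ∀ b ∈ T, b < R) (hST : ∀ a ∈ S, ∀ b ∈ T, a + b < R) (f h : ℕ → ℂ) (U V : ℝ)
    (hUV : ∀ k ∈ range R, ‖∑ a ∈ S, f a * e (a * ((k : ℝ) / R))‖ ≤ U ∨
      ‖∑ b ∈ T, h b * e (b * ((k : ℝ) / R))‖ ≤ V) :
    ∑ m ∈ range R, ‖∑ a ∈ S, ∑ b ∈ T, if a + b = m then f a * h b else 0‖ ^ 2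
      ≤ U ^ 2 * ∑ b ∈ T, ‖h b‖ ^ 2 + V ^ 2 * ∑ a ∈ S, ‖f a‖ ^ 2 := by
  have hR0 : (0 : ℝ) < R := by exact_mod_cast hR
  set E : ℕ → ℂ := fun m => ∑ a ∈ S, ∑ b ∈ T, if a + b = m then f a * h b else 0 with hE
  have h1 := parseval R hR (range R) (fun a ha => mem_range.mp ha) E
  have h2 := parseval R hR S hS f
  have h3 := parseval R hR T hT h
  have h4 : ∀ k ∈ range R, ∑ m ∈ range R, E m * e (m * ((k : ℝ) / R))
      = (∑ a ∈ S, f a * e (a * ((k : ℝ) / R))) * ∑ b ∈ T, h b * e (b * ((k : ℝ) / R)) := by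
    intro k _
    rw [hE, sum_mul_sum]
    simp_rw [sum_mul]
    rw [sum_comm]
    refine sum_congr rfl fun a ha => ?_
    rw [sum_comm]
    refine sum_congr rfl fun b hb => ?_
    have h5 : ∀ m ∈ range R, (if a + b = m then f a * h b else 0) * e (m * ((k : ℝ) / R))
        = if a + b = m then f a * h b * e (m * ((k : ℝ) / R)) else 0 := fun m _ => by
      split_ifs <;> simp
    rw [sum_congr rfl h5, sum_ite_eq, if_pos (mem_range.mpr (hST a ha b hb))]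
    have h6 : ((a + b : ℕ) : ℝ) * ((k : ℝ) / R) = a * ((k : ℝ) / R) + b * ((k : ℝ) / R) := by
      push_cast; ring
    rw [h6, e_add]
    ring
  have h5 : ∑ k ∈ range R, ‖∑ m ∈ range R, E m * e (m * ((k : ℝ) / R))‖ ^ 2
      ≤ ∑ k ∈ range R, (U ^ 2 * ‖∑ b ∈ T, h b * e (b * ((k : ℝ) / R))‖ ^ 2
        + V ^ 2 * ‖∑ a ∈ S, f a * e (a * ((k : ℝ) / R))‖ ^ 2) := by
    refine sum_le_sum fun k hk => ?_
    rw [h4 k hk, norm_mul, mul_pow]
    set x := ‖∑ a ∈ S, f a * e (a * ((k : ℝ) / R))‖ with hx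
    set y := ‖∑ b ∈ T, h b * e (b * ((k : ℝ) / R))‖ with hy
    have hx0 : 0 ≤ x := norm_nonneg _
    have hy0 : 0 ≤ y := norm_nonneg _
    rcases hUV k hk with hc | hc
    · have e1 : x ^ 2 ≤ U ^ 2 := pow_le_pow_left₀ hx0 hc 2
      have e2 : 0 ≤ V ^ 2 * x ^ 2 := by positivity
      have e3 : x ^ 2 * y ^ 2 ≤ U ^ 2 * y ^ 2 := mul_le_mul_of_nonneg_right e1 (by positivity)
      linarith
    · have e1 : y ^ 2 ≤ V ^ 2 := pow_le_pow_left₀ hy0 hc 2
      have e2 : 0 ≤ U ^ 2 * y ^ 2 := by positivity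
      have e3 : x ^ 2 * y ^ 2 ≤ x ^ 2 * V ^ 2 := mul_le_mul_of_nonneg_left e1 (by positivity)
      linarith
  rw [h1, sum_add_distrib, ← mul_sum, ← mul_sum, h2, h3] at h5
  have h6 : (R : ℝ) * ∑ m ∈ range R, ‖E m‖ ^ 2
      ≤ R * (U ^ 2 * ∑ b ∈ T, ‖h b‖ ^ 2 + V ^ 2 * ∑ a ∈ S, ‖f a‖ ^ 2) := by
    refine h5.trans (le_of_eq ?_)
    ring
  exact le_of_mul_le_mul_left h6 hR0

/-- Vinogradov's bound with one parameter. -/
theorem vin_P (N P q : ℕ) (a : ℤ) (α : ℝ) (hP : 1 ≤ P) (hPN : P ^ 3 ≤ N) (hPq : P ≤ q)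
    (hqN : q * P ≤ N) (hco : IsCoprime a (q : ℤ)) (hα : |α - a / q| ≤ 1 / (q : ℝ) ^ 2)
    (K : ℕ) (hK : K ≤ N) :
    ‖∑ n ∈ Ioc 0 K, (Λ n : ℂ) * e (n * α)‖ ≤ 600 * (N / √P) * (1 + Real.log N) ^ 4 := by
  have hP3 : 1 ≤ P ^ 3 := Nat.one_le_pow _ _ hP
  have hN : 1 ≤ N := hP3.trans hPN
  have hN1 : (1 : ℝ) ≤ N := by exact_mod_cast hN
  have hP1 : (1 : ℝ) ≤ P := by exact_mod_cast hP
  have hq0 : 0 < q := by omega
  have hqr : (1 : ℝ) ≤ q := by exact_mod_cast hq0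
  have hPqr : (P : ℝ) ≤ q := by exact_mod_cast hPq
  have hlog : 0 ≤ Real.log N := Real.log_nonneg hN1
  have hsP : 0 < √(P : ℝ) := Real.sqrt_pos.mpr (by linarith)
  have hsP1 : 1 ≤ √(P : ℝ) := by rw [Real.one_le_sqrt]; exact hP1
  have hsPP : √(P : ℝ) * √P = P := Real.mul_self_sqrt (by linarith)
  have hsPle : √(P : ℝ) ≤ P := by nlinarith
  have hqN' : (q : ℝ) * P ≤ N := by exact_mod_cast hqN
  have hPN' : (P : ℝ) ^ 3 ≤ N := by exact_mod_cast hPN
  have hW : 0 ≤ (N : ℝ) / √P := by positivity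
  have hl4 : Real.log N ≤ (1 + Real.log N) ^ 4 := by
    have h1 : 1 + Real.log N ≤ (1 + Real.log N) ^ 4 := by
      calc 1 + Real.log N = (1 + Real.log N) ^ 1 := (pow_one _).symm
        _ ≤ (1 + Real.log N) ^ 4 := pow_le_pow_right₀ (by linarith) (by norm_num)
    linarith
  -- the trivial bound when `K ≤ N/√P`
  have htriv : (K : ℝ) ≤ N / √P →
      ‖∑ n ∈ Ioc 0 K, (Λ n : ℂ) * e (n * α)‖ ≤ 600 * (N / √P) * (1 + Real.log N) ^ 4 := by
    intro h
    calc ‖∑ n ∈ Ioc 0 K, (Λ n : ℂ) * e (n * α)‖ ≤ K * Real.log N :=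
          norm_sum_lam_e_le K N hN1 (by exact_mod_cast hK) α
      _ ≤ (N / √P) * (1 + Real.log N) ^ 4 := by gcongr
      _ = 1 * (N / √P) * (1 + Real.log N) ^ 4 := by ring
      _ ≤ 600 * (N / √P) * (1 + Real.log N) ^ 4 := by
          gcongr
          norm_num
  by_cases h1 : K < q
  · apply htriv
    have h2 : (K : ℝ) ≤ q := by exact_mod_cast h1.le
    rw [le_div_iff₀ hsP]
    calc (K : ℝ) * √P ≤ q * P := by gcongr
      _ ≤ N := hqN'
  by_cases h2 : K < P ^ 2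
  · apply htriv
    have h3 : (K : ℝ) ≤ (P : ℝ) ^ 2 := by exact_mod_cast h2.le
    rw [le_div_iff₀ hsP]
    calc (K : ℝ) * √P ≤ (P : ℝ) ^ 2 * P := by gcongr
      _ = (P : ℝ) ^ 3 := by ring
      _ ≤ N := hPN'
  push Not at h1 h2
  have h := vinogradov_UV (a := a) (α := α) hq0 hco hα K P P h1 hP hP (by rw [← sq]; exact h2)
  refine h.trans ?_
  have hKN : (K : ℝ) ≤ N := by exact_mod_cast hK
  have hK1 : (1 : ℝ) ≤ K := by
    have : 1 ≤ K := by omega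
    exact_mod_cast this
  have hlogK : 0 ≤ Real.log K := Real.log_nonneg hK1
  have e1 : (K : ℝ) / √q ≤ N / √P := by
    have : √(P : ℝ) ≤ √q := Real.sqrt_le_sqrt hPqr
    gcongr
  have e2 : (K : ℝ) / √P ≤ N / √P := by gcongr
  have e3 : ((P * P : ℕ) : ℝ) ≤ N / √P := by
    rw [le_div_iff₀ hsP]
    push_cast
    calc (P : ℝ) * P * √P ≤ (P : ℝ) * P * P := by gcongr
      _ = (P : ℝ) ^ 3 := by ring
      _ ≤ N := hPN'
  have e4 : √((K : ℝ) * q) ≤ N / √P := by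
    rw [Real.sqrt_le_left hW, div_pow, Real.sq_sqrt (by linarith), le_div_iff₀ (by linarith)]
    calc (K : ℝ) * q * P = K * (q * P) := by ring
      _ ≤ N * N := by gcongr
      _ = (N : ℝ) ^ 2 := by ring
  calc 120 * ((K : ℝ) / √q + K / √P + K / √P + (P * P : ℕ) + √(K * q)) * (1 + Real.log K) ^ 4
      ≤ 120 * ((N : ℝ) / √P + N / √P + N / √P + N / √P + N / √P) * (1 + Real.log N) ^ 4 := by
        gcongr
    _ = _ := by ring

theorem norm_e_sub_one_le (x : ℝ) : ‖e x - 1‖ ≤ 2 * Real.pi * |x| := by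
  unfold e
  have h := Real.norm_exp_I_mul_ofReal_sub_one_le (x := 2 * Real.pi * x)
  rw [mul_comm Complex.I] at h
  refine h.trans (le_of_eq ?_)
  rw [Real.norm_eq_abs, abs_mul, abs_mul, abs_two, abs_of_pos Real.pi_pos]

/-- Moving away from a rational. -/
theorem major_arc (h : ℕ → ℂ) (L : ℕ) (α γ D : ℝ)
    (hD : ∀ y, y ≤ L → ‖∑ b ∈ Ioc 0 y, h b * e (b * γ)‖ ≤ D) :
    ‖∑ b ∈ Ioc 0 L, h b * e (b * α)‖ ≤ D * (1 + 2 * Real.pi * L * |α - γ|) := by
  have hD0 : 0 ≤ D := (norm_nonneg _).trans (hD 0 (Nat.zero_le _))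
  have h1 := abel_bound (fun b => h b * e (b * γ)) (fun b => e (b * (α - γ))) 0 L (Nat.zero_le _) D
    (fun n _ hn => hD n hn)
  have h2 : ∑ b ∈ Ioc 0 L, h b * e (b * α)
      = ∑ b ∈ Ioc 0 L, h b * e (b * γ) * e (b * (α - γ)) := by
    refine sum_congr rfl fun b _ => ?_
    rw [mul_assoc, ← e_add]
    congr 2
    ring
  rw [h2]
  refine h1.trans ?_
  gcongr
  · rw [norm_e]
  · calc ∑ n ∈ Ico (0 + 1) L, ‖e (n * (α - γ)) - e ((n + 1 : ℕ) * (α - γ))‖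
        ≤ ∑ n ∈ Ico (0 + 1) L, 2 * Real.pi * |α - γ| := by
          refine sum_le_sum fun n _ => ?_
          have h3 : e (n * (α - γ)) - e ((n + 1 : ℕ) * (α - γ))
              = -(e (n * (α - γ)) * (e (α - γ) - 1)) := by
            have : ((n + 1 : ℕ) : ℝ) * (α - γ) = n * (α - γ) + (α - γ) := by push_cast; ring
            rw [this, e_add]
            ring
          rw [h3, norm_neg, norm_mul, norm_e, one_mul]
          exact norm_e_sub_one_le _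
      _ = ((L - 1 : ℕ) : ℝ) * (2 * Real.pi * |α - γ|) := by
          rw [sum_const, Nat.card_Ico, nsmul_eq_mul]
      _ ≤ L * (2 * Real.pi * |α - γ|) := by
          have : 0 ≤ 2 * Real.pi * |α - γ| := by positivity
          gcongr
          exact Nat.sub_le _ _
      _ = _ := by ring

end Pool.Agent.Circle
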