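import Mathlib

/-!
First and second moments of the divisor function: `∑_{m ≤ X} d(m) ≤ X (1 + log X)` and
`∑_{m ≤ X} d(m)² ≤ X (1 + log X)³`.
-/

set_option autoImplicit false

namespace Pool.Agent.Circle

open Finset

theorem sum_inv_le (X : ℕ) : ∑ a ∈ Ioc 0 X, (a : ℝ)⁻¹ ≤ 1 + Real.log X := by
  have h := harmonic_le_one_add_log X
  rw [harmonic] at h
  push_cast at h
  refine le_trans (le_of_eq ?_) h
  have h1 := sum_Ico_add' (fun k : ℕ => ((k : ℝ))⁻¹) 0 X 1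
  rw [Nat.Ico_zero_eq_range] at h1
  push_cast at h1
  rw [h1]
  congr 1

theorem card_multiples_le (X d : ℕ) :
    (((Ioc 0 X).filter (fun m => d ∣ m)).card : ℝ) ≤ X / d := by
  rw [Nat.Ioc_filter_dvd_card_eq_div]
  exact Nat.cast_div_le

theorem card_divisors_eq (X m : ℕ) (hm : m ∈ Ioc 0 X) :
    (m.divisors.card : ℝ) = ∑ d ∈ Ioc 0 X, if d ∣ m then 1 else 0 := by
  rw [← sum_filter, sum_const, nsmul_eq_mul, mul_one]
  congr 2
  ext d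
  rw [mem_Ioc] at hm
  simp only [Nat.mem_divisors, mem_filter, mem_Ioc]
  constructor
  · rintro ⟨h1, h2⟩
    exact ⟨⟨Nat.pos_of_dvd_of_pos h1 hm.1, (Nat.le_of_dvd hm.1 h1).trans hm.2⟩, h1⟩
  · rintro ⟨_, h⟩
    exact ⟨h, by omega⟩

theorem sum_divisors_le (X : ℕ) :
    ∑ m ∈ Ioc 0 X, (m.divisors.card : ℝ) ≤ X * (1 + Real.log X) := by
  rw [sum_congr rfl (card_divisors_eq X), sum_comm]
  have h1 : ∀ d ∈ Ioc 0 X, (∑ m ∈ Ioc 0 X, if d ∣ m then (1 : ℝ) else 0) ≤ X * (d : ℝ)⁻¹ := by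
    intro d hd
    rw [← sum_filter, sum_const, nsmul_eq_mul, mul_one, ← div_eq_mul_inv]
    exact card_multiples_le X d
  refine (sum_le_sum h1).trans ?_
  rw [← mul_sum]
  gcongr
  exact sum_inv_le X

theorem sum_gcd_le (X : ℕ) :
    ∑ x ∈ Ioc 0 X ×ˢ Ioc 0 X, ((Nat.lcm x.1 x.2 : ℕ) : ℝ)⁻¹ ≤ (1 + Real.log X) ^ 3 := by
  set φ : ℕ × ℕ → ℕ × ℕ × ℕ :=
    fun x => (Nat.gcd x.1 x.2, x.1 / Nat.gcd x.1 x.2, x.2 / Nat.gcd x.1 x.2) with hφ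
  set F : ℕ × ℕ × ℕ → ℝ := fun y => (y.1 : ℝ)⁻¹ * ((y.2.1 : ℝ)⁻¹ * (y.2.2 : ℝ)⁻¹) with hF
  have h1 : ∀ x ∈ Ioc 0 X ×ˢ Ioc 0 X, ((Nat.lcm x.1 x.2 : ℕ) : ℝ)⁻¹ = F (φ x) := by
    rintro ⟨a, b⟩ hx
    simp only [mem_product, mem_Ioc] at hx
    simp only [hF, hφ]
    have hg : 0 < Nat.gcd a b := Nat.gcd_pos_of_pos_left _ hx.1.1
    obtain ⟨a', ha'⟩ := Nat.gcd_dvd_left a b
    obtain ⟨b', hb'⟩ := Nat.gcd_dvd_right a b
    have e1 : a / Nat.gcd a b = a' := Nat.div_eq_of_eq_mul_right hg ha'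
    have e2 : b / Nat.gcd a b = b' := Nat.div_eq_of_eq_mul_right hg hb'
    rw [e1, e2, ← mul_inv, ← mul_inv]
    congr 1
    have h2 := Nat.gcd_mul_lcm a b
    have h3 : Nat.gcd a b * Nat.lcm a b = Nat.gcd a b * (Nat.gcd a b * (a' * b')) := by
      rw [h2]
      generalize Nat.gcd a b = g at ha' hb'
      rw [ha', hb']
      ring
    have h4 := Nat.eq_of_mul_eq_mul_left hg h3
    rw [h4]
    push_cast
    ring
  rw [sum_congr rfl h1]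
  have hinj : Set.InjOn φ ((Ioc 0 X ×ˢ Ioc 0 X : Finset (ℕ × ℕ)) : Set (ℕ × ℕ)) := by
    rintro ⟨a, b⟩ hx ⟨c, d⟩ hy hxy
    simp only [hφ, Prod.mk.injEq] at hxy
    obtain ⟨h1, h2, h3⟩ := hxy
    have e1 := Nat.div_mul_cancel (Nat.gcd_dvd_left a b)
    have e2 := Nat.div_mul_cancel (Nat.gcd_dvd_right a b)
    have e3 := Nat.div_mul_cancel (Nat.gcd_dvd_left c d)
    have e4 := Nat.div_mul_cancel (Nat.gcd_dvd_right c d)
    rw [h2, h1] at e1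
    rw [h3, h1] at e2
    rw [e3] at e1
    rw [e4] at e2
    rw [e1, e2]
  rw [← sum_image (f := F) hinj]
  refine le_trans (sum_le_sum_of_subset_of_nonneg (t := Ioc 0 X ×ˢ Ioc 0 X ×ˢ Ioc 0 X) ?_ ?_) ?_
  · intro y hy
    rw [mem_image] at hy
    obtain ⟨⟨a, b⟩, hx, rfl⟩ := hy
    simp only [mem_product, mem_Ioc] at hx
    simp only [hφ, mem_product, mem_Ioc]
    have hg : 0 < Nat.gcd a b := Nat.gcd_pos_of_pos_left _ hx.1.1
    refine ⟨⟨hg, (Nat.gcd_le_left _ hx.1.1).trans hx.1.2⟩, ⟨?_, ?_⟩, ?_, ?_⟩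
    · exact Nat.div_pos (Nat.gcd_le_left _ hx.1.1) hg
    · exact (Nat.div_le_self _ _).trans hx.1.2
    · exact Nat.div_pos (Nat.gcd_le_right _ hx.2.1) hg
    · exact (Nat.div_le_self _ _).trans hx.2.2
  · intro y _ _
    simp only [hF]
    positivity
  · simp only [hF]
    rw [sum_product]
    simp only [← mul_sum]
    rw [← sum_mul, sum_product]
    simp only [← mul_sum]
    rw [← sum_mul]
    have h := sum_inv_le X
    have h0 : 0 ≤ ∑ a ∈ Ioc 0 X, (a : ℝ)⁻¹ := sum_nonneg fun _ _ => by positivity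
    calc _ = (∑ a ∈ Ioc 0 X, (a : ℝ)⁻¹) ^ 3 := by ring
      _ ≤ _ := by gcongr

theorem sum_divisors_sq_le (X : ℕ) :
    ∑ m ∈ Ioc 0 X, (m.divisors.card : ℝ) ^ 2 ≤ X * (1 + Real.log X) ^ 3 := by
  have h0 : ∀ m ∈ Ioc 0 X, (m.divisors.card : ℝ) ^ 2
      = ∑ x ∈ Ioc 0 X ×ˢ Ioc 0 X, if Nat.lcm x.1 x.2 ∣ m then 1 else 0 := by
    intro m hm
    rw [card_divisors_eq X m hm, sq, sum_mul_sum, sum_product]
    refine sum_congr rfl fun a _ => sum_congr rfl fun b _ => ?_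
    simp only [Nat.lcm_dvd_iff]
    split_ifs <;> simp_all
  rw [sum_congr rfl h0, sum_comm]
  have h1 : ∀ x ∈ Ioc 0 X ×ˢ Ioc 0 X, (∑ m ∈ Ioc 0 X, if Nat.lcm x.1 x.2 ∣ m then (1 : ℝ) else 0)
      ≤ X * ((Nat.lcm x.1 x.2 : ℕ) : ℝ)⁻¹ := by
    intro x hx
    simp only [mem_product, mem_Ioc] at hx
    rw [← sum_filter, sum_const, nsmul_eq_mul, mul_one, ← div_eq_mul_inv]
    exact card_multiples_le X _
  refine (sum_le_sum h1).trans ?_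
  rw [← mul_sum]
  gcongr
  exact sum_gcd_le X

end Pool.Agent.Circle
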