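import Mathlib

/-!
Vaughan's identity for the von Mangoldt function, as an identity of arithmetic functions and for
twisted sums.
-/

set_option autoImplicit false

namespace Pool.Agent.Circle

open ArithmeticFunction Finset
open scoped ArithmeticFunction.Moebius ArithmeticFunction.zeta

/-- Restriction of an arithmetic function to `n ≤ U`. -/
def low (f : ArithmeticFunction ℝ) (U : ℕ) : ArithmeticFunction ℝ :=
  ⟨fun n => if n ≤ U then f n else 0, by simp⟩

/-- Restriction of an arithmetic function to `n > U`. -/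
def high (f : ArithmeticFunction ℝ) (U : ℕ) : ArithmeticFunction ℝ :=
  ⟨fun n => if U < n then f n else 0, by simp⟩

@[simp] theorem low_apply (f : ArithmeticFunction ℝ) (U n : ℕ) :
    low f U n = if n ≤ U then f n else 0 := rfl

@[simp] theorem high_apply (f : ArithmeticFunction ℝ) (U n : ℕ) :
    high f U n = if U < n then f n else 0 := rfl

theorem low_add_high (f : ArithmeticFunction ℝ) (U : ℕ) : low f U + high f U = f := by
  ext n
  simp only [ArithmeticFunction.add_apply, low_apply, high_apply]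
  by_cases h : n ≤ U
  · simp [h, not_lt.mpr h]
  · simp [h, not_le.mp h]

/-- Vaughan's identity. -/
theorem vaughan (U V : ℕ) :
    (Λ : ArithmeticFunction ℝ) = low Λ V + low (μ : ArithmeticFunction ℝ) U * log
      - low (μ : ArithmeticFunction ℝ) U * low Λ V * (ζ : ArithmeticFunction ℝ)
      + high (μ : ArithmeticFunction ℝ) U * (ζ : ArithmeticFunction ℝ) * high Λ V := by
  have h1 : (μ : ArithmeticFunction ℝ) * (ζ : ArithmeticFunction ℝ) = 1 := by
    exact coe_moebius_mul_coe_zeta
  have h2 : (Λ : ArithmeticFunction ℝ) * (ζ : ArithmeticFunction ℝ) = log := vonMangoldt_mul_zeta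
  have h3 := low_add_high (μ : ArithmeticFunction ℝ) U
  have h4 := low_add_high (Λ : ArithmeticFunction ℝ) V
  set M := low (μ : ArithmeticFunction ℝ) U
  set M' := high (μ : ArithmeticFunction ℝ) U
  set L := low (Λ : ArithmeticFunction ℝ) V
  set L' := high (Λ : ArithmeticFunction ℝ) V
  have h5 : (M + M') * (ζ : ArithmeticFunction ℝ) = 1 := by rw [h3, h1]
  have h6 : (L + L') * (ζ : ArithmeticFunction ℝ) = log := by rw [h4, h2]
  calc (Λ : ArithmeticFunction ℝ) = L + L' := h4.symm
    _ = L + L' * ((M + M') * (ζ : ArithmeticFunction ℝ)) := by rw [h5, mul_one]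
    _ = L + M * ((L + L') * (ζ : ArithmeticFunction ℝ)) - M * L * (ζ : ArithmeticFunction ℝ)
        + M' * (ζ : ArithmeticFunction ℝ) * L' := by ring
    _ = _ := by rw [h6]

/-- Sums of a Dirichlet convolution, twisted by any function. -/
theorem sum_mul_twist (f g : ArithmeticFunction ℝ) (F : ℕ → ℂ) (N : ℕ) :
    ∑ n ∈ Ioc 0 N, ((f * g) n : ℂ) * F n
      = ∑ a ∈ Ioc 0 N, (f a : ℂ) * ∑ b ∈ Ioc 0 (N / a), (g b : ℂ) * F (a * b) := by
  have h1 : ∀ n ∈ Ioc 0 N, (((f * g) n : ℝ) : ℂ) * F n
      = ∑ x ∈ Ioc 0 N ×ˢ Ioc 0 N with x.1 * x.2 = n, (f x.1 : ℂ) * ((g x.2 : ℂ) * F (x.1 * x.2)) := by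
    intro n hn
    simp only [mem_Ioc] at hn
    rw [← Nat.divisorsAntidiagonal_eq_prod_filter_of_le hn.1.ne' hn.2, mul_apply]
    push_cast
    rw [Finset.sum_mul]
    refine sum_congr rfl fun x hx => ?_
    rw [(Nat.mem_divisorsAntidiagonal.mp hx).1]
    ring
  rw [sum_congr rfl h1]
  simp_rw [sum_filter]
  rw [sum_comm, sum_product]
  refine sum_congr rfl fun a ha => ?_
  rw [mul_sum]
  have ha' := mem_Ioc.mp ha
  have h2 : ∀ b ∈ Ioc 0 N, (∑ n ∈ Ioc 0 N, if a * b = n then (f a : ℂ) * ((g b : ℂ) * F (a * b))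
      else 0) = if a * b ≤ N then (f a : ℂ) * ((g b : ℂ) * F (a * b)) else 0 := by
    intro b hb
    have hb' := mem_Ioc.mp hb
    rw [sum_ite_eq]
    have : 0 < a * b := Nat.mul_pos ha'.1 hb'.1
    simp [this]
  rw [sum_congr rfl h2, ← sum_filter]
  refine sum_congr ?_ fun _ _ => rfl
  ext b
  simp only [mem_filter, mem_Ioc]
  constructor
  · rintro ⟨⟨h, _⟩, h'⟩
    exact ⟨h, (Nat.le_div_iff_mul_le ha'.1).mpr (by rwa [mul_comm])⟩
  · rintro ⟨h, h'⟩
    have := (Nat.le_div_iff_mul_le ha'.1).mp h'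
    exact ⟨⟨h, h'.trans (Nat.div_le_self _ _)⟩, by rwa [mul_comm]⟩

/-- The coefficients of the second type I sum in Vaughan's identity. -/
noncomputable def vc (U V : ℕ) : ArithmeticFunction ℝ :=
  low (μ : ArithmeticFunction ℝ) U * low Λ V

/-- The coefficients of the type II sum in Vaughan's identity. -/
noncomputable def va (U : ℕ) : ArithmeticFunction ℝ :=
  high (μ : ArithmeticFunction ℝ) U * (ζ : ArithmeticFunction ℝ)

theorem abs_moebius_le (n : ℕ) : |((μ : ArithmeticFunction ℝ) n)| ≤ 1 := by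
  have h := abs_moebius_le_one (n := n)
  rw [intCoe_apply]
  exact_mod_cast h

theorem abs_vc_le (U V k : ℕ) : |vc U V k| ≤ Real.log k := by
  unfold vc
  rw [mul_apply]
  refine (abs_sum_le_sum_abs _ _).trans ?_
  rw [← vonMangoldt_sum]
  have : ∑ i ∈ k.divisors, Λ i = ∑ x ∈ k.divisorsAntidiagonal, Λ x.2 := by
    rw [Nat.sum_divisorsAntidiagonal' (fun _ j => Λ j)]
  rw [this]
  refine sum_le_sum fun x _ => ?_
  rw [abs_mul]
  have h1 : |low (μ : ArithmeticFunction ℝ) U x.1| ≤ 1 := by
    rw [low_apply]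
    split_ifs
    · exact abs_moebius_le _
    · simp
  have h2 : |low Λ V x.2| ≤ Λ x.2 := by
    rw [low_apply]
    split_ifs
    · rw [abs_of_nonneg vonMangoldt_nonneg]
    · simp
  calc _ ≤ 1 * Λ x.2 := mul_le_mul h1 h2 (abs_nonneg _) zero_le_one
    _ = _ := one_mul _

theorem vc_eq_zero (U V k : ℕ) (hk : U * V < k) : vc U V k = 0 := by
  unfold vc
  rw [mul_apply]
  refine sum_eq_zero fun x hx => ?_
  have hx' := (Nat.mem_divisorsAntidiagonal.mp hx).1
  rw [low_apply, low_apply]
  split_ifs with h1 h2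
  · exfalso
    have := Nat.mul_le_mul h1 h2
    omega
  all_goals simp

theorem abs_va_le (U m : ℕ) : |va U m| ≤ (m.divisors.card : ℝ) := by
  unfold va
  rw [mul_apply]
  refine (abs_sum_le_sum_abs _ _).trans ?_
  have : (m.divisors.card : ℝ) = ∑ x ∈ m.divisorsAntidiagonal, 1 := by
    rw [Nat.sum_divisorsAntidiagonal (fun _ _ => (1 : ℝ))]
    simp
  rw [this]
  refine sum_le_sum fun x _ => ?_
  rw [abs_mul]
  have h1 : |high (μ : ArithmeticFunction ℝ) U x.1| ≤ 1 := by
    rw [high_apply]
    split_ifs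
    · exact abs_moebius_le _
    · simp
  have h2 : |(ζ : ArithmeticFunction ℝ) x.2| ≤ 1 := by
    rw [natCoe_apply, zeta_apply]
    split_ifs <;> simp
  calc _ ≤ (1 : ℝ) * 1 := mul_le_mul h1 h2 (abs_nonneg _) zero_le_one
    _ = _ := one_mul _

theorem va_eq_zero (U m : ℕ) (hm : m ≤ U) : va U m = 0 := by
  unfold va
  rw [mul_apply]
  refine sum_eq_zero fun x hx => ?_
  have hx' := Nat.mem_divisorsAntidiagonal.mp hx
  have : x.1 ≤ m := Nat.divisor_le (Nat.mem_divisors.mpr ⟨⟨x.2, hx'.1.symm⟩, hx'.2⟩)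
  rw [high_apply, if_neg (by omega), zero_mul]

/-- Vaughan's identity for sums of `Λ` twisted by an arbitrary function. -/
theorem vaughan_sum (F : ℕ → ℂ) (U V N : ℕ) (hV : V ≤ N) (hUV : U * V ≤ N) (hU : U ≤ N) :
    ∑ n ∈ Ioc 0 N, (Λ n : ℂ) * F n
      = ∑ n ∈ Ioc 0 V, (Λ n : ℂ) * F n
        + ∑ a ∈ Ioc 0 U, (((μ : ArithmeticFunction ℝ) a : ℝ) : ℂ) *
            ∑ b ∈ Ioc 0 (N / a), (Real.log b : ℂ) * F (a * b)
        - ∑ k ∈ Ioc 0 (U * V), (vc U V k : ℂ) * ∑ r ∈ Ioc 0 (N / k), F (k * r)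
        + ∑ m ∈ Ioc U N, (va U m : ℂ) * ∑ n ∈ Ioc V (N / m), (Λ n : ℂ) * F (m * n) := by
  have h0 : ∀ n, (Λ n : ℂ) = (low Λ V n : ℂ) + ((low (μ : ArithmeticFunction ℝ) U * log) n : ℂ)
      - ((vc U V * (ζ : ArithmeticFunction ℝ)) n : ℂ)
      + ((va U * high Λ V) n : ℂ) := by
    intro n
    have := congrArg (fun f : ArithmeticFunction ℝ => ((f n : ℝ) : ℂ)) (vaughan U V)
    simp only [ArithmeticFunction.add_apply, sub_eq_add_neg, ArithmeticFunction.neg_apply] at this
    rw [this]
    push_cast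
    unfold vc va
    ring
  have h1 : ∑ n ∈ Ioc 0 N, (Λ n : ℂ) * F n = ∑ n ∈ Ioc 0 N, (low Λ V n : ℂ) * F n
      + ∑ n ∈ Ioc 0 N, ((low (μ : ArithmeticFunction ℝ) U * log) n : ℂ) * F n
      - ∑ n ∈ Ioc 0 N, ((vc U V * (ζ : ArithmeticFunction ℝ)) n : ℂ) * F n
      + ∑ n ∈ Ioc 0 N, ((va U * high Λ V) n : ℂ) * F n := by
    rw [← sum_add_distrib, ← sum_sub_distrib, ← sum_add_distrib]
    refine sum_congr rfl fun n _ => ?_
    rw [h0 n]
    ring
  rw [h1, sum_mul_twist, sum_mul_twist, sum_mul_twist]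
  congr 1
  · congr 1
    · congr 1
      · -- low part
        rw [← sum_subset (Ioc_subset_Ioc_right hV)]
        · refine sum_congr rfl fun n hn => ?_
          rw [low_apply, if_pos (mem_Ioc.mp hn).2]
        · intro n _ hn
          rw [low_apply, if_neg, Complex.ofReal_zero, zero_mul]
          intro h
          simp only [mem_Ioc, not_and, not_le] at hn
          by_cases h0 : n = 0
          · simp_all
          · have := hn (Nat.pos_of_ne_zero h0)
            omega
      · rw [← sum_subset (Ioc_subset_Ioc_right hU)]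
        · refine sum_congr rfl fun n hn => ?_
          rw [low_apply, if_pos (mem_Ioc.mp hn).2]
          simp only [log_apply]
        · intro n hn' hn
          rw [low_apply, if_neg, Complex.ofReal_zero, zero_mul]
          simp only [mem_Ioc, not_and, not_le] at hn hn'
          have := hn hn'.1
          omega
    · rw [← sum_subset (Ioc_subset_Ioc_right hUV)]
      · refine sum_congr rfl fun k _ => ?_
        congr 1
        refine sum_congr rfl fun r hr => ?_
        have hr' : r ≠ 0 := (mem_Ioc.mp hr).1.ne'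
        rw [natCoe_apply, zeta_apply, if_neg hr']
        simp
      · intro n hn' hn
        simp only [mem_Ioc, not_and, not_le] at hn hn'
        rw [vc_eq_zero U V n (hn hn'.1), Complex.ofReal_zero, zero_mul]
  · rw [← sum_subset (Ioc_subset_Ioc_left (Nat.zero_le U))]
    · refine sum_congr rfl fun m _ => ?_
      congr 1
      by_cases hVN : V ≤ N / m
      · rw [← sum_subset (Ioc_subset_Ioc_left (Nat.zero_le V))]
        · refine sum_congr rfl fun n hn => ?_
          rw [high_apply, if_pos (mem_Ioc.mp hn).1]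
        · intro n hn' hn
          simp only [mem_Ioc, not_and, not_le] at hn hn'
          rw [high_apply, if_neg, Complex.ofReal_zero, zero_mul]
          intro h
          have := hn h
          omega
      · rw [Ioc_eq_empty (show ¬ V < N / m by omega), sum_empty]
        refine sum_eq_zero fun n hn => ?_
        have := mem_Ioc.mp hn
        rw [high_apply, if_neg (by omega), Complex.ofReal_zero, zero_mul]
    · intro n hn' hn
      simp only [mem_Ioc, not_and, not_le] at hn hn'
      rw [va_eq_zero U n, Complex.ofReal_zero, zero_mul]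
      by_contra h
      have := hn (by omega)
      omega

end Pool.Agent.Circle
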