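import Pool.Agent.Work.Circle.Expo

/-!
Ramanujan sums.
-/

set_option autoImplicit false

namespace Pool.Agent.Circle

open Finset ArithmeticFunction
open scoped ArithmeticFunction.Moebius ArithmeticFunction.zeta

/-- The residues coprime to `r`. -/
def cop (r : ℕ) : Finset ℕ := (range r).filter fun c => r.Coprime c

theorem card_cop (r : ℕ) : (cop r).card = r.totient := rfl

theorem mem_cop (r c : ℕ) : c ∈ cop r ↔ c < r ∧ r.Coprime c := by
  rw [cop, mem_filter, mem_range]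

/-- Ramanujan's sum. -/
noncomputable def ram (r : ℕ) (m : ℤ) : ℂ := ∑ c ∈ cop r, e (c * (m / r))

theorem e_eq_one_iff (x : ℝ) : e x = 1 ↔ ∃ n : ℤ, x = n := by
  constructor
  · intro h
    unfold e at h
    rw [Complex.exp_eq_one_iff] at h
    obtain ⟨n, hn⟩ := h
    refine ⟨n, ?_⟩
    have hpi : (2 * Real.pi : ℂ) * Complex.I ≠ 0 := by
      have : (Real.pi : ℂ) ≠ 0 := by exact_mod_cast Real.pi_ne_zero
      simp [this, Complex.I_ne_zero]
    have h1 : (2 * Real.pi : ℂ) * Complex.I * x = (2 * Real.pi : ℂ) * Complex.I * n := by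
      have h2 : (n : ℂ) * (2 * Real.pi * Complex.I) = (2 * Real.pi : ℂ) * Complex.I * n := by ring
      rw [← h2, ← hn]
      push_cast
      ring
    have h2 := mul_left_cancel₀ hpi h1
    exact_mod_cast h2
  · rintro ⟨n, rfl⟩
    exact e_int n

theorem full_sum (s : ℕ) (hs : 0 < s) (m : ℤ) :
    ∑ c ∈ range s, e (c * (m / s)) = if (s : ℤ) ∣ m then (s : ℂ) else 0 := by
  have hs0 : (s : ℝ) ≠ 0 := by exact_mod_cast hs.ne'
  have h1 : ∀ c ∈ range s, e (c * ((m : ℝ) / s)) = e ((m : ℝ) / s) ^ c := fun c _ => e_natmul _ c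
  rw [sum_congr rfl h1]
  split_ifs with h
  · obtain ⟨k, rfl⟩ := h
    have h2 : (((s : ℤ) * k : ℤ) : ℝ) / s = k := by
      push_cast
      field_simp
    rw [h2, e_int]
    simp
  · have h2 : e ((m : ℝ) / s) ≠ 1 := by
      intro h3
      rw [e_eq_one_iff] at h3
      obtain ⟨n, hn⟩ := h3
      apply h
      refine ⟨n, ?_⟩
      rw [div_eq_iff hs0] at hn
      have h4 : (m : ℝ) = ((s * n : ℤ) : ℝ) := by rw [hn]; push_cast; ring
      exact_mod_cast h4
    have h3 : e ((m : ℝ) / s) ^ s = 1 := by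
      rw [← e_natmul, mul_div_cancel₀ _ hs0]
      exact e_int m
    rw [geom_sum_eq h2, h3, sub_self, zero_div]

/-- Ramanujan's sum, arithmetic form. -/
def rsum (m r : ℕ) : ℤ := ∑ d ∈ r.divisors, if d ∣ m then (d : ℤ) * μ (r / d) else 0

theorem sum_moebius_gcd (n : ℕ) : ∑ d ∈ n.divisors, μ d = if n = 1 then 1 else 0 := by
  have h := congrArg (fun f : ArithmeticFunction ℤ => f n) moebius_mul_coe_zeta
  rw [coe_mul_zeta_apply] at h
  rw [h, one_apply]

theorem sum_coprime (r : ℕ) (hr : 0 < r) (F : ℕ → ℂ) :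
    ∑ c ∈ cop r, F c = ∑ d ∈ r.divisors, (μ d : ℂ) * ∑ c ∈ range (r / d), F (d * c) := by
  have h1 : ∑ c ∈ cop r, F c = ∑ c ∈ range r, ∑ d ∈ r.divisors, if d ∣ c then (μ d : ℂ) * F c else 0 := by
    rw [cop, sum_filter]
    refine sum_congr rfl fun c _ => ?_
    have h2 : r.divisors.filter (fun d => d ∣ c) = (Nat.gcd r c).divisors := by
      ext d
      rw [mem_filter, Nat.mem_divisors, Nat.mem_divisors, Nat.dvd_gcd_iff]
      constructor
      · rintro ⟨⟨h3, h4⟩, h5⟩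
        exact ⟨⟨h3, h5⟩, Nat.gcd_ne_zero_left h4⟩
      · rintro ⟨⟨h3, h5⟩, _⟩
        exact ⟨⟨h3, hr.ne'⟩, h5⟩
    rw [← sum_filter, h2, ← sum_mul]
    have h3 := sum_moebius_gcd (Nat.gcd r c)
    have h4 : (∑ d ∈ (Nat.gcd r c).divisors, (μ d : ℂ)) = if Nat.gcd r c = 1 then 1 else 0 := by
      rw [← Int.cast_sum, h3]
      split_ifs <;> simp
    rw [h4]
    by_cases h5 : r.Coprime c
    · rw [if_pos h5, if_pos h5, one_mul]
    · rw [if_neg h5, if_neg h5, zero_mul]
  rw [h1, sum_comm]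
  refine sum_congr rfl fun d hd => ?_
  rw [Nat.mem_divisors] at hd
  obtain ⟨k, hk⟩ := hd.1
  have hd0 : 0 < d := Nat.pos_of_dvd_of_pos hd.1 hr
  have hrd : r / d = k := by rw [hk]; exact Nat.mul_div_cancel_left k hd0
  rw [hrd, mul_sum, ← sum_filter]
  have h2 : (range r).filter (fun c => d ∣ c) = (range k).image (fun c => d * c) := by
    ext c
    rw [mem_filter, mem_image, mem_range]
    constructor
    · rintro ⟨h3, j, rfl⟩
      refine ⟨j, ?_, rfl⟩
      rw [mem_range]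
      rw [hk] at h3
      exact Nat.lt_of_mul_lt_mul_left h3
    · rintro ⟨j, hj, rfl⟩
      rw [mem_range] at hj
      refine ⟨?_, dvd_mul_right _ _⟩
      rw [hk]
      exact Nat.mul_lt_mul_of_pos_left hj hd0
  rw [h2, sum_image (fun a _ b _ h => Nat.eq_of_mul_eq_mul_left hd0 h)]

theorem ram_eq (r : ℕ) (hr : 0 < r) (m : ℤ) :
    ram r m = ∑ d ∈ r.divisors, if (d : ℤ) ∣ m then (d : ℂ) * (μ (r / d) : ℂ) else 0 := by
  unfold ram
  rw [sum_coprime r hr]
  have h1 : ∀ d ∈ r.divisors, (μ d : ℂ) * ∑ c ∈ range (r / d), e (((d * c : ℕ) : ℝ) * (m / r))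
      = if ((r / d : ℕ) : ℤ) ∣ m then ((r / d : ℕ) : ℂ) * (μ (r / (r / d)) : ℂ) else 0 := by
    intro d hd
    rw [Nat.mem_divisors] at hd
    obtain ⟨k, hk⟩ := hd.1
    have hd0 : 0 < d := Nat.pos_of_dvd_of_pos hd.1 hr
    have hk0 : 0 < k := by
      rcases Nat.eq_zero_or_pos k with rfl | h
      · omega
      · exact h
    have hrd : r / d = k := by rw [hk]; exact Nat.mul_div_cancel_left k hd0
    have hrk : r / k = d := by rw [hk]; exact Nat.mul_div_cancel _ hk0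
    rw [hrd, hrk]
    have h2 : ∀ c ∈ range k, e (((d * c : ℕ) : ℝ) * ((m : ℝ) / r)) = e (c * ((m : ℝ) / k)) := by
      intro c _
      congr 1
      have hd' : (d : ℝ) ≠ 0 := by exact_mod_cast hd0.ne'
      have hk' : (k : ℝ) ≠ 0 := by exact_mod_cast hk0.ne'
      rw [hk]
      push_cast
      field_simp
    rw [sum_congr rfl h2, full_sum k hk0]
    split_ifs
    · ring
    · ring
  rw [sum_congr rfl h1]
  exact Nat.sum_div_divisors r (fun d => if ((d : ℕ) : ℤ) ∣ m then ((d : ℕ) : ℂ) * (μ (r / d) : ℂ) else 0)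

theorem ram_nat (r : ℕ) (hr : 0 < r) (m : ℕ) : ram r (m : ℤ) = (rsum m r : ℂ) := by
  rw [ram_eq r hr, rsum, Int.cast_sum]
  refine sum_congr rfl fun d _ => ?_
  by_cases h : d ∣ m
  · rw [if_pos h, if_pos (Int.natCast_dvd_natCast.mpr h)]
    push_cast
    ring
  · rw [if_neg h, if_neg (fun h1 => h (Int.natCast_dvd_natCast.mp h1)), Int.cast_zero]

theorem ram_coprime (r : ℕ) (hr : 0 < r) (m : ℤ) (h : IsCoprime m (r : ℤ)) :
    ram r m = (μ r : ℂ) := by
  rw [ram_eq r hr, sum_eq_single 1]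
  · simp
  · intro d hd hd1
    rw [if_neg]
    intro h1
    apply hd1
    rw [Nat.mem_divisors] at hd
    have h2 : (d : ℤ) ∣ (r : ℤ) := Int.natCast_dvd_natCast.mpr hd.1
    have h3 : IsUnit (d : ℤ) := h.isUnit_of_dvd' h1 h2
    rw [Int.isUnit_iff] at h3
    omega
  · intro h1
    exact absurd (Nat.mem_divisors.mpr ⟨one_dvd r, hr.ne'⟩) h1

end Pool.Agent.Circle
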