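import Mathlib

/-!
The additive character `e x = exp (2 π i x)`, the distance to the nearest integer, geometric sums,
and the basic spacing lemma for the multiples of a real number with a rational approximation.
-/

set_option autoImplicit false

namespace Pool.Agent.Circle

open Finset

/-- `e x = exp (2 π i x)`. -/
noncomputable def e (x : ℝ) : ℂ := Complex.exp ((2 * Real.pi * x : ℝ) * Complex.I)

theorem e_zero : e 0 = 1 := by simp [e]

theorem norm_e (x : ℝ) : ‖e x‖ = 1 := by
  unfold e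
  exact Complex.norm_exp_ofReal_mul_I _

theorem e_add (x y : ℝ) : e (x + y) = e x * e y := by
  unfold e
  rw [← Complex.exp_add]
  congr 1
  push_cast
  ring

theorem e_int (n : ℤ) : e n = 1 := by
  unfold e
  rw [Complex.exp_eq_one_iff]
  exact ⟨n, by push_cast; ring⟩

theorem e_nat (n : ℕ) : e n = 1 := by
  have := e_int n
  simpa using this

theorem e_neg (x : ℝ) : e (-x) = (e x)⁻¹ := by
  have : e (-x) * e x = 1 := by rw [← e_add]; simp [e_zero]
  exact eq_inv_of_mul_eq_one_left this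

theorem conj_e (x : ℝ) : (starRingEnd ℂ) (e x) = e (-x) := by
  unfold e
  rw [← Complex.exp_conj, map_mul, Complex.conj_ofReal, Complex.conj_I]
  congr 1
  push_cast
  ring

theorem e_add_int (x : ℝ) (n : ℤ) : e (x + n) = e x := by
  rw [e_add, e_int, mul_one]

theorem e_natmul (x : ℝ) (n : ℕ) : e (n * x) = e x ^ n := by
  unfold e
  rw [← Complex.exp_nat_mul]
  congr 1
  push_cast
  ring

/-- Distance to the nearest integer. -/
noncomputable def dn (x : ℝ) : ℝ := |x - round x|

theorem dn_nonneg (x : ℝ) : 0 ≤ dn x := abs_nonneg _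

theorem dn_le (x : ℝ) (n : ℤ) : dn x ≤ |x - n| := round_le x n

theorem dn_le_half (x : ℝ) : dn x ≤ 1 / 2 := abs_sub_round x

theorem dn_neg (x : ℝ) : dn (-x) = dn x := by
  apply le_antisymm
  · refine (dn_le (-x) (-round x)).trans (le_of_eq ?_)
    push_cast
    rw [← abs_neg]
    unfold dn
    congr 1
    ring
  · refine (dn_le x (-round (-x))).trans (le_of_eq ?_)
    push_cast
    rw [← abs_neg]
    unfold dn
    congr 1
    ring

theorem dn_add_int (x : ℝ) (n : ℤ) : dn (x + n) = dn x := by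
  apply le_antisymm
  · refine (dn_le (x + n) (round x + n)).trans (le_of_eq ?_)
    push_cast
    unfold dn
    congr 1
    ring
  · refine (dn_le x (round (x + n) - n)).trans (le_of_eq ?_)
    push_cast
    unfold dn
    congr 1
    ring

theorem dn_add_le (x y : ℝ) : dn (x + y) ≤ dn x + dn y := by
  refine (dn_le (x + y) (round x + round y)).trans ?_
  push_cast
  have : x + y - (round x + round y) = (x - round x) + (y - round y) := by ring
  rw [this]
  exact abs_add_le _ _

theorem dn_add_le_abs (x y : ℝ) : dn (x + y) ≤ dn x + |y| := by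
  have h : dn y ≤ |y| := by simpa using dn_le y 0
  linarith [dn_add_le x y]

/-- A multiple of `1/q` that is not an integer is at distance at least `1/q` from the integers. -/
theorem dn_div_ge (q : ℕ) (hq : 0 < q) (m : ℤ) (hm : ¬ (q : ℤ) ∣ m) : 1 / (q : ℝ) ≤ dn (m / q) := by
  unfold dn
  set r := round ((m : ℝ) / q)
  have hq' : (0 : ℝ) < q := by exact_mod_cast hq
  have h1 : (m : ℝ) / q - r = ((m - q * r : ℤ) : ℝ) / q := by
    push_cast
    field_simp
  rw [h1, abs_div, abs_of_pos hq', div_le_div_iff_of_pos_right hq']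
  have h2 : m - q * r ≠ 0 := by
    intro h
    exact hm ⟨r, by linarith⟩
  have h3 : (1 : ℤ) ≤ |m - q * r| := Int.one_le_abs h2
  exact_mod_cast h3

theorem norm_one_sub_e (x : ℝ) : 4 * dn x ≤ ‖1 - e x‖ := by
  set y := x - round x with hy
  have h1 : e x = e y := by
    have : x = y + (round x : ℤ) := by rw [hy]; ring
    conv_lhs => rw [this]
    exact e_add_int _ _
  have h2 : |y| ≤ 1 / 2 := abs_sub_round x
  have h3 : ‖1 - e y‖ = 2 * |Real.sin (Real.pi * y)| := by
    unfold e
    rw [norm_sub_rev, mul_comm, Complex.norm_exp_I_mul_ofReal_sub_one, Real.norm_eq_abs, abs_mul,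
      abs_of_pos (by norm_num : (0:ℝ) < 2)]
    congr 3
    ring
  rw [h1, h3]
  have h4 : Real.pi * |y| ≤ Real.pi / 2 := by nlinarith [Real.pi_pos]
  have h5 : 2 / Real.pi * (Real.pi * |y|) ≤ Real.sin (Real.pi * |y|) :=
    Real.mul_le_sin (by positivity) h4
  have h6 : |Real.sin (Real.pi * y)| = Real.sin (Real.pi * |y|) := by
    rcases le_total 0 y with h | h
    · rw [abs_of_nonneg h]
      apply abs_of_nonneg
      rw [abs_of_nonneg h] at h5
      exact le_trans (by positivity) h5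
    · rw [abs_of_nonpos h]
      rw [abs_of_nonpos h] at h5
      have h7 : Real.sin (Real.pi * y) = - Real.sin (Real.pi * -y) := by
        rw [← Real.sin_neg]; congr 1; ring
      rw [h7, abs_neg]
      apply abs_of_nonneg
      have : 0 ≤ 2 / Real.pi * (Real.pi * -y) := by
        have : 0 ≤ -y := by linarith
        positivity
      linarith
  rw [h6]
  have h8 : 2 / Real.pi * (Real.pi * |y|) = 2 * |y| := by
    field_simp
  rw [h8] at h5
  have : dn x = |y| := rfl
  rw [this]
  linarith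

/-- The quantity `min(B, 1 / (2 ‖θ‖))`. -/
noncomputable def mm (B θ : ℝ) : ℝ := B / max 1 (2 * B * dn θ)

theorem mm_le_left (B θ : ℝ) (hB : 0 ≤ B) : mm B θ ≤ B := by
  unfold mm
  exact div_le_self hB (le_max_left _ _)

theorem mm_nonneg (B θ : ℝ) (hB : 0 ≤ B) : 0 ≤ mm B θ := by
  unfold mm
  have : (0:ℝ) < max 1 (2 * B * dn θ) := lt_of_lt_of_le one_pos (le_max_left _ _)
  positivity

theorem mm_mul_le (B θ : ℝ) (hB : 0 ≤ B) : 2 * dn θ * mm B θ ≤ 1 := by
  unfold mm
  have h : (0:ℝ) < max 1 (2 * B * dn θ) := lt_of_lt_of_le one_pos (le_max_left _ _)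
  rw [mul_div_assoc', div_le_one h]
  calc 2 * dn θ * B = 2 * B * dn θ := by ring
    _ ≤ _ := le_max_right _ _

theorem mm_le_right (B θ d : ℝ) (hB : 0 ≤ B) (hd : 0 < d) (h : d ≤ dn θ) :
    mm B θ ≤ 1 / (2 * d) := by
  rw [le_div_iff₀ (by positivity)]
  have h1 := mm_mul_le B θ hB
  have h2 := mm_nonneg B θ hB
  nlinarith

theorem le_mm (B θ X : ℝ) (h1 : X ≤ B) (h2 : 2 * dn θ * X ≤ 1) (hB : 0 ≤ B) : X ≤ mm B θ := by
  unfold mm
  have h : (0:ℝ) < max 1 (2 * B * dn θ) := lt_of_lt_of_le one_pos (le_max_left _ _)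
  rw [le_div_iff₀ h]
  rcases le_total 1 (2 * B * dn θ) with h3 | h3
  · rw [max_eq_right h3]
    calc X * (2 * B * dn θ) = B * (2 * dn θ * X) := by ring
      _ ≤ B * 1 := mul_le_mul_of_nonneg_left h2 hB
      _ = B := mul_one B
  · rw [max_eq_left h3, mul_one]
    exact h1

theorem mm_mono (B B' θ : ℝ) (hB : 0 ≤ B) (h : B ≤ B') : mm B θ ≤ mm B' θ :=
  le_mm _ _ _ ((mm_le_left B θ hB).trans h) (mm_mul_le B θ hB) (hB.trans h)

theorem mm_neg (B θ : ℝ) : mm B (-θ) = mm B θ := by
  unfold mm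
  rw [dn_neg]

/-- Geometric sums over an interval. -/
theorem norm_geom_le (θ : ℝ) (A B : ℕ) : 2 * dn θ * ‖∑ n ∈ Ioc A B, e (n * θ)‖ ≤ 1 := by
  have h1 : (1 - e θ) * ∑ n ∈ Ioc A B, e (n * θ)
      = if A ≤ B then e ((A + 1 : ℕ) * θ) - e ((B + 1 : ℕ) * θ) else 0 := by
    split_ifs with h
    · induction B, h using Nat.le_induction with
      | base => simp
      | succ n hn ih =>
        rw [← Finset.insert_Ioc_right_eq_Ioc_add_one (by omega), sum_insert (by simp), mul_add, ih]
        have : e ((n + 1 + 1 : ℕ) * θ) = e θ * e ((n + 1 : ℕ) * θ) := by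
          rw [← e_add]; congr 1; push_cast; ring
        rw [this]
        ring
    · rw [Ioc_eq_empty (by omega), sum_empty, mul_zero]
  have h2 : ‖1 - e θ‖ * ‖∑ n ∈ Ioc A B, e (n * θ)‖ ≤ 2 := by
    rw [← norm_mul, h1]
    split_ifs
    · refine (norm_sub_le _ _).trans ?_
      rw [norm_e, norm_e]
      norm_num
    · simp
  have h3 := norm_one_sub_e θ
  have h4 : 4 * dn θ * ‖∑ n ∈ Ioc A B, e (n * θ)‖ ≤ 2 :=
    (mul_le_mul_of_nonneg_right h3 (norm_nonneg _)).trans h2
  linarith

theorem norm_geom_le_card (θ : ℝ) (A B : ℕ) : ‖∑ n ∈ Ioc A B, e (n * θ)‖ ≤ ((B - A : ℕ) : ℝ) := by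
  refine (norm_sum_le _ _).trans ?_
  simp [norm_e]

theorem norm_geom_le_mm (θ : ℝ) (A B : ℕ) (X : ℝ) (hX : ((B - A : ℕ) : ℝ) ≤ X) :
    ‖∑ n ∈ Ioc A B, e (n * θ)‖ ≤ mm X θ :=
  le_mm _ _ _ ((norm_geom_le_card θ A B).trans hX) (norm_geom_le θ A B)
    ((Nat.cast_nonneg _).trans hX)

end Pool.Agent.Circle
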