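import Pool.Agent.Work.Circle.CircleIneq

/-!
Representations of almost all even integers as `p + q` with `p` in an initial range.
-/

set_option autoImplicit false

namespace Pool.Agent.Circle

open Finset ArithmeticFunction Pool.Agent.SW
open scoped ArithmeticFunction.Moebius

/-- Powers of the logarithm are eventually smaller than `c √L`. -/
theorem log_pow_eventually (j : ℕ) (c : ℝ) (hc : 0 < c) :
    ∃ L0 : ℝ, ∀ L : ℝ, L0 ≤ L → (Real.log L) ^ j ≤ c * √L := by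
  have h1 : (fun x : ℝ => (Real.log x) ^ j) =o[Filter.atTop] fun x : ℝ => x ^ ((1 : ℝ) / 2) := by
    have h2 := isLittleO_log_rpow_rpow_atTop (j : ℝ) (show (0 : ℝ) < 1 / 2 by norm_num)
    refine h2.congr' ?_ ?_
    · filter_upwards with n
      simp
    · filter_upwards with n
      rfl
  have h3 := h1.bound hc
  rw [Filter.eventually_atTop] at h3
  obtain ⟨L0, hL0⟩ := h3
  refine ⟨L0, fun L hL => ?_⟩
  have h4 := hL0 L hL
  rw [← Real.sqrt_eq_rpow, Real.norm_eq_abs, Real.norm_eq_abs, abs_of_nonneg (Real.sqrt_nonneg L)] at h4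
  exact (le_abs_self _).trans h4

/-- The error function. -/
noncomputable def hQ (P b : ℕ) : ℂ := (Λ b : ℂ) - Lam P b

/-- The mean square of the error function. -/
theorem hQ_sq (P L : ℕ) (hL : 1 ≤ L) (hP : P ^ 4 ≤ L) (hP1 : 1 ≤ P) (hx : 1 ≤ Real.log L) :
    ∑ b ∈ Ioc 0 L, ‖hQ P b‖ ^ 2 ≤ 10 * (L * √P * (Real.log L) ^ 2) := by
  have hL1 : (1 : ℝ) ≤ L := by exact_mod_cast hL
  have hsP : 1 ≤ √(P : ℝ) := by rw [Real.one_le_sqrt]; exact_mod_cast hP1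
  have h1 : ∀ b ∈ Ioc 0 L, ‖hQ P b‖ ^ 2 ≤ 2 * (Real.log L) ^ 2 + 2 * ‖Lam P b‖ ^ 2 := by
    intro b hb
    rw [mem_Ioc] at hb
    have h2 : ‖(Λ b : ℂ)‖ ≤ Real.log L := by
      rw [Complex.norm_real, Real.norm_eq_abs, abs_of_nonneg vonMangoldt_nonneg]
      refine vonMangoldt_le_log.trans ?_
      exact Real.log_le_log (by exact_mod_cast hb.1) (by exact_mod_cast hb.2)
    have h3 : ‖hQ P b‖ ≤ Real.log L + ‖Lam P b‖ := (norm_sub_le _ _).trans (by gcongr)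
    have h4 := norm_nonneg (Lam P b)
    calc ‖hQ P b‖ ^ 2 ≤ (Real.log L + ‖Lam P b‖) ^ 2 := by gcongr
      _ ≤ _ := by nlinarith [sq_nonneg (Real.log L - ‖Lam P b‖)]
  have h2 := Lam_sq P L
  have h3 := sum_mu_phi_le P
  have h4 : (P : ℝ) ^ 4 ≤ L := by exact_mod_cast hP
  have hx2 : 1 ≤ (Real.log L) ^ 2 := one_le_pow₀ hx
  have hsx : 1 ≤ √(P : ℝ) * (Real.log L) ^ 2 := one_le_mul_of_one_le_of_one_le hsP hx2
  calc ∑ b ∈ Ioc 0 L, ‖hQ P b‖ ^ 2 ≤ ∑ b ∈ Ioc 0 L, (2 * (Real.log L) ^ 2 + 2 * ‖Lam P b‖ ^ 2) :=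
        sum_le_sum h1
    _ = L * (2 * (Real.log L) ^ 2) + 2 * ∑ b ∈ Ioc 0 L, ‖Lam P b‖ ^ 2 := by
        rw [sum_add_distrib, sum_const, Nat.card_Ioc, nsmul_eq_mul, Nat.sub_zero, mul_sum]
    _ ≤ L * (2 * (Real.log L) ^ 2) + 2 * (L * (3 * √P) + L) := by
        have : (L : ℝ) * ∑ r ∈ Ioc 0 P, (μ r : ℝ) ^ 2 / (r.totient : ℝ) ≤ L * (3 * √P) := by gcongr
        linarith
    _ = L * (2 * (Real.log L) ^ 2 + 6 * √P + 2) := by ring
    _ ≤ L * (10 * (√P * (Real.log L) ^ 2)) := by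
        gcongr
        nlinarith
    _ = _ := by ring

/-- The dichotomy between minor and major arcs. -/
theorem arcs (N K L P : ℕ) (hP : 1 ≤ P) (hPN : P ^ 3 ≤ N) (hKN : K ≤ N) (α D : ℝ)
    (hD : ∀ q : ℕ, ∀ a : ℤ, 0 < q → q ≤ P → IsCoprime a (q : ℤ) → ∀ y, y ≤ L →
      ‖∑ b ∈ Ioc 0 y, hQ P b * e (b * (a / q))‖ ≤ D) :
    ‖∑ a ∈ Ioc K N, (Λ a : ℂ) * e (a * α)‖ ≤ 1200 * (N / √P) * (1 + Real.log N) ^ 4 ∨
      ‖∑ b ∈ Ioc 0 L, hQ P b * e (b * α)‖ ≤ D * (1 + 2 * Real.pi * L * (P / N)) := by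
  have hN : 1 ≤ N := (Nat.one_le_pow 3 P hP).trans hPN
  have hNr : (0 : ℝ) < N := by exact_mod_cast hN
  have hP0 : 0 < P := hP
  have hPr : (0 : ℝ) < P := by exact_mod_cast hP0
  have hPleN : P ≤ N := by
    refine le_trans ?_ hPN
    calc P = P ^ 1 := (pow_one P).symm
      _ ≤ P ^ 3 := Nat.pow_le_pow_right hP0 (by norm_num)
  set T := N / P with hT
  have hT0 : 0 < T := Nat.div_pos hPleN hP0
  obtain ⟨ρ, hρ1, hρ2⟩ := Real.exists_rat_abs_sub_le_and_den_le α hT0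
  set q := ρ.den with hq
  set a := ρ.num with ha
  have hq0 : 0 < q := ρ.den_pos
  have hqr : (0 : ℝ) < q := by exact_mod_cast hq0
  have hρ : (ρ : ℝ) = a / q := by
    rw [ha, hq]
    exact Rat.cast_def ρ
  have hco : IsCoprime a (q : ℤ) := by
    rw [Int.isCoprime_iff_gcd_eq_one]
    exact ρ.reduced
  rw [hρ] at hρ1
  have hqP : q * P ≤ N := (Nat.mul_le_mul_right P hρ2).trans (Nat.div_mul_le_self N P)
  rcases Nat.lt_or_ge q P with h | h
  · right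
    have h1 : |α - a / q| ≤ P / N := by
      refine hρ1.trans ?_
      rw [div_le_div_iff₀ (by positivity) hNr]
      have h2 : N < P * (T + 1) := Nat.lt_mul_div_succ N hP0
      have h3 : (N : ℝ) ≤ P * (T + 1) := by exact_mod_cast h2.le
      have h4 : (1 : ℝ) ≤ q := by exact_mod_cast hq0
      have h5 : (0 : ℝ) ≤ P * (T + 1) := by positivity
      nlinarith
    have h2 := major_arc (hQ P) L α (a / q) D (fun y hy => hD q a hq0 h.le hco y hy)
    have hD0 : 0 ≤ D := (norm_nonneg _).trans (hD q a hq0 h.le hco 0 (Nat.zero_le _))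
    refine h2.trans ?_
    gcongr
  · left
    have h1 : |α - a / q| ≤ 1 / (q : ℝ) ^ 2 := by
      refine hρ1.trans ?_
      have h2 : (q : ℝ) ≤ T + 1 := by
        have : (q : ℝ) ≤ T := by exact_mod_cast hρ2
        linarith
      rw [sq]
      gcongr
    have h2 := vin_P N P q a α hP hPN h hqP hco h1 N le_rfl
    have h3 := vin_P N P q a α hP hPN h hqP hco h1 K hKN
    have h4 : ∑ b ∈ Ioc K N, (Λ b : ℂ) * e (b * α)
        = ∑ b ∈ Ioc 0 N, (Λ b : ℂ) * e (b * α) - ∑ b ∈ Ioc 0 K, (Λ b : ℂ) * e (b * α) := by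
      rw [← Finset.sum_Ioc_consecutive _ (Nat.zero_le K) hKN]
      ring
    rw [h4]
    refine (norm_sub_le _ _).trans ?_
    linarith

/-- The parameter. -/
noncomputable def Pp (A L : ℕ) : ℕ := ⌊(Real.log L) ^ (2 * A + 20)⌋₊

theorem Pp_le (A L : ℕ) (hx : 1 ≤ Real.log L) : (Pp A L : ℝ) ≤ (Real.log L) ^ (2 * A + 20) :=
  Nat.floor_le (by positivity)

theorem one_le_Pp (A L : ℕ) (hx : 1 ≤ Real.log L) : 1 ≤ Pp A L := by
  unfold Pp
  rw [Nat.one_le_floor_iff]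
  exact one_le_pow₀ hx

theorem le_sqrt_Pp (A L : ℕ) (hx : 1 ≤ Real.log L) :
    (Real.log L) ^ (A + 10) ≤ 3 / 2 * √(Pp A L : ℝ) := by
  have h1 : (Real.log L) ^ (2 * A + 20) ≤ 2 * Pp A L := by
    have h2 := Nat.lt_floor_add_one ((Real.log L) ^ (2 * A + 20))
    have h3 : (1 : ℝ) ≤ Pp A L := by exact_mod_cast one_le_Pp A L hx
    unfold Pp at h3 ⊢
    linarith
  have h2 : (Real.log L) ^ (A + 10) = √((Real.log L) ^ (2 * A + 20)) := by
    have : (Real.log L) ^ (2 * A + 20) = ((Real.log L) ^ (A + 10)) ^ 2 := by ring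
    rw [this, Real.sqrt_sq (by positivity)]
  rw [h2]
  calc √((Real.log L) ^ (2 * A + 20)) ≤ √(2 * Pp A L) := Real.sqrt_le_sqrt h1
    _ = √2 * √(Pp A L : ℝ) := Real.sqrt_mul (by norm_num) _
    _ ≤ 3 / 2 * √(Pp A L : ℝ) := by
        gcongr
        rw [Real.sqrt_le_left (by norm_num)]
        norm_num

theorem mean_sq (A B0 : ℕ) : ∃ C : ℝ, 0 < C ∧ ∃ L0 : ℝ, ∀ N K L : ℕ, L0 ≤ L → K ≤ N → N ≤ L →
    (L : ℝ) ≤ N * (Real.log L) ^ B0 →
    ∑ m ∈ range (N + L + 1), ‖∑ a ∈ Ioc K N, ∑ b ∈ Ioc 0 L,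
      if a + b = m then (Λ a : ℂ) * hQ (Pp A L) b else 0‖ ^ 2
      ≤ C * ((N : ℝ) ^ 2 * L / (Real.log L) ^ A) := by
  set B : ℕ := 2 * A + 20 with hB
  set A1 : ℕ := A + 2 * B0 + B + 2 with hA1
  obtain ⟨C1, hC1, hexp⟩ := expsum_unif A1 B
  obtain ⟨L1, hL1⟩ := log_pow_eventually (3 * B + A1) C1 hC1
  obtain ⟨L2, hL2⟩ := log_pow_eventually (4 * B + B0) 1 one_pos
  refine ⟨1200 ^ 2 * 3840 + 256 * C1 ^ 2, by positivity, max (max L1 L2) 3, ?_⟩
  intro N K L hL0 hKN hNL hLN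
  have hLr1 : L1 ≤ L := (le_max_left L1 L2).trans ((le_max_left _ _).trans hL0)
  have hLr2 : L2 ≤ L := (le_max_right L1 L2).trans ((le_max_left _ _).trans hL0)
  have hL3 : (3 : ℝ) ≤ L := (le_max_right _ _).trans hL0
  have hx : 1 ≤ Real.log L := one_le_log hL3
  set x := Real.log L with hxdef
  have hx0 : 0 < x := by linarith
  have hc1 := hL1 L hLr1
  have hc2 := hL2 L hLr2
  rw [← hxdef] at hc1 hc2
  have hsL : √(L : ℝ) ≤ L := by
    rw [Real.sqrt_le_left (by linarith)]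
    nlinarith
  set P := Pp A L with hPdef
  have hP1 : 1 ≤ P := one_le_Pp A L hx
  have hPr1 : (1 : ℝ) ≤ P := by exact_mod_cast hP1
  have hPx : (P : ℝ) ≤ x ^ B := Pp_le A L hx
  have hPs : x ^ (A + 10) ≤ 3 / 2 * √(P : ℝ) := le_sqrt_Pp A L hx
  have hNpos : 0 < N := by
    rcases Nat.eq_zero_or_pos N with h | h
    · subst h
      simp only [Nat.cast_zero, zero_mul] at hLN
      linarith
    · exact h
  have hNr : (1 : ℝ) ≤ N := by exact_mod_cast hNpos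
  have hNLr : (N : ℝ) ≤ L := by exact_mod_cast hNL
  -- `P^4 ≤ L`
  have hP4 : P ^ 4 ≤ L := by
    have h1 : (P : ℝ) ^ 4 ≤ L := by
      calc (P : ℝ) ^ 4 ≤ (x ^ B) ^ 4 := by gcongr
        _ = x ^ (4 * B) := by rw [← pow_mul]; ring_nf
        _ ≤ x ^ (4 * B + B0) := pow_le_pow_right₀ hx (by omega)
        _ ≤ 1 * √L := hc2
        _ ≤ L := by rw [one_mul]; exact hsL
    exact_mod_cast h1
  have hP3 : P ^ 3 ≤ N := by
    have h1 : (P : ℝ) ^ 3 * x ^ B0 ≤ N * x ^ B0 := by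
      calc (P : ℝ) ^ 3 * x ^ B0 ≤ (x ^ B) ^ 3 * x ^ B0 := by gcongr
        _ = x ^ (3 * B + B0) := by rw [← pow_mul, ← pow_add]; ring_nf
        _ ≤ x ^ (4 * B + B0) := pow_le_pow_right₀ hx (by omega)
        _ ≤ 1 * √L := hc2
        _ ≤ L := by rw [one_mul]; exact hsL
        _ ≤ N * x ^ B0 := hLN
    have h2 : (P : ℝ) ^ 3 ≤ N := le_of_mul_le_mul_right h1 (by positivity)
    exact_mod_cast h2
  -- the bound `D`
  set D : ℝ := 2 * C1 * (L / x ^ A1) with hD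
  have hDb : ∀ q : ℕ, ∀ a : ℤ, 0 < q → q ≤ P → IsCoprime a (q : ℤ) → ∀ y, y ≤ L →
      ‖∑ b ∈ Ioc 0 y, hQ P b * e (b * (a / q))‖ ≤ D := by
    intro q a hq hqP hco y hy
    have e1 := hexp q a hq hco L (by linarith) (by
      have : (q : ℝ) ≤ P := by exact_mod_cast hqP
      exact this.trans hPx) y (by exact_mod_cast hy)
    have e2 := Lam_twist P q a hq hqP hco y
    have e3 : (P : ℝ) ^ 3 ≤ C1 * (L / x ^ A1) := by
      rw [← mul_div_assoc, le_div_iff₀ (by positivity)]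
      calc (P : ℝ) ^ 3 * x ^ A1 ≤ (x ^ B) ^ 3 * x ^ A1 := by gcongr
        _ = x ^ (3 * B + A1) := by rw [← pow_mul, ← pow_add]; ring_nf
        _ ≤ C1 * √L := hc1
        _ ≤ C1 * L := by gcongr
    have e4 : ∑ b ∈ Ioc 0 y, hQ P b * e (b * (a / q))
        = (∑ n ∈ Ioc 0 y, (Λ n : ℂ) * e (n * (a / q)) - ((μ q : ℝ) / (q.totient : ℝ) * y : ℝ))
          - (∑ b ∈ Ioc 0 y, Lam P b * e (b * (a / q)) - ((wq q * y : ℝ) : ℂ)) := by
      have : ∑ b ∈ Ioc 0 y, hQ P b * e (b * (a / q))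
          = ∑ n ∈ Ioc 0 y, (Λ n : ℂ) * e (n * (a / q))
            - ∑ b ∈ Ioc 0 y, Lam P b * e (b * (a / q)) := by
        rw [← sum_sub_distrib]
        exact sum_congr rfl fun b _ => by rw [hQ]; ring
      rw [this]
      unfold wq
      ring
    rw [e4]
    refine (norm_sub_le _ _).trans ?_
    calc _ ≤ C1 * (L / x ^ A1) + (P : ℝ) ^ 3 := add_le_add e1 e2
      _ ≤ C1 * (L / x ^ A1) + C1 * (L / x ^ A1) := by gcongr
      _ = D := by rw [hD]; ring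
  have hcirc := circle_ineq (N + L + 1) (by omega) (Ioc K N) (Ioc 0 L)
    (fun a ha => by rw [mem_Ioc] at ha; omega) (fun b hb => by rw [mem_Ioc] at hb; omega)
    (fun a ha b hb => by rw [mem_Ioc] at ha hb; omega) (fun a => (Λ a : ℂ)) (hQ P)
    (1200 * (N / √P) * (1 + Real.log N) ^ 4) (D * (1 + 2 * Real.pi * L * (P / N)))
    (fun k _ => arcs N K L P hP1 hP3 hKN _ D hDb)
  refine hcirc.trans ?_
  have hh := hQ_sq P L (by omega) hP4 hP1 hx
  rw [← hxdef] at hh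
  have hf : ∑ a ∈ Ioc K N, ‖(Λ a : ℂ)‖ ^ 2 ≤ N * x ^ 2 := by
    calc ∑ a ∈ Ioc K N, ‖(Λ a : ℂ)‖ ^ 2 ≤ ∑ a ∈ Ioc K N, x ^ 2 := by
          refine sum_le_sum fun a ha => ?_
          rw [mem_Ioc] at ha
          rw [Complex.norm_real, Real.norm_eq_abs, abs_of_nonneg vonMangoldt_nonneg]
          have : Λ a ≤ x := by
            refine vonMangoldt_le_log.trans ?_
            exact Real.log_le_log (by exact_mod_cast (by omega : 0 < a))
              (by exact_mod_cast (ha.2.trans hNL))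
          have h0 : 0 ≤ Λ a := vonMangoldt_nonneg
          gcongr
      _ = ((N - K : ℕ) : ℝ) * x ^ 2 := by rw [sum_const, Nat.card_Ioc, nsmul_eq_mul]
      _ ≤ N * x ^ 2 := by
          gcongr
          exact Nat.sub_le N K
  set s := √(P : ℝ) with hs
  have hs1 : 1 ≤ s := by rw [hs, Real.one_le_sqrt]; exact hPr1
  have hs0 : 0 < s := by linarith
  have hlogN : 1 + Real.log N ≤ 2 * x := by
    have : Real.log N ≤ x := Real.log_le_log (by linarith) hNLr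
    linarith
  have hlogN0 : 0 ≤ Real.log N := Real.log_nonneg hNr
  -- the minor arc part
  have hpart1 : (1200 * (N / s) * (1 + Real.log N) ^ 4) ^ 2 * ∑ b ∈ Ioc 0 L, ‖hQ P b‖ ^ 2
      ≤ 1200 ^ 2 * 3840 * ((N : ℝ) ^ 2 * L / x ^ A) := by
    have e1 : (1200 * ((N : ℝ) / s) * (1 + Real.log N) ^ 4) ^ 2
        ≤ (1200 * ((N : ℝ) / s) * (2 * x) ^ 4) ^ 2 := by gcongr
    calc (1200 * (N / s) * (1 + Real.log N) ^ 4) ^ 2 * ∑ b ∈ Ioc 0 L, ‖hQ P b‖ ^ 2
        ≤ (1200 * ((N : ℝ) / s) * (2 * x) ^ 4) ^ 2 * (10 * (L * s * x ^ 2)) := by gcongr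
      _ = 1200 ^ 2 * 2560 * ((N : ℝ) ^ 2 * L) * (x ^ 10 / s) := by
          field_simp
          ring
      _ ≤ 1200 ^ 2 * 2560 * ((N : ℝ) ^ 2 * L) * ((3 / 2) / x ^ A) := by
          refine mul_le_mul_of_nonneg_left ?_ (by positivity)
          rw [div_le_div_iff₀ hs0 (by positivity), ← pow_add, add_comm 10 A]
          exact hPs
      _ = _ := by ring
  have hpart2 : (D * (1 + 2 * Real.pi * L * (P / N))) ^ 2 * ∑ a ∈ Ioc K N, ‖(Λ a : ℂ)‖ ^ 2
      ≤ 256 * C1 ^ 2 * ((N : ℝ) ^ 2 * L / x ^ A) := by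
    have e1 : 1 + 2 * Real.pi * L * (P / N) ≤ 8 * x ^ (B0 + B) := by
      have e2 : (L : ℝ) * (P / N) ≤ x ^ (B0 + B) := by
        rw [← mul_div_assoc, div_le_iff₀ (by linarith)]
        calc (L : ℝ) * P ≤ (N * x ^ B0) * x ^ B := by gcongr
          _ = x ^ (B0 + B) * N := by rw [pow_add]; ring
      have e3 : 1 ≤ x ^ (B0 + B) := one_le_pow₀ hx
      have e4 := Real.pi_lt_d2
      have e5 := Real.pi_pos
      have e6 : 2 * Real.pi * L * (P / N) ≤ 2 * Real.pi * x ^ (B0 + B) := by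
        rw [mul_assoc (2 * Real.pi)]
        gcongr
      nlinarith
    have e7 : D * (1 + 2 * Real.pi * L * (P / N)) ≤ 16 * C1 * (L / x ^ (A + B0 + 2)) := by
      calc D * (1 + 2 * Real.pi * L * (P / N)) ≤ D * (8 * x ^ (B0 + B)) := by gcongr
        _ = 16 * C1 * (L / x ^ (A + B0 + 2)) := by
            rw [hD, hA1]
            have : x ^ (A + 2 * B0 + B + 2) = x ^ (A + B0 + 2) * x ^ (B0 + B) := by
              rw [← pow_add]; congr 1; ring
            rw [this]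
            field_simp
            ring
    have e8 : 0 ≤ D * (1 + 2 * Real.pi * L * (P / N)) := by positivity
    calc (D * (1 + 2 * Real.pi * L * (P / N))) ^ 2 * ∑ a ∈ Ioc K N, ‖(Λ a : ℂ)‖ ^ 2
        ≤ (16 * C1 * (L / x ^ (A + B0 + 2))) ^ 2 * (N * x ^ 2) := by gcongr
      _ = 256 * C1 ^ 2 * (L * N) * (L / x ^ (2 * A + 2 * B0 + 2)) := by
          have : (x ^ (A + B0 + 2)) ^ 2 = x ^ (2 * A + 2 * B0 + 2) * x ^ 2 := by
            rw [← pow_mul, ← pow_add]; congr 1; ring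
          rw [mul_pow, div_pow, this]
          field_simp
          ring
      _ ≤ 256 * C1 ^ 2 * (L * N) * ((N * x ^ B0) / x ^ (2 * A + 2 * B0 + 2)) := by gcongr
      _ = 256 * C1 ^ 2 * ((N : ℝ) ^ 2 * L) * (1 / x ^ (2 * A + B0 + 2)) := by
          have : x ^ (2 * A + 2 * B0 + 2) = x ^ (2 * A + B0 + 2) * x ^ B0 := by
            rw [← pow_add]; congr 1; ring
          rw [this]
          field_simp
      _ ≤ 256 * C1 ^ 2 * ((N : ℝ) ^ 2 * L) * (1 / x ^ A) := by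
          gcongr
          omega
      _ = _ := by ring
  calc _ ≤ 1200 ^ 2 * 3840 * ((N : ℝ) ^ 2 * L / x ^ A)
        + 256 * C1 ^ 2 * ((N : ℝ) ^ 2 * L / x ^ A) := add_le_add hpart1 hpart2
    _ = _ := by ring

end Pool.Agent.Circle
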