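import Pool.Agent.Work.Circle.Main
import Pool.Agent.Work.Circle.Divisor

/-!
Almost all even integers in `(N, L]` have many representations `a + b` with `K < a ≤ N`.
-/

set_option autoImplicit false

namespace Pool.Agent.Circle

open Finset ArithmeticFunction Pool.Agent.SW
open scoped ArithmeticFunction.Moebius

/-- The lower bound for the truncated singular series. -/
def SingLower : Prop := ∃ C : ℝ, 0 < C ∧ ∀ Q : ℕ, 1 ≤ Q → ∀ m : ℕ, 0 < m → Even m →
  1 - C * (m.divisors.card : ℝ) / √Q ≤ sing Q m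

theorem almost_all (hs : SingLower) (A B0 : ℕ) : ∃ C : ℝ, 0 < C ∧ ∃ L0 : ℝ, ∀ N K L : ℕ,
    L0 ≤ L → 2 * K ≤ N → N ≤ L → (L : ℝ) ≤ N * (Real.log L) ^ B0 →
    (((Ioc N L).filter (fun m => Even m ∧ ∑ a ∈ Ioc K N, Λ a * Λ (m - a) < N / 8)).card : ℝ)
      ≤ C * (L / (Real.log L) ^ A) := by
  obtain ⟨C1, hC1, L1, hmean⟩ := mean_sq A B0
  obtain ⟨L2, hmain⟩ := main_term A B0
  obtain ⟨C3, hC3, hsing⟩ := hs
  refine ⟨64 * C1 + 12 * C3, by positivity, max (max L1 L2) 3, ?_⟩
  intro N K L hL0 hKN2 hNL hLN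
  have hLr1 : L1 ≤ L := (le_max_left L1 L2).trans ((le_max_left _ _).trans hL0)
  have hLr2 : L2 ≤ L := (le_max_right L1 L2).trans ((le_max_left _ _).trans hL0)
  have hL3 : (3 : ℝ) ≤ L := (le_max_right _ _).trans hL0
  have hx : 1 ≤ Real.log L := one_le_log hL3
  have hKN : K ≤ N := by omega
  have hms := hmean N K L hLr1 hKN hNL hLN
  have hmt := hmain N K L hLr2 hKN hNL hLN
  set x := Real.log L with hxdef
  have hx0 : 0 < x := by linarith
  set P := Pp A L with hPdef
  have hP1 : 1 ≤ P := one_le_Pp A L hx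
  have hPs : x ^ (A + 10) ≤ 3 / 2 * √(P : ℝ) := le_sqrt_Pp A L hx
  have hNpos : 0 < N := by
    rcases Nat.eq_zero_or_pos N with h | h
    · subst h
      simp only [Nat.cast_zero, zero_mul] at hLN
      linarith
    · exact h
  have hNr : (0 : ℝ) < N := by exact_mod_cast hNpos
  set s := √(P : ℝ) with hsdef
  have hs1 : 1 ≤ s := by rw [hsdef, Real.one_le_sqrt]; exact_mod_cast hP1
  have hs0 : 0 < s := by linarith
  set E : ℕ → ℂ := fun m => ∑ a ∈ Ioc K N, ∑ b ∈ Ioc 0 L,
      if a + b = m then (Λ a : ℂ) * hQ P b else 0 with hE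
  -- the two exceptional sets
  set Bad1 := (range (N + L + 1)).filter (fun m => (N : ℝ) / 8 < ‖E m‖) with hB1
  set Bad2 := (Ioc 0 L).filter (fun m : ℕ => s < 4 * C3 * (m.divisors.card : ℝ)) with hB2
  have hsub : (Ioc N L).filter (fun m => Even m ∧ ∑ a ∈ Ioc K N, Λ a * Λ (m - a) < N / 8)
      ⊆ Bad1 ∪ Bad2 := by
    intro m hm
    rw [mem_filter, mem_Ioc] at hm
    obtain ⟨⟨hNm, hmL⟩, hev, hlt⟩ := hm
    by_contra hnot
    rw [mem_union, not_or, hB1, hB2, mem_filter, mem_filter, not_and, not_and, mem_range,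
      mem_Ioc] at hnot
    obtain ⟨h1, h2⟩ := hnot
    have h1' := not_lt.mp (h1 (by omega))
    have h2' := not_lt.mp (h2 ⟨by omega, hmL⟩)
    -- the identity
    have hEm : E m = ∑ a ∈ Ioc K N, (Λ a : ℂ) * hQ P (m - a) := by
      rw [hE]
      refine sum_congr rfl fun a ha => ?_
      rw [mem_Ioc] at ha
      rw [sum_eq_single (m - a)]
      · rw [if_pos (by omega)]
      · intro b _ hb
        rw [if_neg]
        omega
      · intro hb
        exfalso
        apply hb
        rw [mem_Ioc]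
        omega
    have hid : ((∑ a ∈ Ioc K N, Λ a * Λ (m - a) : ℝ) : ℂ)
        = E m + ∑ a ∈ Ioc K N, (Λ a : ℂ) * Lam P (m - a) := by
      rw [hEm, ← sum_add_distrib]
      push_cast
      refine sum_congr rfl fun a _ => ?_
      rw [hQ]
      ring
    have h3 := hmt m hNm
    have h4 : |∑ a ∈ Ioc K N, Λ a * Λ (m - a) - ((N : ℝ) - K) * sing P m| ≤ N / 8 + N / 8 := by
      have h5 : ((∑ a ∈ Ioc K N, Λ a * Λ (m - a) - ((N : ℝ) - K) * sing P m : ℝ) : ℂ)
          = E m + (∑ a ∈ Ioc K N, (Λ a : ℂ) * Lam P (m - a) - (((N : ℝ) - K) * sing P m : ℝ)) := by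
        rw [Complex.ofReal_sub, hid]
        ring
      have h6 : |∑ a ∈ Ioc K N, Λ a * Λ (m - a) - ((N : ℝ) - K) * sing P m|
          = ‖((∑ a ∈ Ioc K N, Λ a * Λ (m - a) - ((N : ℝ) - K) * sing P m : ℝ) : ℂ)‖ := by
        rw [Complex.norm_real, Real.norm_eq_abs]
      rw [h6, h5]
      exact (norm_add_le _ _).trans (add_le_add h1' h3)
    have h5 := hsing P hP1 m (by omega) hev
    have h6 : C3 * (m.divisors.card : ℝ) / √P ≤ 1 / 4 := by
      rw [← hsdef, div_le_iff₀ hs0]
      linarith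
    have h7 : 3 / 4 ≤ sing P m := by linarith
    have h8 : (N : ℝ) / 2 ≤ (N : ℝ) - K := by
      have : 2 * (K : ℝ) ≤ N := by exact_mod_cast hKN2
      linarith
    have h9 : (N : ℝ) / 2 * (3 / 4) ≤ ((N : ℝ) - K) * sing P m := by
      apply mul_le_mul h8 h7 (by norm_num) (by linarith)
    have h10 := abs_le.mp h4
    linarith [h10.1]
  have hcard1 : (Bad1.card : ℝ) ≤ 64 * C1 * (L / x ^ A) := by
    have h1 : (Bad1.card : ℝ) * ((N : ℝ) / 8) ^ 2 ≤ C1 * ((N : ℝ) ^ 2 * L / x ^ A) := by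
      calc (Bad1.card : ℝ) * ((N : ℝ) / 8) ^ 2 = ∑ m ∈ Bad1, ((N : ℝ) / 8) ^ 2 := by
            rw [sum_const, nsmul_eq_mul]
        _ ≤ ∑ m ∈ Bad1, ‖E m‖ ^ 2 := by
            refine sum_le_sum fun m hm => ?_
            rw [hB1, mem_filter] at hm
            have := hm.2.le
            gcongr
        _ ≤ ∑ m ∈ range (N + L + 1), ‖E m‖ ^ 2 :=
            sum_le_sum_of_subset_of_nonneg (filter_subset _ _) fun _ _ _ => by positivity
        _ ≤ _ := hms
    have h2 : C1 * ((N : ℝ) ^ 2 * L / x ^ A) = (64 * C1 * (L / x ^ A)) * ((N : ℝ) / 8) ^ 2 := by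
      ring
    rw [h2] at h1
    exact le_of_mul_le_mul_right h1 (by positivity)
  have hcard2 : (Bad2.card : ℝ) ≤ 12 * C3 * (L / x ^ A) := by
    have h1 : (Bad2.card : ℝ) * s ≤ 4 * C3 * (L * (1 + x)) := by
      calc (Bad2.card : ℝ) * s = ∑ m ∈ Bad2, s := by rw [sum_const, nsmul_eq_mul]
        _ ≤ ∑ m ∈ Bad2, 4 * C3 * (m.divisors.card : ℝ) := by
            refine sum_le_sum fun m hm => ?_
            rw [hB2, mem_filter] at hm
            exact hm.2.le
        _ ≤ ∑ m ∈ Ioc 0 L, 4 * C3 * (m.divisors.card : ℝ) :=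
            sum_le_sum_of_subset_of_nonneg (filter_subset _ _) fun _ _ _ => by positivity
        _ = 4 * C3 * ∑ m ∈ Ioc 0 L, (m.divisors.card : ℝ) := by rw [mul_sum]
        _ ≤ _ := by
            gcongr
            exact sum_divisors_le L
    have h2 : (Bad2.card : ℝ) ≤ 4 * C3 * (L * (1 + x)) / s := by
      rw [le_div_iff₀ hs0]
      exact h1
    refine h2.trans ?_
    calc 4 * C3 * (L * (1 + x)) / s ≤ 4 * C3 * (L * (2 * x)) / s := by
          gcongr
          linarith
      _ = 8 * C3 * L * (x / s) := by ring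
      _ ≤ 8 * C3 * L * ((3 / 2) / x ^ A) := by
          refine mul_le_mul_of_nonneg_left ?_ (by positivity)
          rw [div_le_div_iff₀ hs0 (by positivity)]
          calc x * x ^ A = x ^ (A + 1) := by ring
            _ ≤ x ^ (A + 10) := pow_le_pow_right₀ hx (by omega)
            _ ≤ _ := hPs
      _ = _ := by ring
  calc (((Ioc N L).filter (fun m => Even m ∧ ∑ a ∈ Ioc K N, Λ a * Λ (m - a) < N / 8)).card : ℝ)
      ≤ ((Bad1 ∪ Bad2).card : ℝ) := by exact_mod_cast card_le_card hsub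
    _ ≤ Bad1.card + Bad2.card := by exact_mod_cast card_union_le _ _
    _ ≤ 64 * C1 * (L / x ^ A) + 12 * C3 * (L / x ^ A) := add_le_add hcard1 hcard2
    _ = _ := by ring

/-- Prime powers contribute little. -/
theorem prime_pairs (N K L m : ℕ) (hNm : N < m) (hmL : m ≤ L) (hN : 1 ≤ N) :
    ∑ a ∈ Ioc K N, Λ a * Λ (m - a)
      ≤ (((Ioc K N).filter (fun p => p.Prime ∧ (m - p).Prime)).card : ℝ) * (Real.log L) ^ 2
        + 4 * (√L * (Real.log L) ^ 2) := by
  have hL1 : 1 ≤ L := by omega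
  have hLr : (1 : ℝ) ≤ L := by exact_mod_cast hL1
  have hx : 0 ≤ Real.log L := Real.log_nonneg hLr
  set x := Real.log L with hxdef
  have hΛ : ∀ b, 0 < b → b ≤ L → Λ b ≤ x := fun b hb hbL => by
    refine vonMangoldt_le_log.trans ?_
    exact Real.log_le_log (by exact_mod_cast hb) (by exact_mod_cast hbL)
  have hnp : ∑ b ∈ (Ioc 0 L).filter (fun b => ¬ b.Prime), Λ b ≤ 2 * √L * x := by
    have h1 := Chebyshev.psi_sub_theta_eq_sum_not_prime (L : ℝ)
    rw [Nat.floor_natCast] at h1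
    rw [← h1]
    exact Chebyshev.psi_sub_theta_le hLr
  have h1 : ∀ a ∈ Ioc K N, Λ a * Λ (m - a)
      ≤ (if a.Prime ∧ (m - a).Prime then x ^ 2 else 0)
        + x * (if ¬ a.Prime then Λ a else 0) + x * (if ¬ (m - a).Prime then Λ (m - a) else 0) := by
    intro a ha
    rw [mem_Ioc] at ha
    have e1 := hΛ a (by omega) (by omega)
    have e2 := hΛ (m - a) (by omega) (by omega)
    have e3 : 0 ≤ Λ a := vonMangoldt_nonneg
    have e4 : 0 ≤ Λ (m - a) := vonMangoldt_nonneg
    by_cases h2 : a.Prime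
    · by_cases h3 : (m - a).Prime
      · rw [if_pos ⟨h2, h3⟩, if_neg (not_not.mpr h2), if_neg (not_not.mpr h3)]
        nlinarith
      · rw [if_neg (fun h => h3 h.2), if_neg (not_not.mpr h2), if_pos h3]
        nlinarith
    · rw [if_neg (fun h => h2 h.1), if_pos h2]
      have e5 : 0 ≤ x * (if ¬ (m - a).Prime then Λ (m - a) else 0) := by
        split_ifs <;> positivity
      nlinarith
  have h2 : ∑ a ∈ Ioc K N, (if ¬ a.Prime then Λ a else 0) ≤ 2 * √L * x := by
    refine le_trans ?_ hnp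
    rw [← sum_filter]
    apply sum_le_sum_of_subset_of_nonneg
    · intro a ha
      rw [mem_filter, mem_Ioc] at ha ⊢
      exact ⟨⟨by omega, by omega⟩, ha.2⟩
    · intro _ _ _
      exact vonMangoldt_nonneg
  have h3 : ∑ a ∈ Ioc K N, (if ¬ (m - a).Prime then Λ (m - a) else 0) ≤ 2 * √L * x := by
    refine le_trans ?_ hnp
    rw [← sum_filter]
    have h4 : ∑ a ∈ (Ioc K N).filter (fun a => ¬ (m - a).Prime), Λ (m - a)
        = ∑ b ∈ ((Ioc K N).filter (fun a => ¬ (m - a).Prime)).image (fun a => m - a), Λ b := by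
      rw [sum_image]
      intro a ha b hb hab
      have ha' := ha
      have hb' := hb
      rw [coe_filter] at ha' hb'
      have ha2 : a ∈ Ioc K N := ha'.1
      have hb2 : b ∈ Ioc K N := hb'.1
      rw [mem_Ioc] at ha2 hb2
      simp only at hab
      omega
    rw [h4]
    apply sum_le_sum_of_subset_of_nonneg
    · intro b hb
      rw [mem_image] at hb
      obtain ⟨a, ha, rfl⟩ := hb
      rw [mem_filter, mem_Ioc] at ha ⊢
      exact ⟨⟨by omega, by omega⟩, ha.2⟩
    · intro _ _ _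
      exact vonMangoldt_nonneg
  refine (sum_le_sum h1).trans ?_
  rw [sum_add_distrib, sum_add_distrib, ← mul_sum, ← mul_sum, ← sum_filter, sum_const,
    nsmul_eq_mul]
  have h4 := mul_le_mul_of_nonneg_left h2 hx
  have h5 := mul_le_mul_of_nonneg_left h3 hx
  nlinarith

end Pool.Agent.Circle
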