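import Pool.Agent.Work.Circle.Ram
import Pool.Agent.Work.SW.AP

/-!
Exponential sums over primes at rationals with small denominators.
-/

set_option autoImplicit false

namespace Pool.Agent.Circle

open Finset ArithmeticFunction Pool.Agent.SW
open scoped ArithmeticFunction.Moebius

theorem e_mod (q : ℕ) (hq : 0 < q) (a : ℤ) (n : ℕ) :
    e (n * (a / q)) = e (((n % q : ℕ) : ℝ) * (a / q)) := by
  have hq0 : (q : ℝ) ≠ 0 := by exact_mod_cast hq.ne'
  have h0 := Nat.div_add_mod n q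
  generalize hk : n / q = k at h0
  have h1 : (n : ℝ) = q * k + (n % q : ℕ) := by
    exact_mod_cast h0.symm
  have h2 : (n : ℝ) * (a / q) = ((n % q : ℕ) : ℝ) * (a / q) + (((k : ℤ) * a : ℤ) : ℝ) := by
    rw [h1]
    push_cast
    field_simp
    ring
  rw [h2, e_add_int]

theorem expsum_prime (A B : ℕ) : ∃ C : ℝ, 0 < C ∧ ∀ (q : ℕ) (a : ℤ), 0 < q → IsCoprime a (q : ℤ) →
    ∀ X : ℝ, 2 ≤ X → (q : ℝ) ≤ (Real.log X) ^ B →
      ‖∑ n ∈ Ioc 0 ⌊X⌋₊, (Λ n : ℂ) * e (n * (a / q)) - ((μ q : ℝ) / (q.totient : ℝ) * X : ℝ)‖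
        ≤ C * (X / (Real.log X) ^ A) := by
  obtain ⟨C1, hC1, h1⟩ := psi_ap (A + B) B
  obtain ⟨K, hK0, hK⟩ : ∃ K : ℝ, 0 < K ∧ ∀ X : ℝ, 1 ≤ X →
      (Real.log X) ^ (A + B + 1) ≤ K * √X := by
    refine ⟨_, ?_, fun X hX => log_pow_le_sqrt (A + B + 1) X hX⟩
    positivity
  refine ⟨C1 + 2 * K, by positivity, ?_⟩
  intro q a hq0 hco X hX hqX
  have : NeZero q := ⟨hq0.ne'⟩
  have hlog : 0 < Real.log X := Real.log_pos (by linarith)
  have hXA : 0 ≤ X / (Real.log X) ^ A := by positivity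
  have hφ : (0 : ℝ) < q.totient := by exact_mod_cast Nat.totient_pos.mpr hq0
  have hφc : (q.totient : ℂ) ≠ 0 := by exact_mod_cast hφ.ne'
  set N := ⌊X⌋₊ with hN
  set ψc : ℕ → ℝ := fun c => ∑ n ∈ (Ioc 0 N).filter (fun n : ℕ => (n : ZMod q) = (c : ZMod q)), Λ n
    with hψc
  -- split into coprime and non-coprime
  have h2 : ∑ n ∈ Ioc 0 N, (Λ n : ℂ) * e (n * (a / q))
      = ∑ n ∈ (Ioc 0 N).filter (fun n => n.Coprime q), (Λ n : ℂ) * e (n * (a / q))
        + ∑ n ∈ (Ioc 0 N).filter (fun n => ¬ n.Coprime q), (Λ n : ℂ) * e (n * (a / q)) :=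
    (sum_filter_add_sum_filter_not _ _ _).symm
  have h3 : ∑ n ∈ (Ioc 0 N).filter (fun n => n.Coprime q), (Λ n : ℂ) * e (n * (a / q))
      = ∑ c ∈ cop q, e (c * (a / q)) * (ψc c : ℂ) := by
    have hmaps : ∀ n ∈ (Ioc 0 N).filter (fun n => n.Coprime q), n % q ∈ cop q := by
      intro n hn
      rw [mem_filter] at hn
      rw [mem_cop]
      refine ⟨Nat.mod_lt _ hq0, ?_⟩
      rw [Nat.Coprime, Nat.gcd_comm, ← Nat.gcd_rec, Nat.gcd_comm]
      exact hn.2
    rw [← sum_fiberwise_of_maps_to hmaps]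
    refine sum_congr rfl fun c hc => ?_
    rw [mem_cop] at hc
    rw [hψc]
    push_cast
    rw [mul_sum]
    have hset : ((Ioc 0 N).filter (fun n => n.Coprime q)).filter (fun n => n % q = c)
        = (Ioc 0 N).filter (fun n : ℕ => (n : ZMod q) = (c : ZMod q)) := by
      ext n
      simp only [mem_filter]
      rw [ZMod.natCast_eq_natCast_iff', Nat.mod_eq_of_lt hc.1]
      constructor
      · rintro ⟨⟨h4, _⟩, h5⟩
        exact ⟨h4, h5⟩
      · rintro ⟨h4, h5⟩
        refine ⟨⟨h4, ?_⟩, h5⟩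
        rw [← h5] at hc
        have h6 := hc.2
        rw [Nat.Coprime, Nat.gcd_comm, ← Nat.gcd_rec] at h6
        rw [Nat.coprime_comm]
        exact h6
    rw [hset]
    refine sum_congr rfl fun n hn => ?_
    rw [mem_filter, ZMod.natCast_eq_natCast_iff', Nat.mod_eq_of_lt hc.1] at hn
    rw [e_mod q hq0 a n, hn.2]
    ring
  have h4 : ∑ c ∈ cop q, e (c * (a / q)) * (ψc c : ℂ) - ((μ q : ℝ) / (q.totient : ℝ) * X : ℝ)
      = ∑ c ∈ cop q, e (c * (a / q)) * ((ψc c - X / q.totient : ℝ) : ℂ) := by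
    have h5 : ((μ q : ℝ) / (q.totient : ℝ) * X : ℝ) = ∑ c ∈ cop q, e (c * (a / q)) * (X / q.totient : ℂ) := by
      rw [← sum_mul]
      have h6 := ram_coprime q hq0 a hco
      unfold ram at h6
      rw [h6]
      push_cast
      ring
    rw [h5, ← sum_sub_distrib]
    refine sum_congr rfl fun c _ => ?_
    push_cast
    ring
  have h5 : ‖∑ c ∈ cop q, e (c * (a / q)) * ((ψc c - X / q.totient : ℝ) : ℂ)‖
      ≤ C1 * (X / (Real.log X) ^ A) := by
    calc ‖∑ c ∈ cop q, e (c * (a / q)) * ((ψc c - X / q.totient : ℝ) : ℂ)‖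
        ≤ ∑ c ∈ cop q, C1 * (X / (Real.log X) ^ (A + B)) := by
          refine norm_sum_le_of_le _ fun c hc => ?_
          rw [norm_mul, norm_e, one_mul, Complex.norm_real]
          apply h1 q (c : ZMod q) _ X hX hqX
          rw [ZMod.isUnit_iff_coprime]
          exact ((mem_cop q c).mp hc).2.symm
      _ = q.totient * (C1 * (X / (Real.log X) ^ (A + B))) := by
          rw [sum_const, nsmul_eq_mul, card_cop]
      _ ≤ (Real.log X) ^ B * (C1 * (X / (Real.log X) ^ (A + B))) := by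
          gcongr
          exact (Nat.cast_le.mpr (Nat.totient_le q)).trans hqX
      _ = C1 * (X / (Real.log X) ^ A) := by
          rw [pow_add]
          field_simp
  have h6 : ‖∑ n ∈ (Ioc 0 N).filter (fun n => ¬ n.Coprime q), (Λ n : ℂ) * e (n * (a / q))‖
      ≤ 2 * K * (X / (Real.log X) ^ A) := by
    calc ‖∑ n ∈ (Ioc 0 N).filter (fun n => ¬ n.Coprime q), (Λ n : ℂ) * e (n * (a / q))‖
        ≤ ∑ n ∈ (Ioc 0 N).filter (fun n => ¬ n.Coprime q), Λ n := by
          refine norm_sum_le_of_le _ fun n _ => ?_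
          rw [norm_mul, norm_e, mul_one, Complex.norm_real, Real.norm_eq_abs,
            abs_of_nonneg vonMangoldt_nonneg]
      _ ≤ Real.log q * Real.log N / Real.log 2 := nc_sum_le N q hq0
      _ ≤ (Real.log X) ^ B * Real.log X / (1 / 2) := by
          have a1 : Real.log (q : ℝ) ≤ (Real.log X) ^ B :=
            (Real.log_le_self (Nat.cast_nonneg _)).trans hqX
          have a2 : Real.log (N : ℝ) ≤ Real.log X := by
            apply Real.log_le_log
            · exact_mod_cast Nat.floor_pos.mpr (by linarith)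
            · exact Nat.floor_le (by linarith)
          have a3 : 1 / 2 ≤ Real.log 2 := by
            have h1 := Real.log_two_gt_d9
            linarith
          gcongr
      _ = 2 * ((Real.log X) ^ (A + B + 1) / (Real.log X) ^ A) := by
          have : (Real.log X) ^ (A + B + 1) = (Real.log X) ^ A * ((Real.log X) ^ B * Real.log X) := by
            ring
          rw [this, mul_div_cancel_left₀ _ (by positivity)]
          ring
      _ ≤ 2 * (K * X / (Real.log X) ^ A) := by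
          gcongr
          refine (hK X (by linarith)).trans ?_
          gcongr
          rw [Real.sqrt_le_left (by linarith)]
          nlinarith
      _ = _ := by ring
  calc ‖∑ n ∈ Ioc 0 N, (Λ n : ℂ) * e (n * (a / q)) - ((μ q : ℝ) / (q.totient : ℝ) * X : ℝ)‖
      = ‖(∑ c ∈ cop q, e (c * (a / q)) * (ψc c : ℂ) - ((μ q : ℝ) / (q.totient : ℝ) * X : ℝ))
        + ∑ n ∈ (Ioc 0 N).filter (fun n => ¬ n.Coprime q), (Λ n : ℂ) * e (n * (a / q))‖ := by
        rw [h2, h3]
        congr 1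
        ring
    _ ≤ C1 * (X / (Real.log X) ^ A) + 2 * K * (X / (Real.log X) ^ A) := by
        rw [h4]
        exact (norm_add_le _ _).trans (add_le_add h5 h6)
    _ = _ := by ring

theorem norm_sum_lam_e_le (y : ℕ) (X : ℝ) (hX : 1 ≤ X) (hy : (y : ℝ) ≤ X) (α : ℝ) :
    ‖∑ n ∈ Ioc 0 y, (Λ n : ℂ) * e (n * α)‖ ≤ y * Real.log X := by
  have hlog : 0 ≤ Real.log X := Real.log_nonneg hX
  calc ‖∑ n ∈ Ioc 0 y, (Λ n : ℂ) * e (n * α)‖ ≤ ∑ n ∈ Ioc 0 y, Real.log X := by
        refine norm_sum_le_of_le _ fun n hn => ?_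
        rw [mem_Ioc] at hn
        rw [norm_mul, norm_e, mul_one, Complex.norm_real, Real.norm_eq_abs,
            abs_of_nonneg vonMangoldt_nonneg]
        refine vonMangoldt_le_log.trans ?_
        apply Real.log_le_log (by exact_mod_cast hn.1)
        exact (Nat.cast_le.mpr hn.2).trans hy
    _ = y * Real.log X := by rw [sum_const, Nat.card_Ioc, nsmul_eq_mul, Nat.sub_zero]

theorem abs_mu_div_phi_le (q : ℕ) (hq : 0 < q) : |(μ q : ℝ) / (q.totient : ℝ)| ≤ 1 := by
  have hφ : (1 : ℝ) ≤ q.totient := by exact_mod_cast Nat.totient_pos.mpr hq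
  have h1 : |(μ q : ℝ)| ≤ 1 := by
    have := abs_moebius_le_one (n := q)
    exact_mod_cast this
  rw [abs_div, abs_of_pos (by linarith : (0 : ℝ) < q.totient), div_le_one (by linarith)]
  linarith

/-- The uniform version. -/
theorem expsum_unif (A B : ℕ) : ∃ C : ℝ, 0 < C ∧ ∀ (q : ℕ) (a : ℤ), 0 < q → IsCoprime a (q : ℤ) →
    ∀ X : ℝ, 2 ≤ X → (q : ℝ) ≤ (Real.log X) ^ B → ∀ y : ℕ, (y : ℝ) ≤ X →
      ‖∑ n ∈ Ioc 0 y, (Λ n : ℂ) * e (n * (a / q)) - ((μ q : ℝ) / (q.totient : ℝ) * y : ℝ)‖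
        ≤ C * (X / (Real.log X) ^ A) := by
  obtain ⟨C1, hC1, h1⟩ := expsum_prime A (2 * B)
  obtain ⟨K1, hK10, hK1⟩ : ∃ K : ℝ, 0 < K ∧ ∀ X : ℝ, 1 ≤ X → (Real.log X) ^ A ≤ K * √X := by
    refine ⟨_, ?_, fun X hX => log_pow_le_sqrt A X hX⟩
    positivity
  obtain ⟨K2, hK20, hK2⟩ : ∃ K : ℝ, 0 < K ∧ ∀ X : ℝ, 1 ≤ X → (Real.log X) ^ (A + 1) ≤ K * √X := by
    refine ⟨_, ?_, fun X hX => log_pow_le_sqrt (A + 1) X hX⟩
    positivity
  refine ⟨C1 * 2 ^ A + 8 * (K1 + K2), by positivity, ?_⟩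
  intro q a hq0 hco X hX hqX y hy
  have hlog : 0 < Real.log X := Real.log_pos (by linarith)
  have hXA : 0 ≤ X / (Real.log X) ^ A := by positivity
  have hsX : 1 ≤ √X := by rw [Real.one_le_sqrt]; linarith
  have hss : √X * √X = X := Real.mul_self_sqrt (by linarith)
  by_cases hy8 : (y : ℝ) ≤ 8 * √X
  · have e1 := norm_sum_lam_e_le y X (by linarith) hy (a / q)
    have e2 : ‖(((μ q : ℝ) / (q.totient : ℝ) * y : ℝ) : ℂ)‖ ≤ y := by
      rw [Complex.norm_real, Real.norm_eq_abs, abs_mul,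
        abs_of_nonneg (show (0 : ℝ) ≤ (y : ℝ) from Nat.cast_nonneg y)]
      exact mul_le_of_le_one_left (Nat.cast_nonneg y) (abs_mu_div_phi_le q hq0)
    calc ‖∑ n ∈ Ioc 0 y, (Λ n : ℂ) * e (n * (a / q)) - ((μ q : ℝ) / (q.totient : ℝ) * y : ℝ)‖
        ≤ y * Real.log X + y := (norm_sub_le _ _).trans (add_le_add e1 e2)
      _ = y * (Real.log X + 1) := by ring
      _ ≤ (8 * √X) * (Real.log X + 1) := by gcongr
      _ = 8 * √X * ((Real.log X) ^ (A + 1) + (Real.log X) ^ A) / (Real.log X) ^ A := by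
          rw [pow_succ]
          field_simp
      _ ≤ 8 * √X * (K2 * √X + K1 * √X) / (Real.log X) ^ A := by
          gcongr
          · exact hK2 X (by linarith)
          · exact hK1 X (by linarith)
      _ = 8 * (K1 + K2) * (X / (Real.log X) ^ A) := by
          have : 8 * √X * (K2 * √X + K1 * √X) = 8 * (K1 + K2) * (√X * √X) := by ring
          rw [this, hss]
          ring
      _ ≤ _ := by
          refine mul_le_mul_of_nonneg_right ?_ hXA
          have : 0 ≤ C1 * 2 ^ A := by positivity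
          linarith
  · push Not at hy8
    have hy8' : (8 : ℝ) < y := by nlinarith
    have hlogy : 2 ≤ Real.log y := by
      rw [Real.le_log_iff_exp_le (by linarith)]
      have h2 : Real.exp 2 = Real.exp 1 * Real.exp 1 := by rw [← Real.exp_add]; norm_num
      have h3 := Real.exp_one_lt_d9
      have h4 := Real.exp_pos 1
      rw [h2]
      nlinarith
    have hlogXy : Real.log X ≤ 2 * Real.log y := by
      have h2 : Real.log X = 2 * Real.log (√X) := by
        rw [Real.log_sqrt (by linarith)]; ring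
      rw [h2]
      have h3 : Real.log (√X) ≤ Real.log y := Real.log_le_log (by linarith) (by nlinarith)
      linarith
    have hq2 : (q : ℝ) ≤ (Real.log y) ^ (2 * B) := by
      calc (q : ℝ) ≤ (Real.log X) ^ B := hqX
        _ ≤ (2 * Real.log y) ^ B := by gcongr
        _ ≤ (Real.log y * Real.log y) ^ B := by gcongr
        _ = _ := by rw [← sq, ← pow_mul]
    have h2 := h1 q a hq0 hco y (by linarith) hq2
    rw [Nat.floor_natCast] at h2
    refine h2.trans ?_
    have h3 : (y : ℝ) / (Real.log y) ^ A ≤ 2 ^ A * (X / (Real.log X) ^ A) := by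
      have h4 : (Real.log X) ^ A ≤ 2 ^ A * (Real.log y) ^ A := by
        rw [← mul_pow]
        gcongr
      have hly : 0 < Real.log y := by linarith
      rw [← mul_div_assoc, div_le_div_iff₀ (by positivity) (by positivity)]
      calc (y : ℝ) * (Real.log X) ^ A ≤ X * (2 ^ A * (Real.log y) ^ A) := by gcongr
        _ = _ := by ring
    calc C1 * ((y : ℝ) / (Real.log y) ^ A) ≤ C1 * (2 ^ A * (X / (Real.log X) ^ A)) := by gcongr
      _ = C1 * 2 ^ A * (X / (Real.log X) ^ A) := by ring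
      _ ≤ _ := by
          refine mul_le_mul_of_nonneg_right ?_ hXA
          have : 0 ≤ 8 * (K1 + K2) := by positivity
          linarith

end Pool.Agent.Circle
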