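import Pool.Agent.Work.Circle.ExpPrime

/-!
The model `Λ_Q(b) = ∑_{r ≤ Q} μ(r)/φ(r) c_r(b)` for the von Mangoldt function.
-/

set_option autoImplicit false

namespace Pool.Agent.Circle

open Finset ArithmeticFunction
open scoped ArithmeticFunction.Moebius

/-- The weight `μ(r)/φ(r)`. -/
noncomputable def wq (r : ℕ) : ℝ := (μ r : ℝ) / (r.totient : ℝ)

/-- The reduced fractions with denominator at most `Q`. -/
def FS (Q : ℕ) : Finset (Σ _ : ℕ, ℕ) := (Ioc 0 Q).sigma cop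

/-- The fraction. -/
noncomputable def fr (s : Σ _ : ℕ, ℕ) : ℝ := (s.2 : ℝ) / s.1

/-- The model for `Λ`. -/
noncomputable def Lam (Q b : ℕ) : ℂ := ∑ s ∈ FS Q, (wq s.1 : ℂ) * e (b * fr s)

theorem mem_FS (Q : ℕ) (s : Σ _ : ℕ, ℕ) : s ∈ FS Q ↔ (0 < s.1 ∧ s.1 ≤ Q) ∧ s.2 < s.1 ∧ s.1.Coprime s.2 := by
  rw [FS, mem_sigma, mem_Ioc, mem_cop]

theorem geom_rat_le (R : ℕ) (hR : 0 < R) (m : ℤ) (hm : ¬ (R : ℤ) ∣ m) (y : ℕ) :
    ‖∑ b ∈ Ioc 0 y, e (b * ((m : ℝ) / R))‖ ≤ (R : ℝ) / 2 := by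
  have h1 := dn_div_ge R hR m hm
  have h2 := norm_geom_le ((m : ℝ) / R) 0 y
  have hR0 : (0 : ℝ) < R := by exact_mod_cast hR
  have h3 : 2 * (1 / (R : ℝ)) * ‖∑ b ∈ Ioc 0 y, e (b * ((m : ℝ) / R))‖ ≤ 1 := by
    refine le_trans ?_ h2
    gcongr
  rw [le_div_iff₀ (by norm_num)]
  have h4 : 2 * (1 / (R : ℝ)) * ‖∑ b ∈ Ioc 0 y, e (b * ((m : ℝ) / R))‖
      = (‖∑ b ∈ Ioc 0 y, e (b * ((m : ℝ) / R))‖ * 2) / R := by ring
  rw [h4, div_le_one hR0] at h3
  exact h3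

theorem abs_wq_mul (r : ℕ) (hr : 0 < r) : |wq r| * r.totient ≤ 1 := by
  have hφ : (0 : ℝ) < r.totient := by exact_mod_cast Nat.totient_pos.mpr hr
  have h1 : |(μ r : ℝ)| ≤ 1 := by
    have := abs_moebius_le_one (n := r)
    exact_mod_cast this
  rw [wq, abs_div, abs_of_pos hφ, div_mul_cancel₀ _ hφ.ne']
  exact h1

theorem sum_FS_le (Q : ℕ) : ∑ s ∈ FS Q, |wq s.1| * s.1 ≤ (Q : ℝ) * Q := by
  rw [FS, sum_sigma]
  calc ∑ r ∈ Ioc 0 Q, ∑ c ∈ cop r, |wq (⟨r, c⟩ : Σ _ : ℕ, ℕ).1| * ((⟨r, c⟩ : Σ _ : ℕ, ℕ).1 : ℝ)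
      ≤ ∑ r ∈ Ioc 0 Q, (Q : ℝ) := by
        refine sum_le_sum fun r hr => ?_
        rw [mem_Ioc] at hr
        simp only [sum_const, nsmul_eq_mul, card_cop]
        have h1 := abs_wq_mul r hr.1
        have h2 : (r : ℝ) ≤ Q := by exact_mod_cast hr.2
        calc (r.totient : ℝ) * (|wq r| * r) = (|wq r| * r.totient) * r := by ring
          _ ≤ 1 * r := by gcongr
          _ ≤ Q := by linarith
    _ = Q * Q := by rw [sum_const, Nat.card_Ioc, nsmul_eq_mul, Nat.sub_zero]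

theorem Lam_twist (Q q : ℕ) (a : ℤ) (hq : 0 < q) (hqQ : q ≤ Q) (hco : IsCoprime a (q : ℤ)) (y : ℕ) :
    ‖∑ b ∈ Ioc 0 y, Lam Q b * e (b * (a / q)) - ((wq q * y : ℝ) : ℂ)‖ ≤ (Q : ℝ) ^ 3 := by
  have hq0 : (q : ℝ) ≠ 0 := by exact_mod_cast hq.ne'
  have hqZ : (0 : ℤ) < q := by exact_mod_cast hq
  set c0 : ℕ := ((-a) % (q : ℤ)).toNat with hc0
  have hc0n : 0 ≤ (-a) % (q : ℤ) := Int.emod_nonneg _ hqZ.ne'
  have hc0' : (c0 : ℤ) = (-a) % (q : ℤ) := Int.toNat_of_nonneg hc0n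
  have hc0a : (q : ℤ) ∣ c0 + a := by
    rw [hc0']
    have h1 := Int.emod_add_mul_ediv (-a) q
    exact ⟨-((-a) / q), by linarith⟩
  have hs0 : (⟨q, c0⟩ : Σ _ : ℕ, ℕ) ∈ FS Q := by
    rw [mem_FS]
    refine ⟨⟨hq, hqQ⟩, ?_, ?_⟩
    · have h1 := Int.emod_lt_of_pos (-a) hqZ
      show c0 < q
      have h2 : (c0 : ℤ) < q := by rw [hc0']; exact h1
      exact_mod_cast h2
    · show q.Coprime c0
      rw [← Nat.isCoprime_iff_coprime]
      obtain ⟨k, hk⟩ := hc0a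
      have h1 : (c0 : ℤ) = -a + q * k := by linarith
      rw [h1]
      exact (IsCoprime.add_mul_left_right_iff.mpr hco.symm.neg_right)
  have h1 : ∑ b ∈ Ioc 0 y, Lam Q b * e (b * (a / q))
      = ∑ s ∈ FS Q, (wq s.1 : ℂ) * ∑ b ∈ Ioc 0 y, e (b * (fr s + a / q)) := by
    unfold Lam
    simp_rw [sum_mul, mul_sum]
    rw [sum_comm]
    refine sum_congr rfl fun s _ => sum_congr rfl fun b _ => ?_
    rw [mul_add (b : ℝ), e_add]
    ring
  have h2 : (wq q : ℂ) * ∑ b ∈ Ioc 0 y, e (b * (fr ⟨q, c0⟩ + a / q)) = ((wq q * y : ℝ) : ℂ) := by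
    obtain ⟨k, hk⟩ := hc0a
    have h3 : ∀ b ∈ Ioc 0 y, e (b * (fr ⟨q, c0⟩ + a / q)) = 1 := by
      intro b _
      have h4 : (b : ℝ) * (fr ⟨q, c0⟩ + a / q) = ((b * k : ℤ) : ℝ) := by
        unfold fr
        have h5 : (c0 : ℝ) + a = q * k := by exact_mod_cast hk
        simp only
        rw [← add_div, h5]
        push_cast
        field_simp
      rw [h4, e_int]
    rw [sum_congr rfl h3]
    simp
  rw [h1, ← add_sum_erase _ _ hs0]
  simp only
  rw [h2, add_sub_cancel_left]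
  calc ‖∑ s ∈ (FS Q).erase ⟨q, c0⟩, (wq s.1 : ℂ) * ∑ b ∈ Ioc 0 y, e (b * (fr s + a / q))‖
      ≤ ∑ s ∈ (FS Q).erase ⟨q, c0⟩, (|wq s.1| * s.1) * Q := by
        refine norm_sum_le_of_le _ fun s hs => ?_
        rw [mem_erase, mem_FS] at hs
        obtain ⟨hne, ⟨hr0, hrQ⟩, hcr, hcop⟩ := hs
        have hrR : (s.1 : ℝ) ≠ 0 := by exact_mod_cast hr0.ne'
        rw [norm_mul, Complex.norm_real, Real.norm_eq_abs, mul_assoc]
        gcongr
        have h3 : fr s + (a : ℝ) / q = ((s.2 * q + a * s.1 : ℤ) : ℝ) / ((s.1 * q : ℕ) : ℝ) := by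
          unfold fr
          push_cast
          field_simp
        have h4 : ¬ (((s.1 * q : ℕ) : ℤ) ∣ (s.2 * q + a * s.1 : ℤ)) := by
          intro hdvd
          push_cast at hdvd
          apply hne
          have hc1 : IsCoprime (s.1 : ℤ) (s.2 : ℤ) := Nat.isCoprime_iff_coprime.mpr hcop
          have d1 : (s.1 : ℤ) ∣ (s.2 : ℤ) * q := by
            have : (s.1 : ℤ) ∣ (s.2 * q + a * s.1 : ℤ) := (dvd_mul_right _ _).trans hdvd
            exact (dvd_add_left (dvd_mul_left _ _)).mp this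
          have d2 : (s.1 : ℤ) ∣ (q : ℤ) := hc1.dvd_of_dvd_mul_left d1
          have d3 : (q : ℤ) ∣ a * (s.1 : ℤ) := by
            have : (q : ℤ) ∣ (s.2 * q + a * s.1 : ℤ) := (dvd_mul_left _ _).trans hdvd
            exact (dvd_add_right (dvd_mul_left _ _)).mp this
          have d4 : (q : ℤ) ∣ (s.1 : ℤ) := hco.symm.dvd_of_dvd_mul_left d3
          have hrq : s.1 = q := Nat.dvd_antisymm (Int.natCast_dvd_natCast.mp d2)
            (Int.natCast_dvd_natCast.mp d4)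
          obtain ⟨r, c⟩ := s
          simp only at hrq hdvd hcr
          subst hrq
          congr 1
          have d5 : (r : ℤ) ∣ (c + a : ℤ) := by
            have h5 : ((c : ℤ) * r + a * r) = r * (c + a) := by ring
            rw [h5] at hdvd
            exact (mul_dvd_mul_iff_left hqZ.ne').mp hdvd
          have d6 : (r : ℤ) ∣ (c : ℤ) - c0 := by
            have := dvd_sub d5 hc0a
            have h6 : ((c : ℤ) + a) - (c0 + a) = c - c0 := by ring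
            rwa [h6] at this
          have hlt : c0 < r := ((mem_FS Q _).mp hs0).2.1
          have h7 : ((c : ℤ) - c0) = 0 := by
            apply Int.eq_zero_of_abs_lt_dvd d6
            rw [abs_lt]
            constructor <;> omega
          have h8 : c = c0 := by omega
          exact h8
        rw [h3]
        refine (geom_rat_le (s.1 * q) (Nat.mul_pos hr0 hq) _ h4 y).trans ?_
        push_cast
        have hqQ' : (q : ℝ) ≤ Q := by exact_mod_cast hqQ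
        have : (s.1 : ℝ) * q ≤ s.1 * Q := by gcongr
        have h9 : (0 : ℝ) ≤ (s.1 : ℝ) * q := by positivity
        linarith
    _ ≤ ∑ s ∈ FS Q, (|wq s.1| * s.1) * Q :=
        sum_le_sum_of_subset_of_nonneg (erase_subset _ _) fun s _ _ => by positivity
    _ = (∑ s ∈ FS Q, |wq s.1| * s.1) * Q := by rw [sum_mul]
    _ ≤ (Q * Q) * Q := by
        gcongr
        exact sum_FS_le Q
    _ = _ := by ring

/-- Expanding a mean square. -/
theorem sq_expand {ι : Type*} (S : Finset ι) (w θ : ι → ℝ) (L : ℕ) :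
    ∑ b ∈ Ioc 0 L, ‖∑ s ∈ S, (w s : ℂ) * e (b * θ s)‖ ^ 2
      ≤ ∑ s ∈ S, ∑ t ∈ S, |w s| * |w t| * ‖∑ b ∈ Ioc 0 L, e (b * (θ s - θ t))‖ := by
  have h1 : ((∑ b ∈ Ioc 0 L, ‖∑ s ∈ S, (w s : ℂ) * e (b * θ s)‖ ^ 2 : ℝ) : ℂ)
      = ∑ s ∈ S, ∑ t ∈ S, (w s : ℂ) * (w t : ℂ) * ∑ b ∈ Ioc 0 L, e (b * (θ s - θ t)) := by
    push_cast
    have h2 : ∀ b ∈ Ioc 0 L, ((‖∑ s ∈ S, (w s : ℂ) * e (b * θ s)‖ : ℂ)) ^ 2
        = ∑ s ∈ S, ∑ t ∈ S, (w s : ℂ) * (w t : ℂ) * e (b * (θ s - θ t)) := by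
      intro b _
      rw [← Complex.mul_conj', map_sum, sum_mul_sum]
      refine sum_congr rfl fun s _ => sum_congr rfl fun t _ => ?_
      rw [map_mul, Complex.conj_ofReal, conj_e, mul_sub, sub_eq_add_neg, e_add]
      ring
    rw [sum_congr rfl h2, sum_comm]
    refine sum_congr rfl fun s _ => ?_
    rw [sum_comm]
    exact sum_congr rfl fun t _ => by rw [mul_sum]
  have h2 : (∑ b ∈ Ioc 0 L, ‖∑ s ∈ S, (w s : ℂ) * e (b * θ s)‖ ^ 2 : ℝ)
      = ‖((∑ b ∈ Ioc 0 L, ‖∑ s ∈ S, (w s : ℂ) * e (b * θ s)‖ ^ 2 : ℝ) : ℂ)‖ := by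
    rw [Complex.norm_real, Real.norm_eq_abs, abs_of_nonneg]
    exact sum_nonneg fun b _ => by positivity
  rw [h2, h1]
  refine norm_sum_le_of_le _ fun s _ => norm_sum_le_of_le _ fun t _ => ?_
  rw [norm_mul, norm_mul, Complex.norm_real, Complex.norm_real, Real.norm_eq_abs,
    Real.norm_eq_abs]

theorem Lam_sq (Q L : ℕ) : ∑ b ∈ Ioc 0 L, ‖Lam Q b‖ ^ 2
    ≤ L * ∑ r ∈ Ioc 0 Q, (μ r : ℝ) ^ 2 / (r.totient : ℝ) + (Q : ℝ) ^ 4 := by
  have h1 := sq_expand (FS Q) (fun s => wq s.1) fr L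
  refine (show ∑ b ∈ Ioc 0 L, ‖Lam Q b‖ ^ 2 ≤ _ from h1).trans ?_
  classical
  have h2 : ∀ s ∈ FS Q, ∀ t ∈ FS Q, |wq s.1| * |wq t.1| * ‖∑ b ∈ Ioc 0 L, e (b * (fr s - fr t))‖
      ≤ (if s = t then L * wq s.1 ^ 2 else 0) + (|wq s.1| * s.1) * (|wq t.1| * t.1) := by
    intro s hs t ht
    rw [mem_FS] at hs ht
    split_ifs with hst
    · subst hst
      have h3 := norm_geom_le_card (fr s - fr s) 0 L
      rw [Nat.sub_zero] at h3
      have h4 : |wq s.1| * |wq s.1| = wq s.1 ^ 2 := by rw [← sq, sq_abs]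
      rw [h4]
      have h5 : 0 ≤ (|wq s.1| * (s.1 : ℝ)) * (|wq s.1| * s.1) := by positivity
      have h6 : wq s.1 ^ 2 * ‖∑ b ∈ Ioc 0 L, e (b * (fr s - fr s))‖ ≤ wq s.1 ^ 2 * L := by gcongr
      linarith
    · rw [zero_add]
      have h3 : fr s - fr t = ((s.2 * t.1 - t.2 * s.1 : ℤ) : ℝ) / ((s.1 * t.1 : ℕ) : ℝ) := by
        have hs0 : (s.1 : ℝ) ≠ 0 := by exact_mod_cast hs.1.1.ne'
        have ht0 : (t.1 : ℝ) ≠ 0 := by exact_mod_cast ht.1.1.ne'
        unfold fr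
        push_cast
        field_simp
      have h4 : ¬ (((s.1 * t.1 : ℕ) : ℤ) ∣ (s.2 * t.1 - t.2 * s.1 : ℤ)) := by
        intro hdvd
        push_cast at hdvd
        apply hst
        have hc1 : IsCoprime (s.1 : ℤ) (s.2 : ℤ) := Nat.isCoprime_iff_coprime.mpr hs.2.2
        have hc2 : IsCoprime (t.1 : ℤ) (t.2 : ℤ) := Nat.isCoprime_iff_coprime.mpr ht.2.2
        have d1 : (s.1 : ℤ) ∣ (s.2 : ℤ) * t.1 := by
          have : (s.1 : ℤ) ∣ (s.2 * t.1 - t.2 * s.1 : ℤ) := (dvd_mul_right _ _).trans hdvd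
          exact (dvd_sub_left (dvd_mul_left _ _)).mp this
        have d2 : (s.1 : ℤ) ∣ (t.1 : ℤ) := hc1.dvd_of_dvd_mul_left d1
        have d3 : (t.1 : ℤ) ∣ t.2 * (s.1 : ℤ) := by
          have : (t.1 : ℤ) ∣ (s.2 * t.1 - t.2 * s.1 : ℤ) := (dvd_mul_left _ _).trans hdvd
          exact (dvd_sub_right (dvd_mul_left _ _)).mp this
        have d4 : (t.1 : ℤ) ∣ (s.1 : ℤ) := hc2.dvd_of_dvd_mul_left d3
        have hrq : s.1 = t.1 := Nat.dvd_antisymm (Int.natCast_dvd_natCast.mp d2)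
          (Int.natCast_dvd_natCast.mp d4)
        obtain ⟨r, c⟩ := s
        obtain ⟨r', c'⟩ := t
        simp only at hrq hdvd hs ht
        subst hrq
        congr 1
        have hrZ : (r : ℤ) ≠ 0 := by exact_mod_cast hs.1.1.ne'
        have d5 : (r : ℤ) ∣ (c - c' : ℤ) := by
          have h5 : ((c : ℤ) * r - c' * r) = r * (c - c') := by ring
          rw [h5] at hdvd
          exact (mul_dvd_mul_iff_left hrZ).mp hdvd
        have h7 : ((c : ℤ) - c') = 0 := by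
          apply Int.eq_zero_of_abs_lt_dvd d5
          rw [abs_lt]
          have := hs.2.1
          have := ht.2.1
          constructor <;> omega
        have h8 : c = c' := by omega
        exact h8
      rw [h3]
      have h5 := geom_rat_le (s.1 * t.1) (Nat.mul_pos hs.1.1 ht.1.1) _ h4 L
      have h6 : ((s.1 * t.1 : ℕ) : ℝ) / 2 ≤ s.1 * t.1 := by
        push_cast
        have : (0 : ℝ) ≤ (s.1 : ℝ) * t.1 := by positivity
        linarith
      calc |wq s.1| * |wq t.1| * ‖∑ b ∈ Ioc 0 L, e (b * (((s.2 * t.1 - t.2 * s.1 : ℤ) : ℝ) / ((s.1 * t.1 : ℕ) : ℝ)))‖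
          ≤ |wq s.1| * |wq t.1| * (s.1 * t.1) := by
            gcongr
            exact h5.trans h6
        _ = _ := by ring
  refine (sum_le_sum fun s hs => sum_le_sum fun t ht => h2 s hs t ht).trans ?_
  have h3 : ∑ s ∈ FS Q, ∑ t ∈ FS Q, ((if s = t then L * wq s.1 ^ 2 else 0)
      + (|wq s.1| * s.1) * (|wq t.1| * t.1))
      = ∑ s ∈ FS Q, L * wq s.1 ^ 2 + (∑ s ∈ FS Q, |wq s.1| * s.1) * (∑ s ∈ FS Q, |wq s.1| * s.1) := by
    simp_rw [sum_add_distrib]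
    rw [sum_mul_sum]
    congr 1
    refine sum_congr rfl fun s hs => ?_
    rw [sum_ite_eq, if_pos hs]
  rw [h3]
  have h4 : ∑ s ∈ FS Q, (L : ℝ) * wq s.1 ^ 2 = L * ∑ r ∈ Ioc 0 Q, (μ r : ℝ) ^ 2 / (r.totient : ℝ) := by
    rw [← mul_sum, FS, sum_sigma]
    congr 1
    refine sum_congr rfl fun r hr => ?_
    rw [mem_Ioc] at hr
    have hφ : (0 : ℝ) < r.totient := by exact_mod_cast Nat.totient_pos.mpr hr.1
    simp only [sum_const, nsmul_eq_mul, card_cop]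
    rw [wq, div_pow]
    field_simp
  rw [h4]
  have h5 := sum_FS_le Q
  have h6 : 0 ≤ ∑ s ∈ FS Q, |wq s.1| * (s.1 : ℝ) := sum_nonneg fun s _ => by positivity
  have h7 : (∑ s ∈ FS Q, |wq s.1| * (s.1 : ℝ)) * (∑ s ∈ FS Q, |wq s.1| * (s.1 : ℝ)) ≤ (Q : ℝ) ^ 4 := by
    calc (∑ s ∈ FS Q, |wq s.1| * (s.1 : ℝ)) * (∑ s ∈ FS Q, |wq s.1| * (s.1 : ℝ))
        ≤ (Q * Q) * (Q * Q) := by gcongr
      _ = _ := by ring
  linarith

/-- For squarefree `r`, `r ≤ 2 φ(r)^2`. -/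
theorem le_two_totient_sq (r : ℕ) (hr : Squarefree r) : r ≤ 2 * r.totient ^ 2 := by
  have h1 := Nat.totient_mul_prod_primeFactors r
  have h2 : ∏ p ∈ r.primeFactors, p = r := Nat.prod_primeFactors_of_squarefree hr
  have hr0 : 0 < r := Nat.pos_of_ne_zero hr.ne_zero
  rw [h2] at h1
  have h3 : r.totient = ∏ p ∈ r.primeFactors, (p - 1) := by
    rw [mul_comm] at h1
    exact Nat.eq_of_mul_eq_mul_left hr0 h1
  have h4 : ∀ s : Finset ℕ, (∀ p ∈ s, p.Prime) →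
      ∏ p ∈ s, p ≤ (if 2 ∈ s then 2 else 1) * (∏ p ∈ s, (p - 1)) ^ 2 := by
    intro s
    induction s using Finset.induction_on with
    | empty => intro _; simp
    | insert p s hps ih =>
      intro hp
      have ih' := ih fun p' hp' => hp p' (mem_insert_of_mem hp')
      rw [prod_insert hps, prod_insert hps]
      have hpp := (hp p (mem_insert_self p s)).two_le
      rcases Nat.eq_or_lt_of_le hpp with h5 | h5
      · subst h5
        rw [if_neg hps] at ih'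
        rw [if_pos (mem_insert_self 2 s)]
        calc 2 * ∏ p ∈ s, p ≤ 2 * (1 * (∏ p ∈ s, (p - 1)) ^ 2) := Nat.mul_le_mul_left 2 ih'
          _ = _ := by norm_num
      · have h6 : (if 2 ∈ insert p s then 2 else 1) = (if 2 ∈ s then 2 else 1) := by
          have : 2 ∈ insert p s ↔ 2 ∈ s := by
            rw [mem_insert]
            constructor
            · rintro (h | h)
              · omega
              · exact h
            · exact Or.inr
          simp only [this]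
        rw [h6]
        have h7 : p ≤ (p - 1) ^ 2 := by
          obtain ⟨k, rfl⟩ := Nat.exists_eq_add_of_lt h5
          have : 2 + k + 1 - 1 = k + 2 := by omega
          rw [this]
          nlinarith
        calc p * ∏ p ∈ s, p ≤ (p - 1) ^ 2 * ((if 2 ∈ s then 2 else 1) * (∏ p ∈ s, (p - 1)) ^ 2) :=
              Nat.mul_le_mul h7 ih'
          _ = _ := by ring
  have h5 := h4 r.primeFactors fun p hp => Nat.prime_of_mem_primeFactors hp
  rw [h2, ← h3] at h5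
  refine h5.trans ?_
  apply Nat.mul_le_mul_right
  split_ifs <;> norm_num

theorem sum_mu_phi_le (Q : ℕ) : ∑ r ∈ Ioc 0 Q, (μ r : ℝ) ^ 2 / (r.totient : ℝ) ≤ 3 * √Q := by
  have h1 : ∀ r ∈ Ioc 0 Q, (μ r : ℝ) ^ 2 / (r.totient : ℝ) ≤ 3 * (√r - √((r - 1 : ℕ) : ℝ)) := by
    intro r hr
    rw [mem_Ioc] at hr
    have hr1 : (1 : ℝ) ≤ r := by exact_mod_cast hr.1
    have hφ : (0 : ℝ) < r.totient := by exact_mod_cast Nat.totient_pos.mpr hr.1
    have hs0 : 0 < √(r : ℝ) := Real.sqrt_pos.mpr (by linarith)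
    have hs1 : √((r - 1 : ℕ) : ℝ) ≤ √r := Real.sqrt_le_sqrt (by exact_mod_cast Nat.sub_le r 1)
    have hs2 : √(r : ℝ) * √r = r := Real.mul_self_sqrt (by linarith)
    have hs3 : √((r - 1 : ℕ) : ℝ) * √((r - 1 : ℕ) : ℝ) = ((r - 1 : ℕ) : ℝ) :=
      Real.mul_self_sqrt (Nat.cast_nonneg _)
    have hs4 : ((r - 1 : ℕ) : ℝ) = r - 1 := by rw [Nat.cast_sub hr.1, Nat.cast_one]
    have h2 : 1 / (2 * √r) ≤ √(r : ℝ) - √((r - 1 : ℕ) : ℝ) := by
      rw [div_le_iff₀ (by positivity)]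
      have hs5 := Real.sqrt_nonneg ((r - 1 : ℕ) : ℝ)
      have h3 : (√(r : ℝ) - √((r - 1 : ℕ) : ℝ)) * (√r + √((r - 1 : ℕ) : ℝ)) = 1 := by
        have : (√(r : ℝ) - √((r - 1 : ℕ) : ℝ)) * (√r + √((r - 1 : ℕ) : ℝ))
          = √(r : ℝ) * √r - √((r - 1 : ℕ) : ℝ) * √((r - 1 : ℕ) : ℝ) := by ring
        rw [this, hs2, hs3, hs4]
        ring
      have h4 : 0 ≤ √(r : ℝ) - √((r - 1 : ℕ) : ℝ) := by linarith
      nlinarith
    by_cases hsq : Squarefree r
    · have h3 := le_two_totient_sq r hsq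
      have h4 : (r : ℝ) ≤ 2 * (r.totient : ℝ) ^ 2 := by exact_mod_cast h3
      have h5 : √(r : ℝ) ≤ √2 * r.totient := by
        rw [Real.sqrt_le_left (by positivity), mul_pow, Real.sq_sqrt (by norm_num)]
        exact h4
      have h6 : (μ r : ℝ) ^ 2 = 1 := by
        have := moebius_sq_eq_one_of_squarefree hsq
        exact_mod_cast this
      have h7 : √(2 : ℝ) ≤ 3 / 2 := by
        rw [Real.sqrt_le_left (by norm_num)]
        norm_num
      rw [h6]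
      calc 1 / (r.totient : ℝ) ≤ 3 * (1 / (2 * √r)) := by
            rw [mul_one_div, div_le_div_iff₀ hφ (by positivity)]
            nlinarith
        _ ≤ _ := by gcongr
    · rw [moebius_eq_zero_of_not_squarefree hsq]
      simp only [Int.cast_zero, ne_eq, OfNat.ofNat_ne_zero, not_false_eq_true, zero_pow, zero_div]
      linarith
  refine (sum_le_sum h1).trans ?_
  rw [← mul_sum]
  have h2 : ∀ Q : ℕ, ∑ r ∈ Ioc 0 Q, (√(r : ℝ) - √((r - 1 : ℕ) : ℝ)) = √Q := by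
    intro Q
    induction Q with
    | zero => simp
    | succ n ih =>
      rw [← Finset.insert_Ioc_right_eq_Ioc_add_one (by omega), sum_insert (by simp), ih]
      simp
  rw [h2]

end Pool.Agent.Circle
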