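import Pool.Agent.Work.Circle.Almost

/-!
The main term.
-/

set_option autoImplicit false

namespace Pool.Agent.Circle

open Finset ArithmeticFunction Pool.Agent.SW
open scoped ArithmeticFunction.Moebius

/-- The truncated singular series. -/
noncomputable def sing (P m : ℕ) : ℝ :=
  ∑ r ∈ Ioc 0 P, ((μ r : ℝ) ^ 2 / (r.totient : ℝ) ^ 2) * (rsum m r : ℝ)

theorem sum_FS_sing (P m : ℕ) :
    ∑ s ∈ FS P, (wq s.1 : ℂ) ^ 2 * e (m * fr s) = (sing P m : ℂ) := by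
  rw [FS, sum_sigma, sing, Complex.ofReal_sum]
  refine sum_congr rfl fun r hr => ?_
  rw [mem_Ioc] at hr
  simp only
  rw [← mul_sum]
  have h1 : ∑ c ∈ cop r, e (m * fr ⟨r, c⟩) = (rsum m r : ℂ) := by
    rw [← ram_nat r hr.1 m]
    unfold ram
    refine sum_congr rfl fun c _ => ?_
    congr 1
    unfold fr
    push_cast
    ring
  rw [h1]
  unfold wq
  push_cast
  rw [div_pow]

theorem sum_FS_wq_le (P : ℕ) : ∑ s ∈ FS P, |wq s.1| ≤ P := by
  rw [FS, sum_sigma]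
  calc ∑ r ∈ Ioc 0 P, ∑ c ∈ cop r, |wq (⟨r, c⟩ : Σ _ : ℕ, ℕ).1| ≤ ∑ r ∈ Ioc 0 P, (1 : ℝ) := by
        refine sum_le_sum fun r hr => ?_
        rw [mem_Ioc] at hr
        simp only [sum_const, nsmul_eq_mul, card_cop]
        have h1 := abs_wq_mul r hr.1
        linarith
    _ = P := by simp

theorem main_term (A B0 : ℕ) : ∃ L0 : ℝ, ∀ N K L : ℕ, L0 ≤ L → K ≤ N → N ≤ L →
    (L : ℝ) ≤ N * (Real.log L) ^ B0 → ∀ m : ℕ, N < m →
    ‖∑ a ∈ Ioc K N, (Λ a : ℂ) * Lam (Pp A L) (m - a) - (((N : ℝ) - K) * sing (Pp A L) m : ℝ)‖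
      ≤ N / 8 := by
  set B : ℕ := 2 * A + 20 with hB
  set A1 : ℕ := A + 2 * B0 + B + 2 with hA1
  obtain ⟨C1, hC1, hexp⟩ := expsum_unif A1 B
  refine ⟨max 3 (Real.exp (16 * C1)), ?_⟩
  intro N K L hL0 hKN hNL hLN m hm
  have hL3 : (3 : ℝ) ≤ L := (le_max_left _ _).trans hL0
  have hx : 1 ≤ Real.log L := one_le_log hL3
  have hx16 : 16 * C1 ≤ Real.log L := by
    rw [Real.le_log_iff_exp_le (by linarith)]
    exact (le_max_right _ _).trans hL0
  set x := Real.log L with hxdef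
  have hx0 : 0 < x := by linarith
  set P := Pp A L with hPdef
  have hPx : (P : ℝ) ≤ x ^ B := Pp_le A L hx
  have hKNr : (K : ℝ) ≤ N := by exact_mod_cast hKN
  set D : ℝ := C1 * (L / x ^ A1) with hD
  have hD0 : 0 ≤ D := by positivity
  -- the exponential sums
  have h1 : ∀ s ∈ FS P, ‖∑ a ∈ Ioc K N, (Λ a : ℂ) * e (a * -fr s)
      - ((wq s.1 * (N - K) : ℝ) : ℂ)‖ ≤ 2 * D := by
    intro s hs
    rw [mem_FS] at hs
    have hco : IsCoprime (-(s.2 : ℤ)) (s.1 : ℤ) :=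
      (Nat.isCoprime_iff_coprime.mpr hs.2.2).symm.neg_left
    have hq : (s.1 : ℝ) ≤ x ^ B := by
      have : (s.1 : ℝ) ≤ P := by exact_mod_cast hs.1.2
      exact this.trans hPx
    have e1 := hexp s.1 (-(s.2 : ℤ)) hs.1.1 hco L (by linarith) hq N (by exact_mod_cast hNL)
    have e2 := hexp s.1 (-(s.2 : ℤ)) hs.1.1 hco L (by linarith) hq K
      (by exact_mod_cast hKN.trans hNL)
    have h2 : (((-(s.2 : ℤ) : ℤ) : ℝ) / (s.1 : ℝ)) = -fr s := by
      unfold fr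
      push_cast
      ring
    rw [h2] at e1 e2
    have h3 : ∑ a ∈ Ioc K N, (Λ a : ℂ) * e (a * -fr s) - ((wq s.1 * (N - K) : ℝ) : ℂ)
        = (∑ n ∈ Ioc 0 N, (Λ n : ℂ) * e (n * -fr s) - ((μ s.1 : ℝ) / (s.1.totient : ℝ) * N : ℝ))
          - (∑ n ∈ Ioc 0 K, (Λ n : ℂ) * e (n * -fr s)
            - ((μ s.1 : ℝ) / (s.1.totient : ℝ) * K : ℝ)) := by
      rw [← Finset.sum_Ioc_consecutive _ (Nat.zero_le K) hKN]
      unfold wq
      push_cast
      ring
    rw [h3]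
    refine (norm_sub_le _ _).trans ?_
    calc _ ≤ D + D := add_le_add e1 e2
      _ = 2 * D := by ring
  have h2 : ∑ a ∈ Ioc K N, (Λ a : ℂ) * Lam P (m - a)
      = ∑ s ∈ FS P, (wq s.1 : ℂ) * e (m * fr s) * ∑ a ∈ Ioc K N, (Λ a : ℂ) * e (a * -fr s) := by
    unfold Lam
    simp_rw [mul_sum]
    rw [sum_comm]
    refine sum_congr rfl fun s _ => sum_congr rfl fun a ha => ?_
    rw [mem_Ioc] at ha
    have h3 : ((m - a : ℕ) : ℝ) * fr s = m * fr s + a * -fr s := by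
      rw [Nat.cast_sub (by omega)]
      ring
    rw [h3, e_add]
    ring
  have h3 : (((N : ℝ) - K) * sing P m : ℝ)
      = ∑ s ∈ FS P, (wq s.1 : ℂ) * e (m * fr s) * ((wq s.1 * (N - K) : ℝ) : ℂ) := by
    rw [Complex.ofReal_mul, ← sum_FS_sing, mul_sum]
    refine sum_congr rfl fun s _ => ?_
    push_cast
    ring
  rw [h2, h3, ← sum_sub_distrib]
  calc ‖∑ s ∈ FS P, ((wq s.1 : ℂ) * e (m * fr s) * ∑ a ∈ Ioc K N, (Λ a : ℂ) * e (a * -fr s)
        - (wq s.1 : ℂ) * e (m * fr s) * ((wq s.1 * (N - K) : ℝ) : ℂ))‖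
      ≤ ∑ s ∈ FS P, |wq s.1| * (2 * D) := by
        refine norm_sum_le_of_le _ fun s hs => ?_
        rw [← mul_sub, norm_mul, norm_mul, norm_e, mul_one, Complex.norm_real, Real.norm_eq_abs]
        gcongr
        exact h1 s hs
    _ = (∑ s ∈ FS P, |wq s.1|) * (2 * D) := by rw [sum_mul]
    _ ≤ x ^ B * (2 * D) := by
        gcongr
        exact (sum_FS_wq_le P).trans hPx
    _ ≤ N / 8 := by
        rw [hD]
        have h4 : x ^ B * (2 * (C1 * (L / x ^ A1))) ≤ x ^ B * (2 * (C1 * ((N * x ^ B0) / x ^ A1))) := by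
          gcongr
        refine h4.trans ?_
        have h5 : x ^ A1 = x ^ B * x ^ B0 * x ^ (A + B0 + 2) := by
          rw [hA1, ← pow_add, ← pow_add]
          congr 1
          ring
        have h6 : x ^ B * (2 * (C1 * ((N * x ^ B0) / x ^ A1))) = 2 * C1 * N / x ^ (A + B0 + 2) := by
          rw [h5]
          field_simp
        rw [h6, div_le_div_iff₀ (by positivity) (by norm_num)]
        have h7 : x ≤ x ^ (A + B0 + 2) := by
          calc x = x ^ 1 := (pow_one x).symm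
            _ ≤ x ^ (A + B0 + 2) := pow_le_pow_right₀ hx (by omega)
        have hN0 : (0 : ℝ) ≤ N := Nat.cast_nonneg N
        nlinarith

end Pool.Agent.Circle
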