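import Pool.Agent.Work.Circle.Spacing

/-!
`∑_{k ≤ K} min (N/k, 1/(2‖α k‖)) ≤ 24 (N/q + K + q) (1 + log N)`.
-/

set_option autoImplicit false

namespace Pool.Agent.Circle

open Finset

section
variable {α : ℝ} {q : ℕ} {a : ℤ}

theorem sum_Ioc_nat_int (f : ℤ → ℝ) (A B : ℕ) :
    ∑ k ∈ Ioc A B, f k = ∑ x ∈ Ico ((A : ℤ) + 1) ((B : ℤ) + 1), f x := by
  refine sum_bij (fun k _ => (k : ℤ)) ?_ ?_ ?_ ?_
  · intro k hk
    rw [mem_Ioc] at hk
    rw [mem_Ico]
    omega
  · intro k _ l _ h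
    exact_mod_cast h
  · intro x hx
    rw [mem_Ico] at hx
    refine ⟨x.toNat, ?_, ?_⟩
    · rw [mem_Ioc]; omega
    · simp only [Int.toNat_of_nonneg (by omega : 0 ≤ x)]
  · intro k _
    rfl

theorem mm_small (hq : 0 < q) (hco : IsCoprime a (q : ℤ)) (hα : |α - a / q| ≤ 1 / (q : ℝ) ^ 2)
    (B : ℝ) (hB : 0 ≤ B) (k : ℕ) (hk : 0 < k) (hkq : 2 * k ≤ q) :
    mm B (α * k) ≤ mm q (α * k) := by
  have hq' : (0 : ℝ) < q := by exact_mod_cast hq
  have hk' : (0 : ℝ) < k := by exact_mod_cast hk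
  have hkq' : 2 * (k : ℝ) ≤ q := by exact_mod_cast hkq
  apply le_mm _ _ _ _ (mm_mul_le _ _ hB) hq'.le
  have h1 : 1 / (q : ℝ) ≤ dn (((a * k : ℤ) : ℝ) / q) := by
    apply dn_div_ge q hq
    intro h
    have h2 : (q : ℤ) ∣ k := IsCoprime.dvd_of_dvd_mul_left hco.symm h
    have h3 : q ∣ k := by exact_mod_cast h2
    have := Nat.le_of_dvd hk h3
    omega
  have h2 : |(((a * k : ℤ) : ℝ) / q) - α * k| ≤ 1 / (2 * q) := by
    have : (((a * k : ℤ) : ℝ) / q) - α * k = -((α - a / q) * k) := by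
      push_cast
      ring
    rw [this, abs_neg, abs_mul, abs_of_pos hk']
    calc |α - a / q| * k ≤ 1 / (q : ℝ) ^ 2 * (q / 2) := by
          gcongr
          linarith
      _ = 1 / (2 * q) := by field_simp
  have h3 : dn (((a * k : ℤ) : ℝ) / q) ≤ dn (α * k) + 1 / (2 * q) := by
    have : (((a * k : ℤ) : ℝ) / q) = α * k + ((((a * k : ℤ) : ℝ) / q) - α * k) := by ring
    rw [this]
    refine (dn_add_le_abs _ _).trans ?_
    linarith
  have h4 : 1 / (2 * (q : ℝ)) ≤ dn (α * k) := by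
    have : 1 / (q : ℝ) = 2 * (1 / (2 * q)) := by field_simp
    linarith
  refine (mm_le_right B _ (1 / (2 * q)) hB (by positivity) h4).trans (le_of_eq ?_)
  field_simp

theorem sum_Ioc_blocks (f : ℕ → ℝ) (h q J : ℕ) :
    ∑ k ∈ Ioc 0 (h + J * q), f k = ∑ k ∈ Ioc 0 h, f k
      + ∑ j ∈ range J, ∑ k ∈ Ioc (h + j * q) (h + j * q + q), f k := by
  induction J with
  | zero => simp
  | succ J ih =>
    have h1 : Ioc 0 (h + (J + 1) * q) = Ioc 0 (h + J * q) ∪ Ioc (h + J * q) (h + J * q + q) := by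
      rw [Ioc_union_Ioc_eq_Ioc (by omega) (by omega)]
      congr 1
      ring
    rw [h1, sum_union (Ioc_disjoint_Ioc_of_le le_rfl), ih, sum_range_succ]
    ring

theorem min_sum (hq : 0 < q) (hco : IsCoprime a (q : ℤ)) (hα : |α - a / q| ≤ 1 / (q : ℝ) ^ 2)
    (N : ℝ) (K : ℕ) (hqN : (q : ℝ) ≤ N) (hKN : (K : ℝ) ≤ N) :
    ∑ k ∈ Ioc 0 K, mm (N / k) (α * k) ≤ 24 * (N / q + K + q) * (1 + Real.log N) := by
  have hq1 : (1 : ℝ) ≤ q := by exact_mod_cast hq
  have hq' : (0 : ℝ) < q := by linarith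
  have hN1 : 1 ≤ N := hq1.trans hqN
  have hN0 : 0 < N := by linarith
  have hlogq : 0 ≤ Real.log q := Real.log_nonneg hq1
  have hlogN : Real.log q ≤ Real.log N := Real.log_le_log hq' hqN
  have hlogN0 : 0 ≤ Real.log N := Real.log_nonneg hN1
  set h := q / 2 with hh
  set J := K / q with hJ
  have hnn : ∀ k : ℕ, 0 ≤ mm (N / k) (α * k) := fun k => mm_nonneg _ _ (by positivity)
  have hcov : Ioc 0 K ⊆ Ioc 0 (h + (J + 1) * q) := by
    apply Ioc_subset_Ioc_right
    have := Nat.lt_div_mul_add hq (a := K)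
    rw [← hJ] at this
    nlinarith
  refine (sum_le_sum_of_subset_of_nonneg hcov fun k _ _ => hnn k).trans ?_
  rw [sum_Ioc_blocks]
  -- first part
  have hA : ∑ k ∈ Ioc 0 h, mm (N / k) (α * k) ≤ 6 * q + 3 * q * (1 + Real.log q) := by
    have h1 : ∀ k ∈ Ioc 0 h, mm (N / k) (α * k) ≤ mm q (α * k) := by
      intro k hk
      rw [mem_Ioc] at hk
      exact mm_small hq hco hα _ (by positivity) k hk.1 (by omega)
    refine (sum_le_sum h1).trans ?_
    have h2 := sum_Ioc_nat_int (fun x : ℤ => mm q (α * x)) 0 h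
    simp only [Int.cast_natCast] at h2
    rw [h2]
    refine le_trans (sum_le_sum_of_subset_of_nonneg ?_ ?_)
      (block_sum hq hco hα (((0 : ℕ) : ℤ) + 1) q hq'.le)
    · apply Ico_subset_Ico_right
      push_cast
      omega
    · intro x _ _
      exact mm_nonneg _ _ hq'.le
  -- second part
  have hB : ∀ j ∈ range (J + 1), ∑ k ∈ Ioc (h + j * q) (h + j * q + q), mm (N / k) (α * k)
      ≤ 12 * (N / q) * ((j : ℝ) + 1)⁻¹ + 3 * q * (1 + Real.log q) := by
    intro j _
    set B : ℝ := 2 * N / (q * ((j : ℝ) + 1)) with hBdef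
    have hB0 : 0 ≤ B := by positivity
    have h1 : ∀ k ∈ Ioc (h + j * q) (h + j * q + q), mm (N / k) (α * k) ≤ mm B (α * k) := by
      intro k hk
      rw [mem_Ioc] at hk
      apply mm_mono _ _ _ (by positivity)
      rw [hBdef]
      have h3 : q * (j + 1) ≤ 2 * k := by
        have : q ≤ 2 * h + 1 := by omega
        nlinarith [hk.1]
      have h3' : (q : ℝ) * ((j : ℝ) + 1) ≤ 2 * k := by exact_mod_cast h3
      have hk0 : (0 : ℝ) < k := by
        have : 0 < k := by omega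
        exact_mod_cast this
      rw [div_le_div_iff₀ hk0 (by positivity)]
      nlinarith
    refine (sum_le_sum h1).trans ?_
    have h2 := sum_Ioc_nat_int (fun x : ℤ => mm B (α * x)) (h + j * q) (h + j * q + q)
    simp only [Int.cast_natCast] at h2
    rw [h2]
    have h4 := block_sum hq hco hα (((h + j * q : ℕ) : ℤ) + 1) B hB0
    have h5 : (((h + j * q : ℕ) : ℤ) + 1 + q) = ((h + j * q + q : ℕ) : ℤ) + 1 := by
      push_cast; ring
    rw [h5] at h4
    refine h4.trans (le_of_eq ?_)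
    rw [hBdef]
    field_simp
    ring
  have hC : ∑ j ∈ range (J + 1), ∑ k ∈ Ioc (h + j * q) (h + j * q + q), mm (N / k) (α * k)
      ≤ 12 * (N / q) * (1 + Real.log ((J : ℝ) + 1)) + (J + 1) * (3 * q * (1 + Real.log q)) := by
    refine (sum_le_sum hB).trans ?_
    rw [sum_add_distrib, ← mul_sum, sum_const, card_range, nsmul_eq_mul]
    push_cast
    gcongr
    have := harmonic_le_one_add_log (J + 1)
    rw [harmonic] at this
    push_cast at this
    exact this
  have hJq : (J : ℝ) * q ≤ K := by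
    have := Nat.div_mul_le_self K q
    exact_mod_cast this
  have hJN : (J : ℝ) ≤ N := by nlinarith [Nat.cast_nonneg (α := ℝ) J]
  have hlog : Real.log ((J : ℝ) + 1) ≤ 1 + Real.log N := by
    calc Real.log ((J : ℝ) + 1) ≤ Real.log (2 * N) := Real.log_le_log (by positivity) (by linarith)
      _ = Real.log 2 + Real.log N := Real.log_mul (by norm_num) hN0.ne'
      _ ≤ 1 + Real.log N := by linarith [Real.log_two_lt_d9]
  have hD : 12 * (N / q) * (1 + Real.log ((J : ℝ) + 1)) ≤ 24 * (N / q) * (1 + Real.log N) := by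
    have h0 : 0 ≤ N / q := by positivity
    nlinarith
  have hE : ((J : ℝ) + 1) * (3 * q * (1 + Real.log q)) ≤ 3 * (K + q) * (1 + Real.log N) := by
    calc ((J : ℝ) + 1) * (3 * q * (1 + Real.log q)) = 3 * (J * q + q) * (1 + Real.log q) := by ring
      _ ≤ 3 * (K + q) * (1 + Real.log N) := by gcongr
  have hF : 6 * (q : ℝ) + 3 * q * (1 + Real.log q) ≤ 9 * q * (1 + Real.log N) := by
    nlinarith
  have hK0 : (0 : ℝ) ≤ K := Nat.cast_nonneg K
  calc _ ≤ 9 * q * (1 + Real.log N) + (24 * (N / q) * (1 + Real.log N)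
        + 3 * (K + q) * (1 + Real.log N)) := by linarith
    _ = (24 * (N / q) + 3 * K + 12 * q) * (1 + Real.log N) := by ring
    _ ≤ 24 * (N / q + K + q) * (1 + Real.log N) := by
      apply mul_le_mul_of_nonneg_right _ (by linarith)
      linarith

end

end Pool.Agent.Circle
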