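import Pool.Agent.Work.Circle.Vaughan
import Pool.Agent.Work.Circle.MinSum
import Pool.Agent.Work.Circle.Divisor

/-!
Vinogradov's bound for `∑_{n ≤ N} Λ(n) e(α n)` on the minor arcs.
-/

set_option autoImplicit false

namespace Pool.Agent.Circle

open Finset ArithmeticFunction
open scoped ArithmeticFunction.Moebius ArithmeticFunction.zeta

/-- Partial summation with the weight `log`. -/
theorem norm_log_sum_le (θ : ℝ) (B : ℕ) (X : ℝ) (hX : (B : ℝ) ≤ X) :
    ‖∑ b ∈ Ioc 0 B, (Real.log b : ℂ) * e (b * θ)‖ ≤ Real.log B * mm X θ := by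
  have h1 : ∀ b ∈ Ioc 0 B, (Real.log b : ℂ) * e (b * θ)
      = ∑ j ∈ Ico 1 b, ((Real.log ((j + 1 : ℕ) : ℝ) - Real.log j : ℝ) : ℂ) * e (b * θ) := by
    intro b hb
    rw [mem_Ioc] at hb
    rw [← sum_mul]
    congr 1
    rw [← Complex.ofReal_sum, sum_Ico_sub (fun j : ℕ => Real.log j) (by omega)]
    simp
  rw [sum_congr rfl h1]
  rw [sum_comm' (t' := Ico 1 B) (s' := fun j => Ioc j B)]
  · have h2 : ∀ j ∈ Ico 1 B, ‖∑ b ∈ Ioc j B,
        ((Real.log ((j + 1 : ℕ) : ℝ) - Real.log j : ℝ) : ℂ) * e (b * θ)‖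
        ≤ (Real.log ((j + 1 : ℕ) : ℝ) - Real.log j) * mm X θ := by
      intro j hj
      rw [mem_Ico] at hj
      have hj0 : (0 : ℝ) < j := by exact_mod_cast hj.1
      have h3 : 0 ≤ Real.log ((j + 1 : ℕ) : ℝ) - Real.log j := by
        rw [sub_nonneg]
        apply Real.log_le_log hj0
        push_cast
        linarith
      rw [← mul_sum, norm_mul, Complex.norm_real, Real.norm_eq_abs, abs_of_nonneg h3]
      gcongr
      apply norm_geom_le_mm
      refine le_trans ?_ hX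
      exact_mod_cast Nat.sub_le _ _
    refine (norm_sum_le _ _).trans ((sum_le_sum h2).trans ?_)
    rw [← sum_mul]
    have hX0 : 0 ≤ X := (Nat.cast_nonneg _).trans hX
    gcongr
    · exact mm_nonneg _ _ hX0
    · rcases Nat.eq_zero_or_pos B with h | h
      · subst h; simp
      · rw [sum_Ico_sub (fun j : ℕ => Real.log j) (by omega)]
        simp
  · intro b j
    simp only [mem_Ioc, mem_Ico]
    omega

section
variable {α : ℝ} {q : ℕ} {a : ℤ}

theorem typeI_log (hq : 0 < q) (hco : IsCoprime a (q : ℤ)) (hα : |α - a / q| ≤ 1 / (q : ℝ) ^ 2)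
    (N U : ℕ) (hqN : q ≤ N) (hU : U ≤ N) :
    ‖∑ k ∈ Ioc 0 U, (((μ : ArithmeticFunction ℝ) k : ℝ) : ℂ) *
        ∑ b ∈ Ioc 0 (N / k), (Real.log b : ℂ) * e ((k * b : ℕ) * α)‖
      ≤ 24 * ((N : ℝ) / q + U + q) * (1 + Real.log N) ^ 2 := by
  have hN1 : 1 ≤ N := by omega
  have hN1' : (1 : ℝ) ≤ N := by exact_mod_cast hN1
  have hlog : 0 ≤ Real.log N := Real.log_nonneg hN1'
  refine (norm_sum_le _ _).trans ?_
  have h1 : ∀ k ∈ Ioc 0 U, ‖(((μ : ArithmeticFunction ℝ) k : ℝ) : ℂ) *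
        ∑ b ∈ Ioc 0 (N / k), (Real.log b : ℂ) * e ((k * b : ℕ) * α)‖
      ≤ (1 + Real.log N) * mm (N / k) (α * k) := by
    intro k hk
    rw [mem_Ioc] at hk
    have hk0 : (0 : ℝ) < k := by exact_mod_cast hk.1
    rw [norm_mul, Complex.norm_real, Real.norm_eq_abs]
    have h2 : ∀ b ∈ Ioc 0 (N / k), (Real.log b : ℂ) * e ((k * b : ℕ) * α)
        = (Real.log b : ℂ) * e (b * (α * k)) := by
      intro b _
      congr 2
      push_cast
      ring
    rw [sum_congr rfl h2]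
    have hX : ((N / k : ℕ) : ℝ) ≤ (N : ℝ) / k := Nat.cast_div_le
    have h3 := norm_log_sum_le (α * k) (N / k) ((N : ℝ) / k) hX
    have h4 := mm_nonneg ((N : ℝ) / k) (α * k) (by positivity)
    have h5 : Real.log ((N / k : ℕ) : ℝ) ≤ 1 + Real.log N := by
      rcases Nat.eq_zero_or_pos (N / k) with h | h
      · rw [h]; simp; linarith
      · have : Real.log ((N / k : ℕ) : ℝ) ≤ Real.log N := by
          apply Real.log_le_log (by exact_mod_cast h)
          exact_mod_cast Nat.div_le_self _ _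
        linarith
    calc _ ≤ 1 * (Real.log ((N / k : ℕ) : ℝ) * mm (N / k) (α * k)) :=
          mul_le_mul (abs_moebius_le k) h3 (norm_nonneg _) zero_le_one
      _ ≤ _ := by rw [one_mul]; gcongr
  refine (sum_le_sum h1).trans ?_
  rw [← mul_sum]
  have h2 := min_sum hq hco hα (N : ℝ) U (by exact_mod_cast hqN) (by exact_mod_cast hU)
  calc _ ≤ (1 + Real.log N) * (24 * ((N : ℝ) / q + U + q) * (1 + Real.log N)) := by gcongr
    _ = _ := by ring

theorem typeI_vc (hq : 0 < q) (hco : IsCoprime a (q : ℤ)) (hα : |α - a / q| ≤ 1 / (q : ℝ) ^ 2)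
    (N U V : ℕ) (hqN : q ≤ N) (hUV : U * V ≤ N) :
    ‖∑ k ∈ Ioc 0 (U * V), (vc U V k : ℂ) * ∑ r ∈ Ioc 0 (N / k), e ((k * r : ℕ) * α)‖
      ≤ 24 * ((N : ℝ) / q + (U * V : ℕ) + q) * (1 + Real.log N) ^ 2 := by
  have hN1 : 1 ≤ N := by omega
  have hN1' : (1 : ℝ) ≤ N := by exact_mod_cast hN1
  have hlog : 0 ≤ Real.log N := Real.log_nonneg hN1'
  refine (norm_sum_le _ _).trans ?_
  have h1 : ∀ k ∈ Ioc 0 (U * V), ‖(vc U V k : ℂ) * ∑ r ∈ Ioc 0 (N / k), e ((k * r : ℕ) * α)‖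
      ≤ (1 + Real.log N) * mm (N / k) (α * k) := by
    intro k hk
    rw [mem_Ioc] at hk
    have hk0 : (0 : ℝ) < k := by exact_mod_cast hk.1
    rw [norm_mul, Complex.norm_real, Real.norm_eq_abs]
    have h2 : ∀ b ∈ Ioc 0 (N / k), e ((k * b : ℕ) * α) = e (b * (α * k)) := by
      intro b _
      congr 1
      push_cast
      ring
    rw [sum_congr rfl h2]
    have hX : ((N / k - 0 : ℕ) : ℝ) ≤ (N : ℝ) / k := by
      rw [Nat.sub_zero]; exact Nat.cast_div_le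
    have h3 := norm_geom_le_mm (α * k) 0 (N / k) ((N : ℝ) / k) hX
    have h5 : |vc U V k| ≤ 1 + Real.log N := by
      refine (abs_vc_le U V k).trans ?_
      have : Real.log k ≤ Real.log N := by
        apply Real.log_le_log hk0
        exact_mod_cast hk.2.trans hUV
      linarith
    exact mul_le_mul h5 h3 (norm_nonneg _) (by linarith)
  refine (sum_le_sum h1).trans ?_
  rw [← mul_sum]
  have h2 := min_sum hq hco hα (N : ℝ) (U * V) (by exact_mod_cast hqN) (by exact_mod_cast hUV)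
  calc _ ≤ (1 + Real.log N) * (24 * ((N : ℝ) / q + (U * V : ℕ) + q) * (1 + Real.log N)) := by
        gcongr
    _ = _ := by ring

/-- Bilinear estimate on one block, with a coupling condition `m ≤ t n`. -/
theorem bilinear_sq (hq : 0 < q) (hco : IsCoprime a (q : ℤ)) (hα : |α - a / q| ≤ 1 / (q : ℝ) ^ 2)
    (b : ℕ → ℝ) (β : ℝ) (t : ℕ → ℕ) (V R M : ℕ) (hb : ∀ n ∈ Ioc V R, |b n| ≤ β) :
    ∑ m ∈ Ioc M (2 * M), ‖∑ n ∈ (Ioc V R).filter (fun n => m ≤ t n),
        (b n : ℂ) * e ((m * n : ℕ) * α)‖ ^ 2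
      ≤ β ^ 2 * R * ((R : ℝ) / q + 1) * (6 * M + 3 * q * (1 + Real.log q)) := by
  classical
  have hsq : ∀ z : ℂ, ((‖z‖ ^ 2 : ℝ) : ℂ) = z * (starRingEnd ℂ) z := by
    intro z
    rw [Complex.mul_conj, Complex.normSq_eq_norm_sq]
  have h1 : ((∑ m ∈ Ioc M (2 * M), ‖∑ n ∈ (Ioc V R).filter (fun n => m ≤ t n),
        (b n : ℂ) * e ((m * n : ℕ) * α)‖ ^ 2 : ℝ) : ℂ)
      = ∑ n ∈ Ioc V R, ∑ n' ∈ Ioc V R, (b n : ℂ) * (b n' : ℂ) *
          ∑ m ∈ Ioc M (min (2 * M) (min (t n) (t n'))), e (m * (α * ((n : ℤ) - (n' : ℤ) : ℤ))) := by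
    push_cast
    have h2 : ∀ m ∈ Ioc M (2 * M), ((‖∑ n ∈ (Ioc V R).filter (fun n => m ≤ t n),
        (b n : ℂ) * e ((m : ℝ) * n * α)‖ : ℂ) ^ 2)
        = ∑ n ∈ Ioc V R, ∑ n' ∈ Ioc V R, if m ≤ t n ∧ m ≤ t n' then
            (b n : ℂ) * (b n' : ℂ) * e (m * (α * ((n : ℝ) - (n' : ℝ)))) else 0 := by
      intro m _
      have := hsq (∑ n ∈ (Ioc V R).filter (fun n => m ≤ t n), (b n : ℂ) * e ((m : ℝ) * n * α))
      push_cast at this
      rw [this, map_sum, sum_mul_sum, sum_filter]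
      refine sum_congr rfl fun n _ => ?_
      by_cases hn : m ≤ t n
      · rw [if_pos hn, sum_filter]
        refine sum_congr rfl fun n' _ => ?_
        by_cases hn' : m ≤ t n'
        · rw [if_pos hn', if_pos ⟨hn, hn'⟩, map_mul, Complex.conj_ofReal, conj_e]
          rw [show (m : ℝ) * (α * ((n : ℝ) - (n' : ℝ))) = (m : ℝ) * n * α + -((m : ℝ) * n' * α) by
            ring, e_add]
          ring
        · rw [if_neg hn', if_neg (fun h => hn' h.2)]
      · rw [if_neg hn]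
        symm
        refine sum_eq_zero fun n' _ => ?_
        rw [if_neg (fun h => hn h.1)]
    rw [sum_congr rfl h2, sum_comm]
    refine sum_congr rfl fun n _ => ?_
    rw [sum_comm]
    refine sum_congr rfl fun n' _ => ?_
    rw [mul_sum, ← sum_filter]
    refine sum_congr ?_ fun m _ => rfl
    ext m
    simp only [mem_filter, mem_Ioc, le_min_iff]
    tauto
  have hβ : ∀ n ∈ Ioc V R, 0 ≤ β := fun n hn => (abs_nonneg _).trans (hb n hn)
  have h3 : (∑ m ∈ Ioc M (2 * M), ‖∑ n ∈ (Ioc V R).filter (fun n => m ≤ t n),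
        (b n : ℂ) * e ((m * n : ℕ) * α)‖ ^ 2 : ℝ)
      ≤ ∑ n ∈ Ioc V R, ∑ n' ∈ Ioc V R, β ^ 2 * mm M (α * ((n : ℤ) - (n' : ℤ) : ℤ)) := by
    have h4 : (∑ m ∈ Ioc M (2 * M), ‖∑ n ∈ (Ioc V R).filter (fun n => m ≤ t n),
        (b n : ℂ) * e ((m * n : ℕ) * α)‖ ^ 2 : ℝ)
        ≤ ‖((∑ m ∈ Ioc M (2 * M), ‖∑ n ∈ (Ioc V R).filter (fun n => m ≤ t n),
        (b n : ℂ) * e ((m * n : ℕ) * α)‖ ^ 2 : ℝ) : ℂ)‖ := by
      rw [Complex.norm_real]
      exact le_abs_self _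
    refine h4.trans ?_
    rw [h1]
    refine (norm_sum_le _ _).trans (sum_le_sum fun n hn => ?_)
    refine (norm_sum_le _ _).trans (sum_le_sum fun n' hn' => ?_)
    rw [norm_mul, norm_mul, Complex.norm_real, Complex.norm_real, Real.norm_eq_abs,
      Real.norm_eq_abs]
    have h5 := norm_geom_le_mm (α * (((n : ℤ) - (n' : ℤ) : ℤ) : ℝ)) M
      (min (2 * M) (min (t n) (t n'))) M (by
        have : min (2 * M) (min (t n) (t n')) - M ≤ M := by omega
        exact_mod_cast this)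
    have h6 : |b n| * |b n'| ≤ β ^ 2 := by
      rw [sq]
      exact mul_le_mul (hb n hn) (hb n' hn') (abs_nonneg _) (hβ n hn)
    exact mul_le_mul h6 h5 (norm_nonneg _) (sq_nonneg β)
  refine h3.trans ?_
  have h7 : ∀ n ∈ Ioc V R, ∑ n' ∈ Ioc V R, β ^ 2 * mm M (α * ((n : ℤ) - (n' : ℤ) : ℤ))
      ≤ β ^ 2 * (((R : ℝ) / q + 1) * (6 * M + 3 * q * (1 + Real.log q))) := by
    intro n hn
    rw [← mul_sum]
    gcongr
    have h8 : ∑ n' ∈ Ioc V R, mm M (α * (((n : ℤ) - (n' : ℤ) : ℤ) : ℝ))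
        ≤ ∑ x ∈ Ico ((n : ℤ) - R) ((n : ℤ) - R + R), mm M (α * x) := by
      rw [← sum_image (s := Ioc V R) (g := fun n' : ℕ => ((n : ℤ) - (n' : ℤ)))
        (f := fun x : ℤ => mm M (α * (x : ℝ)))]
      · apply sum_le_sum_of_subset_of_nonneg
        · intro x hx
          rw [mem_image] at hx
          obtain ⟨n', hn', rfl⟩ := hx
          rw [mem_Ioc] at hn'
          rw [mem_Ico]
          omega
        · intro x _ _
          exact mm_nonneg _ _ (Nat.cast_nonneg _)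
      · intro x _ y _ hxy
        simp only at hxy
        omega
    exact h8.trans (interval_sum hq hco hα _ M (Nat.cast_nonneg _) R)
  refine (sum_le_sum h7).trans ?_
  rw [sum_const, nsmul_eq_mul, Nat.card_Ioc]
  have h9 : ((R - V : ℕ) : ℝ) ≤ R := by exact_mod_cast Nat.sub_le _ _
  have hq1 : (1 : ℝ) ≤ q := by exact_mod_cast hq
  have hlogq : 0 ≤ Real.log q := Real.log_nonneg hq1
  calc _ ≤ (R : ℝ) * (β ^ 2 * (((R : ℝ) / q + 1) * (6 * M + 3 * q * (1 + Real.log q)))) := by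
        gcongr
    _ = _ := by ring

end

end Pool.Agent.Circle
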