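import Pool.Agent.Work.Circle.Expo

/-!
Spacing of the points `α x` modulo `1` over blocks of `q` consecutive integers, where
`|α - a/q| ≤ 1/q²`, and the standard bounds for sums of `min (B, 1/‖α x‖)`.
-/

set_option autoImplicit false

namespace Pool.Agent.Circle

open Finset

section
variable {α : ℝ} {q : ℕ} {a : ℤ}

theorem card_block (hq : 0 < q) (hco : IsCoprime a (q : ℤ)) (hα : |α - a / q| ≤ 1 / (q : ℝ) ^ 2)
    (x0 : ℤ) (i : ℕ) :
    ((Ico x0 (x0 + q)).filter (fun x : ℤ => ⌊(q : ℝ) * dn (α * x)⌋₊ = i)).card ≤ 6 := by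
  classical
  have hq' : (0 : ℝ) < q := by exact_mod_cast hq
  set c : ℝ := q * α * x0 with hc
  set s : ℤ → ℤ := fun x => a * (x - x0) - q * round (α * x) with hs
  set T : Finset ℤ := Ico ⌈(i : ℝ) - 1 - c⌉ (⌈(i : ℝ) - 1 - c⌉ + 3)
    ∪ Ioc ⌊-(i : ℝ) - 2 - c⌋ (⌊-(i : ℝ) - 2 - c⌋ + 3) with hT
  have hTcard : T.card ≤ 6 := by
    rw [hT]
    refine (card_union_le _ _).trans ?_
    simp
  refine le_trans (card_le_card_of_injOn s ?_ ?_) hTcard
  · intro x hx
    simp only [coe_filter, mem_Ico, Set.mem_setOf_eq] at hx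
    obtain ⟨⟨hx1, hx2⟩, hx3⟩ := hx
    set η : ℝ := q * α - a with hη
    have hη' : |η| ≤ 1 / q := by
      have : η = q * (α - a / q) := by rw [hη]; field_simp
      rw [this, abs_mul, abs_of_pos hq']
      calc (q : ℝ) * |α - a / q| ≤ q * (1 / (q : ℝ) ^ 2) := by gcongr
        _ = 1 / q := by field_simp
    have hx1' : (0 : ℝ) ≤ x - x0 := by
      have : (x0 : ℝ) ≤ x := by exact_mod_cast hx1
      linarith
    have hx2' : (x : ℝ) - x0 < q := by
      have : (x : ℝ) < x0 + q := by exact_mod_cast hx2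
      linarith
    have h1 : |η * (x - x0)| ≤ 1 := by
      rw [abs_mul, abs_of_nonneg hx1']
      calc |η| * (x - x0) ≤ 1 / q * q := by gcongr
        _ = 1 := by field_simp
    obtain ⟨h1a, h1b⟩ := abs_le.mp h1
    set r : ℝ := α * x - round (α * x) with hr
    have h2 : (s x : ℝ) = q * r - c - η * (x - x0) := by
      rw [hs, hr, hc, hη]
      push_cast
      ring
    have hdn : dn (α * x) = |r| := rfl
    have h3 : (i : ℝ) ≤ q * |r| := by
      rw [← hdn, ← hx3]
      exact Nat.floor_le (by have := dn_nonneg (α * x); positivity)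
    have h4 : q * |r| < i + 1 := by
      rw [← hdn, ← hx3]
      exact Nat.lt_floor_add_one _
    rw [hT, coe_union]
    rcases le_total 0 r with h | h
    · left
      rw [abs_of_nonneg h] at h3 h4
      simp only [coe_Ico, Set.mem_Ico]
      constructor
      · rw [Int.ceil_le]
        linarith
      · have h5 : (s x : ℝ) < (i : ℝ) - 1 - c + 3 := by linarith
        have h6 : (s x : ℝ) < ((⌈(i : ℝ) - 1 - c⌉ + 3 : ℤ) : ℝ) := by
          push_cast
          linarith [Int.le_ceil ((i : ℝ) - 1 - c)]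
        exact_mod_cast h6
    · right
      rw [abs_of_nonpos h] at h3 h4
      simp only [coe_Ioc, Set.mem_Ioc]
      constructor
      · rw [Int.floor_lt]
        linarith
      · have h5 : (s x : ℝ) ≤ -(i : ℝ) - 2 - c + 3 := by linarith
        have h6 : s x ≤ ⌊-(i : ℝ) - 2 - c + 3⌋ := Int.le_floor.mpr h5
        have h7 : ⌊-(i : ℝ) - 2 - c + 3⌋ = ⌊-(i : ℝ) - 2 - c⌋ + 3 := by
          exact_mod_cast Int.floor_add_ofNat (-(i : ℝ) - 2 - c) 3
        rwa [h7] at h6
  · intro x hx y hy hxy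
    simp only [coe_filter, mem_Ico, Set.mem_setOf_eq] at hx hy
    have h1 : a * (x - y) = q * (round (α * x) - round (α * y)) := by
      have : a * (x - x0) - q * round (α * x) = a * (y - x0) - q * round (α * y) := hxy
      linear_combination this
    have h2 : (q : ℤ) ∣ x - y := by
      have : (q : ℤ) ∣ a * (x - y) := ⟨_, h1⟩
      exact IsCoprime.dvd_of_dvd_mul_left hco.symm this
    have h3 : |x - y| < q := by
      rw [abs_lt]
      constructor <;> linarith [hx.1.1, hx.1.2, hy.1.1, hy.1.2]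
    have := Int.eq_zero_of_abs_lt_dvd h2 h3
    linarith

theorem block_sum (hq : 0 < q) (hco : IsCoprime a (q : ℤ)) (hα : |α - a / q| ≤ 1 / (q : ℝ) ^ 2)
    (x0 : ℤ) (B : ℝ) (hB : 0 ≤ B) :
    ∑ x ∈ Ico x0 (x0 + q), mm B (α * x) ≤ 6 * B + 3 * q * (1 + Real.log q) := by
  classical
  have hq' : (0 : ℝ) < q := by exact_mod_cast hq
  set g : ℕ → ℝ := fun i => if i = 0 then B else q / (2 * i) with hg
  have hg0 : ∀ i, 0 ≤ g i := by
    intro i
    simp only [hg]
    split_ifs
    · exact hB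
    · positivity
  have h1 : ∀ x ∈ Ico x0 (x0 + q), mm B (α * x) ≤ g ⌊(q : ℝ) * dn (α * x)⌋₊ := by
    intro x _
    simp only [hg]
    split_ifs with h
    · exact mm_le_left _ _ hB
    · set i := ⌊(q : ℝ) * dn (α * x)⌋₊ with hi
      have hi0 : (0 : ℝ) < i := by exact_mod_cast Nat.pos_of_ne_zero h
      have h3 : (i : ℝ) ≤ q * dn (α * x) := by
        rw [hi]
        exact Nat.floor_le (by have := dn_nonneg (α * x); positivity)
      have h4 : (i : ℝ) / q ≤ dn (α * x) := by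
        rw [div_le_iff₀ hq']
        linarith
      refine (mm_le_right B _ (i / q) hB (by positivity) h4).trans (le_of_eq ?_)
      field_simp
  refine (sum_le_sum h1).trans ?_
  have h2 : ∀ x ∈ Ico x0 (x0 + q), ⌊(q : ℝ) * dn (α * x)⌋₊ ∈ range (q + 1) := by
    intro x _
    rw [mem_range]
    have : (q : ℝ) * dn (α * x) ≤ q := by
      have := dn_le_half (α * x)
      nlinarith
    have := Nat.floor_le_of_le this
    omega
  rw [← sum_fiberwise_of_maps_to h2]
  have h3 : ∀ i ∈ range (q + 1), ∑ x ∈ (Ico x0 (x0 + q)).filter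
      (fun x : ℤ => ⌊(q : ℝ) * dn (α * x)⌋₊ = i), g ⌊(q : ℝ) * dn (α * x)⌋₊ ≤ 6 * g i := by
    intro i _
    have : ∀ x ∈ (Ico x0 (x0 + q)).filter (fun x : ℤ => ⌊(q : ℝ) * dn (α * x)⌋₊ = i),
        g ⌊(q : ℝ) * dn (α * x)⌋₊ = g i := by
      intro x hx
      rw [(mem_filter.mp hx).2]
    rw [sum_congr rfl this, sum_const, nsmul_eq_mul]
    have hc : (((Ico x0 (x0 + q)).filter
      (fun x : ℤ => ⌊(q : ℝ) * dn (α * x)⌋₊ = i)).card : ℝ) ≤ 6 := by
      exact_mod_cast card_block hq hco hα x0 i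
    exact mul_le_mul_of_nonneg_right hc (hg0 i)
  refine (sum_le_sum h3).trans ?_
  rw [← mul_sum, sum_range_succ']
  have h4 : ∑ k ∈ range q, g (k + 1) = q / 2 * (harmonic q : ℝ) := by
    rw [harmonic]
    push_cast
    rw [mul_sum]
    refine sum_congr rfl fun k _ => ?_
    simp only [hg]
    rw [if_neg (by omega)]
    push_cast
    field_simp
  have h5 := harmonic_le_one_add_log q
  rw [h4]
  have h6 : g 0 = B := by simp [hg]
  rw [h6]
  nlinarith

theorem blocks_sum (hq : 0 < q) (hco : IsCoprime a (q : ℤ)) (hα : |α - a / q| ≤ 1 / (q : ℝ) ^ 2)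
    (x0 : ℤ) (B : ℝ) (hB : 0 ≤ B) (k : ℕ) :
    ∑ x ∈ Ico x0 (x0 + k * q), mm B (α * x) ≤ k * (6 * B + 3 * q * (1 + Real.log q)) := by
  induction k with
  | zero => simp
  | succ k ih =>
    have h1 : Ico x0 (x0 + ((k + 1 : ℕ) : ℤ) * q)
        = Ico x0 (x0 + k * q) ∪ Ico (x0 + k * q) (x0 + k * q + q) := by
      rw [Ico_union_Ico_eq_Ico]
      · congr 1; push_cast; ring
      · have : (0:ℤ) ≤ k * q := by positivity
        linarith
      · have : (0:ℤ) ≤ q := by positivity
        linarith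
    rw [h1, sum_union (Ico_disjoint_Ico_consecutive _ _ _)]
    have h2 := block_sum hq hco hα (x0 + k * q) B hB
    push_cast
    linarith

/-- The sum of `min (B, 1/(2‖αx‖))` over an interval of length at most `ℓ`. -/
theorem interval_sum (hq : 0 < q) (hco : IsCoprime a (q : ℤ)) (hα : |α - a / q| ≤ 1 / (q : ℝ) ^ 2)
    (x0 : ℤ) (B : ℝ) (hB : 0 ≤ B) (ℓ : ℕ) :
    ∑ x ∈ Ico x0 (x0 + ℓ), mm B (α * x)
      ≤ ((ℓ : ℝ) / q + 1) * (6 * B + 3 * q * (1 + Real.log q)) := by
  have hq' : (0 : ℝ) < q := by exact_mod_cast hq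
  have hW : 0 ≤ 6 * B + 3 * q * (1 + Real.log q) := by
    have : 0 ≤ Real.log q := Real.log_natCast_nonneg q
    positivity
  have h1 := blocks_sum hq hco hα x0 B hB (ℓ / q + 1)
  refine le_trans (sum_le_sum_of_subset_of_nonneg ?_ ?_) (h1.trans ?_)
  · apply Ico_subset_Ico_right
    have : ℓ ≤ (ℓ / q + 1) * q := by
      have := Nat.lt_div_mul_add hq (a := ℓ)
      nlinarith
    have : (ℓ : ℤ) ≤ ((ℓ / q + 1 : ℕ) : ℤ) * q := by exact_mod_cast this
    linarith
  · intro x _ _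
    exact mm_nonneg _ _ hB
  · apply mul_le_mul_of_nonneg_right _ hW
    push_cast
    have : ((ℓ / q : ℕ) : ℝ) ≤ (ℓ : ℝ) / q := Nat.cast_div_le
    linarith

end

end Pool.Agent.Circle
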